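import Mathlib

/-!
Linear spaces `L ⊆ ℂ^ι`, their points over `ℂ`-algebras, the generic point of `L × L^⊥`, and the ideal `J L` of the
polynomials vanishing at `x² w`, `x ∈ L`, `w ∈ L^⊥`.
-/

set_option autoImplicit false

open MvPolynomial

namespace Pool.Agent.H72R

variable {ι : Type} [Fintype ι]

/-- The orthogonal complement with respect to the standard bilinear form. -/
def perp (L : Submodule ℂ (ι → ℂ)) : Submodule ℂ (ι → ℂ) where
  carrier := {w | ∀ v ∈ L, ∑ i, v i * w i = 0}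
  add_mem' := by
    intro a b ha hb v hv
    simp only [Pi.add_apply, mul_add, Finset.sum_add_distrib, ha v hv, hb v hv, add_zero]
  zero_mem' := by
    intro v _
    simp
  smul_mem' := by
    intro c a ha v hv
    have : ∑ i, v i * (c • a) i = c * ∑ i, v i * a i := by
      rw [Finset.mul_sum]
      refine Finset.sum_congr rfl fun i _ => ?_
      simp only [Pi.smul_apply, smul_eq_mul]
      ring
    rw [this, ha v hv, mul_zero]

theorem mem_perp {L : Submodule ℂ (ι → ℂ)} {w : ι → ℂ} :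
    w ∈ perp L ↔ ∀ v ∈ L, ∑ i, v i * w i = 0 := Iff.rfl

theorem decomp [DecidableEq ι] (v : ι → ℂ) : v = ∑ j, v j • (Pi.single j (1 : ℂ) : ι → ℂ) := by
  conv_lhs => rw [← Finset.univ_sum_single v]
  refine Finset.sum_congr rfl fun j _ => ?_
  ext l
  by_cases h : l = j
  · subst h; simp
  · simp [h]

theorem perp_perp (L : Submodule ℂ (ι → ℂ)) : perp (perp L) = L := by
  classical
  apply le_antisymm
  · intro v hv
    by_contra hvL
    obtain ⟨f, hf1, hf2⟩ := Submodule.exists_le_ker_of_notMem hvL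
    -- f is a linear functional vanishing on L
    let w : ι → ℂ := fun i => f (Pi.single i 1)
    have hfw : ∀ u : ι → ℂ, f u = ∑ i, u i * w i := by
      intro u
      conv_lhs => rw [decomp u]
      rw [map_sum]
      refine Finset.sum_congr rfl fun i _ => ?_
      rw [map_smul, smul_eq_mul]
    have hw : w ∈ perp L := by
      intro u hu
      rw [← hfw u]
      exact hf2 hu
    have h3 := hv w hw
    apply hf1
    rw [hfw v, ← h3]
    exact Finset.sum_congr rfl fun i _ => mul_comm _ _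
  · intro v hv w hw
    have := hw v hv
    rw [← this]
    exact Finset.sum_congr rfl fun i _ => mul_comm _ _

theorem perp_anti {L M : Submodule ℂ (ι → ℂ)} (h : L ≤ M) : perp M ≤ perp L :=
  fun _ hw v hv => hw v (h hv)

/-- `A`-points of `L`. -/
def Pt (A : Type) [CommRing A] [Algebra ℂ A] (L : Submodule ℂ (ι → ℂ)) : Submodule A (ι → A) where
  carrier := {x | ∀ l ∈ perp L, ∑ i, algebraMap ℂ A (l i) * x i = 0}
  add_mem' := by
    intro a b ha hb v hv
    simp only [Pi.add_apply, mul_add, Finset.sum_add_distrib, ha v hv, hb v hv, add_zero]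
  zero_mem' := by
    intro v _
    simp
  smul_mem' := by
    intro c a ha v hv
    have : ∑ i, algebraMap ℂ A (v i) * (c • a) i = c * ∑ i, algebraMap ℂ A (v i) * a i := by
      rw [Finset.mul_sum]
      refine Finset.sum_congr rfl fun i _ => ?_
      simp only [Pi.smul_apply, smul_eq_mul]
      ring
    rw [this, ha v hv, mul_zero]

section Points

variable {A B : Type} [CommRing A] [Algebra ℂ A] [CommRing B] [Algebra ℂ B]

theorem mem_Pt {L : Submodule ℂ (ι → ℂ)} {x : ι → A} :
    x ∈ Pt A L ↔ ∀ l ∈ perp L, ∑ i, algebraMap ℂ A (l i) * x i = 0 := Iff.rfl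

theorem mem_Pt_perp {L : Submodule ℂ (ι → ℂ)} {x : ι → A} :
    x ∈ Pt A (perp L) ↔ ∀ l ∈ L, ∑ i, algebraMap ℂ A (l i) * x i = 0 := by
  rw [mem_Pt, perp_perp]

theorem Pt_map {L : Submodule ℂ (ι → ℂ)} {x : ι → A} (hx : x ∈ Pt A L) (f : A →ₐ[ℂ] B) :
    (fun i => f (x i)) ∈ Pt B L := by
  intro l hl
  have h := congrArg f (hx l hl)
  rw [map_sum, map_zero] at h
  rw [← h]
  refine Finset.sum_congr rfl fun i _ => ?_
  rw [map_mul, AlgHom.commutes]

theorem Pt_of_map {L : Submodule ℂ (ι → ℂ)} {x : ι → A} (f : A →ₐ[ℂ] B)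
    (hf : Function.Injective f) (hx : (fun i => f (x i)) ∈ Pt B L) : x ∈ Pt A L := by
  intro l hl
  apply hf
  rw [map_zero, ← hx l hl, map_sum]
  refine Finset.sum_congr rfl fun i _ => ?_
  rw [map_mul, AlgHom.commutes]

theorem Pt_const {L : Submodule ℂ (ι → ℂ)} {v : ι → ℂ} (hv : v ∈ L) :
    (fun i => algebraMap ℂ A (v i)) ∈ Pt A L := by
  intro l hl
  have h := congrArg (algebraMap ℂ A) (hl v hv)
  rw [map_sum, map_zero] at h
  rw [← h]
  refine Finset.sum_congr rfl fun i _ => ?_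
  rw [map_mul, mul_comm]

end Points

omit [Fintype ι] in
/-- a linear projection onto `L` -/
theorem exists_proj (L : Submodule ℂ (ι → ℂ)) :
    ∃ p : (ι → ℂ) →ₗ[ℂ] (ι → ℂ), (∀ v, p v ∈ L) ∧ ∀ v ∈ L, p v = v := by
  obtain ⟨g, hg⟩ := LinearMap.exists_leftInverse_of_injective L.subtype (by simp)
  refine ⟨L.subtype ∘ₗ g, fun v => (g v).2, fun v hv => ?_⟩
  have := LinearMap.congr_fun hg ⟨v, hv⟩
  simp only [LinearMap.comp_apply, Submodule.subtype_apply, LinearMap.id_apply] at this ⊢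
  rw [this]

noncomputable def proj (L : Submodule ℂ (ι → ℂ)) : (ι → ℂ) →ₗ[ℂ] (ι → ℂ) :=
  (exists_proj L).choose

theorem proj_mem (L : Submodule ℂ (ι → ℂ)) (v : ι → ℂ) : proj L v ∈ L :=
  (exists_proj L).choose_spec.1 v

theorem proj_eq {L : Submodule ℂ (ι → ℂ)} {v : ι → ℂ} (hv : v ∈ L) : proj L v = v :=
  (exists_proj L).choose_spec.2 v hv

section Mat

variable {A : Type} [CommRing A] [Algebra ℂ A] [DecidableEq ι]

/-- base change of a linear map -/
noncomputable def ext (p : (ι → ℂ) →ₗ[ℂ] (ι → ℂ)) (x : ι → A) : ι → A :=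
  fun i => ∑ j, algebraMap ℂ A (p (Pi.single j 1) i) * x j

theorem apply_eq (p : (ι → ℂ) →ₗ[ℂ] (ι → ℂ)) (v : ι → ℂ) (i : ι) :
    p v i = ∑ j, p (Pi.single j 1) i * v j := by
  conv_lhs => rw [decomp v]
  rw [map_sum, Finset.sum_apply]
  refine Finset.sum_congr rfl fun j _ => ?_
  rw [map_smul, Pi.smul_apply, smul_eq_mul, mul_comm]

theorem ext_mem {L : Submodule ℂ (ι → ℂ)} (p : (ι → ℂ) →ₗ[ℂ] (ι → ℂ)) (hp : ∀ v, p v ∈ L)
    (x : ι → A) : ext p x ∈ Pt A L := by
  intro l hl
  unfold ext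
  simp only [Finset.mul_sum]
  rw [Finset.sum_comm]
  refine Finset.sum_eq_zero fun j _ => ?_
  have h := congrArg (algebraMap ℂ A) (hl _ (hp (Pi.single j 1)))
  rw [map_sum, map_zero] at h
  calc ∑ i, algebraMap ℂ A (l i) * (algebraMap ℂ A (p (Pi.single j 1) i) * x j)
      = (∑ i, algebraMap ℂ A (p (Pi.single j 1) i * l i)) * x j := by
        rw [Finset.sum_mul]
        refine Finset.sum_congr rfl fun i _ => ?_
        rw [map_mul]
        ring
    _ = 0 := by rw [h, zero_mul]

theorem ext_eq {L : Submodule ℂ (ι → ℂ)} (p : (ι → ℂ) →ₗ[ℂ] (ι → ℂ)) (hp : ∀ v ∈ L, p v = v)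
    {x : ι → A} (hx : x ∈ Pt A L) : ext p x = x := by
  funext i
  let l : ι → ℂ := fun j => (if j = i then 1 else 0) - p (Pi.single j 1) i
  have hl : l ∈ perp L := by
    intro v hv
    have h1 := apply_eq p v i
    rw [hp v hv] at h1
    simp only [l, mul_sub, Finset.sum_sub_distrib, mul_ite, mul_one, mul_zero,
      Finset.sum_ite_eq', Finset.mem_univ, if_true]
    rw [sub_eq_zero, h1]
    exact Finset.sum_congr rfl fun j _ => mul_comm _ _
  have h2 := hx l hl
  simp only [l, map_sub, sub_mul, Finset.sum_sub_distrib] at h2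
  have h3 : ∑ j, algebraMap ℂ A (if j = i then 1 else 0) * x j = x i := by
    rw [Finset.sum_eq_single i]
    · simp
    · intro j _ hj
      simp [hj]
    · simp
  rw [h3, sub_eq_zero] at h2
  exact h2.symm

end Mat

section Pair

variable {A : Type} [CommRing A] [Algebra ℂ A]

theorem pair_zero {L : Submodule ℂ (ι → ℂ)} {x w : ι → A} (hx : x ∈ Pt A L)
    (hw : w ∈ Pt A (perp L)) : ∑ i, x i * w i = 0 := by
  classical
  rw [← ext_eq (proj L) (fun v hv => proj_eq hv) hx]
  unfold ext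
  simp only [Finset.sum_mul]
  rw [Finset.sum_comm]
  refine Finset.sum_eq_zero fun j _ => ?_
  have h := mem_Pt_perp.1 hw _ (proj_mem L (Pi.single j 1))
  calc ∑ i, algebraMap ℂ A (proj L (Pi.single j 1) i) * x j * w i
      = (∑ i, algebraMap ℂ A (proj L (Pi.single j 1) i) * w i) * x j := by
        rw [Finset.sum_mul]
        refine Finset.sum_congr rfl fun i _ => ?_
        ring
    _ = 0 := by rw [h, zero_mul]

end Pair

/-! ### The generic point -/

/-- the coordinate ring of (a polynomial cover of) `L × L^⊥` -/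
abbrev R (ι : Type) : Type := MvPolynomial (ι ⊕ ι) ℂ

section Generic

variable [DecidableEq ι] (L : Submodule ℂ (ι → ℂ))

noncomputable def gx : ι → R ι := ext (proj L) fun j => X (Sum.inl j)
noncomputable def gw : ι → R ι := ext (proj (perp L)) fun j => X (Sum.inr j)

theorem gx_mem : gx L ∈ Pt (R ι) L := ext_mem _ (proj_mem L) _
theorem gw_mem : gw L ∈ Pt (R ι) (perp L) := ext_mem _ (proj_mem (perp L)) _

/-- the generic value of `x² w` -/
noncomputable def gu : ι → R ι := fun i => gx L i ^ 2 * gw L i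

variable {L}

section spec

variable {A : Type} [CommRing A] [Algebra ℂ A]

/-- specialization of the generic point -/
noncomputable def sp (x w : ι → A) : R ι →ₐ[ℂ] A := aeval (Sum.elim x w)

theorem sp_gx {x w : ι → A} (hx : x ∈ Pt A L) (i : ι) : sp x w (gx L i) = x i := by
  have h := congrFun (ext_eq (proj L) (fun v hv => proj_eq hv) hx) i
  rw [← h]
  unfold gx ext sp
  rw [map_sum]
  refine Finset.sum_congr rfl fun j _ => ?_
  rw [map_mul, aeval_X, AlgHom.commutes]
  rfl

theorem sp_gw {x w : ι → A} (hw : w ∈ Pt A (perp L)) (i : ι) : sp x w (gw L i) = w i := by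
  have h := congrFun (ext_eq (proj (perp L)) (fun v hv => proj_eq hv) hw) i
  rw [← h]
  unfold gw ext sp
  rw [map_sum]
  refine Finset.sum_congr rfl fun j _ => ?_
  rw [map_mul, aeval_X, AlgHom.commutes]
  rfl

theorem sp_gu {x w : ι → A} (hx : x ∈ Pt A L) (hw : w ∈ Pt A (perp L)) (i : ι) :
    sp x w (gu L i) = x i ^ 2 * w i := by
  unfold gu
  rw [map_mul, map_pow, sp_gx hx, sp_gw hw]

theorem sp_aeval {x w : ι → A} (hx : x ∈ Pt A L) (hw : w ∈ Pt A (perp L))
    (g : MvPolynomial ι ℂ) : sp x w (aeval (gu L) g) = aeval (fun i => x i ^ 2 * w i) g := by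
  rw [← AlgHom.comp_apply, comp_aeval]
  congr 2
  funext i
  exact sp_gu hx hw i

end spec

theorem gx_lin {l : ι → ℂ} (h : ∑ i, algebraMap ℂ (R ι) (l i) * gx L i = 0) : l ∈ perp L := by
  intro v hv
  have hv' : v ∈ Pt ℂ L := Pt_const (A := ℂ) hv
  have h2 := congrArg (sp v (0 : ι → ℂ)) h
  rw [map_sum, map_zero] at h2
  rw [← h2]
  refine Finset.sum_congr rfl fun i _ => ?_
  rw [map_mul, sp_gx hv', AlgHom.commutes, mul_comm]
  rfl

theorem gw_lin {l : ι → ℂ} (h : ∑ i, algebraMap ℂ (R ι) (l i) * gw L i = 0) : l ∈ L := by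
  rw [← perp_perp L]
  intro v hv
  have hv' : v ∈ Pt ℂ (perp L) := Pt_const (A := ℂ) hv
  have h2 := congrArg (sp (0 : ι → ℂ) v) h
  rw [map_sum, map_zero] at h2
  rw [← h2]
  refine Finset.sum_congr rfl fun i _ => ?_
  rw [map_mul, sp_gw hv', AlgHom.commutes, mul_comm]
  rfl

variable (L)

/-- the ideal of the polynomials vanishing at all `x² w` -/
noncomputable def J : Ideal (MvPolynomial ι ℂ) := RingHom.ker (aeval (gu L) : MvPolynomial ι ℂ →ₐ[ℂ] R ι)

variable {L}

theorem mem_J {g : MvPolynomial ι ℂ} : g ∈ J L ↔ aeval (gu L) g = 0 := Iff.rfl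

instance J_prime : (J L).IsPrime := RingHom.ker_isPrime _

theorem J_eval {A : Type} [CommRing A] [Algebra ℂ A] {x w : ι → A} (hx : x ∈ Pt A L)
    (hw : w ∈ Pt A (perp L)) {g : MvPolynomial ι ℂ} (hg : g ∈ J L) :
    aeval (fun i => x i ^ 2 * w i) g = 0 := by
  rw [← sp_aeval hx hw, mem_J.1 hg, map_zero]

end Generic

end Pool.Agent.H72R
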