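import Pool.Agent.H72R.Diff

/-!
`J L` determines `L`; points of `L × L^⊥` over generic points of the hypersurface.
-/

set_option autoImplicit false
set_option linter.unusedSectionVars false

open MvPolynomial

namespace Pool.Agent.H72R

section

variable {ι : Type} [Fintype ι] [DecidableEq ι] {L : Submodule ℂ (ι → ℂ)} {p : MvPolynomial ι ℂ}
  {N : ℕ}

theorem Hyp.pderiv_notMem_all (h : Hyp L p N) (hL : ∀ i, gx L i ≠ 0) (i : ι) :
    aeval (gu L) (pderiv i p) ≠ 0 := by
  obtain ⟨j, hj⟩ := h.pderiv_notMem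
  intro h0
  have h2 := h.bid i j
  rw [h0, mul_zero] at h2
  rcases mul_eq_zero.1 h2.symm with h3 | h3
  · exact hL j h3
  · exact hj (mem_J.2 h3)

/-- the polynomial `∑ l_i ∏_{j ≠ i} ∂_j p` -/
noncomputable def lamPol (p : MvPolynomial ι ℂ) (l : ι → ℂ) : MvPolynomial ι ℂ :=
  ∑ i, C (l i) * ∏ j ∈ Finset.univ.erase i, pderiv j p

theorem aeval_lamPol {A : Type} [CommRing A] [Algebra ℂ A] (u : ι → A) (l : ι → ℂ) :
    aeval u (lamPol p l) =
      ∑ i, algebraMap ℂ A (l i) * ∏ j ∈ Finset.univ.erase i, aeval u (pderiv j p) := by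
  unfold lamPol
  simp only [map_sum, map_mul, algHom_C, map_prod]

/-- if `x_i a_i = s` for all `i`, then `(∏ x) ∑ l_i ∏_{j ≠ i} a_j = s^(m-1) ∑ l_i x_i` -/
theorem prod_identity {A : Type} [CommRing A] (x a c : ι → A) (s : A) (h : ∀ i, x i * a i = s) :
    (∏ j, x j) * ∑ i, c i * ∏ j ∈ Finset.univ.erase i, a j =
      s ^ (Fintype.card ι - 1) * ∑ i, c i * x i := by
  rw [Finset.mul_sum, Finset.mul_sum]
  refine Finset.sum_congr rfl fun i _ => ?_
  rw [← Finset.mul_prod_erase Finset.univ x (Finset.mem_univ i)]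
  have h1 : (∏ j ∈ Finset.univ.erase i, x j) * ∏ j ∈ Finset.univ.erase i, a j =
      s ^ (Fintype.card ι - 1) := by
    rw [← Finset.prod_mul_distrib, Finset.prod_congr rfl fun j _ => h j, Finset.prod_const,
      Finset.card_erase_of_mem (Finset.mem_univ i), Finset.card_univ]
  rw [← h1]
  ring

theorem Hyp.perp_le {L' : Submodule ℂ (ι → ℂ)} {p' : MvPolynomial ι ℂ} {N' : ℕ} (h : Hyp L p N)
    (h' : Hyp L' p' N') (hL : ∀ i, gx L i ≠ 0) (hL' : ∀ i, gx L' i ≠ 0) (hJ : J L = J L') :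
    perp L' ≤ perp L := by
  intro l hl
  rcases isEmpty_or_nonempty ι with hι | ⟨⟨j₀⟩⟩
  · have : l = 0 := Subsingleton.elim _ _
    rw [this]
    exact (perp L).zero_mem
  -- the polynomial for p'
  have h1 : lamPol p' l ∈ J L' := by
    rw [mem_J, aeval_lamPol]
    have h2 := prod_identity (gx L') (fun j => aeval (gu L') (pderiv j p'))
      (fun i => algebraMap ℂ (R ι) (l i)) _ (fun i => h'.bid i j₀)
    rw [gx_mem L' l hl, mul_zero] at h2
    rcases mul_eq_zero.1 h2 with h3 | h3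
    · exfalso
      rw [Finset.prod_eq_zero_iff] at h3
      obtain ⟨i, _, hi⟩ := h3
      exact hL' i hi
    · exact h3
  rw [← hJ] at h1
  -- p' and p are associated
  have hass : Associated p' p := by
    rw [← Ideal.span_singleton_eq_span_singleton, ← h.gen, ← h'.gen, hJ]
  obtain ⟨c, hc⟩ := hass
  obtain ⟨c', hc'⟩ := (MvPolynomial.isUnit_iff_eq_C_of_isReduced.1 c.isUnit)
  rw [hc'.2] at hc
  have hbid : ∀ i, gx L i * aeval (gu L) (pderiv i p') =
      gx L j₀ * aeval (gu L) (pderiv j₀ p') := by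
    intro i
    have h2 := h.bid i j₀
    rw [← hc] at h2
    simp only [mul_comm p' _, pderiv_C_mul, map_mul, algHom_C] at h2
    have h3 : algebraMap ℂ (R ι) c' ≠ 0 := by
      intro h0
      have : c' ≠ 0 := hc'.1.ne_zero
      exact this ((FaithfulSMul.algebraMap_injective ℂ (R ι)) (by rw [h0, map_zero]))
    apply mul_left_cancel₀ h3
    linear_combination h2
  rw [mem_J, aeval_lamPol] at h1
  have h2 := prod_identity (gx L) (fun j => aeval (gu L) (pderiv j p'))
    (fun i => algebraMap ℂ (R ι) (l i)) _ hbid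
  rw [h1, mul_zero] at h2
  rcases mul_eq_zero.1 h2.symm with h3 | h3
  · exfalso
    have h5 : gx L j₀ * aeval (gu L) (pderiv j₀ p') = 0 := by
      by_contra h4
      exact pow_ne_zero _ h4 h3
    rcases mul_eq_zero.1 h5 with h6 | h6
    · exact hL j₀ h6
    · apply h.pderiv_notMem_all hL j₀
      rw [← hc, mul_comm, pderiv_C_mul, map_mul, h6, mul_zero]
  · exact gx_lin h3

/-- biduality: `J L` determines `L` -/
theorem Hyp.eq_of_J {L' : Submodule ℂ (ι → ℂ)} {p' : MvPolynomial ι ℂ} {N' : ℕ} (h : Hyp L p N)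
    (h' : Hyp L' p' N') (hL : ∀ i, gx L i ≠ 0) (hL' : ∀ i, gx L' i ≠ 0) (hJ : J L = J L') :
    L = L' := by
  have h1 : perp L = perp L' :=
    le_antisymm (h'.perp_le h hL' hL hJ.symm) (h.perp_le h' hL hL' hJ)
  rw [← perp_perp L, h1, perp_perp]

/-- the point of `L × L^⊥` over a generic point of the hypersurface -/
theorem Hyp.point (h : Hyp L p N) (hL : ∀ i, gx L i ≠ 0) {K : Type} [Field K] [Algebra ℂ K]
    {u : ι → K} (hu : ∀ g : MvPolynomial ι ℂ, aeval u g = 0 ↔ p ∣ g) :
    (∀ i, aeval u (pderiv i p) ≠ 0) ∧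
    (fun i => (aeval u (pderiv i p))⁻¹) ∈ Pt K L ∧
      (fun i => u i * aeval u (pderiv i p) ^ 2) ∈ Pt K (perp L) := by
  have hne : ∀ i, aeval u (pderiv i p) ≠ 0 := by
    intro i h0
    exact h.pderiv_notMem_all hL i (mem_J.1 (h.mem_iff.2 ((hu _).1 h0)))
  refine ⟨hne, ?_, ?_⟩
  · intro l hl
    rcases isEmpty_or_nonempty ι with hι | ⟨⟨j₀⟩⟩
    · simp
    have h1 : lamPol p l ∈ J L := by
      rw [mem_J, aeval_lamPol]
      have h2 := prod_identity (gx L) (fun j => aeval (gu L) (pderiv j p))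
        (fun i => algebraMap ℂ (R ι) (l i)) _ (fun i => h.bid i j₀)
      rw [gx_mem L l hl, mul_zero] at h2
      rcases mul_eq_zero.1 h2 with h3 | h3
      · exfalso
        rw [Finset.prod_eq_zero_iff] at h3
        obtain ⟨i, _, hi⟩ := h3
        exact hL i hi
      · exact h3
    have h2 := (hu _).2 (h.mem_iff.1 h1)
    rw [aeval_lamPol] at h2
    have h3 := prod_identity (fun j => (aeval u (pderiv j p))⁻¹) (fun j => aeval u (pderiv j p))
      (fun i => algebraMap ℂ K (l i)) 1 (fun i => inv_mul_cancel₀ (hne i))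
    rw [h2, mul_zero, one_pow, one_mul] at h3
    exact h3.symm
  · rw [mem_Pt_perp]
    intro v hv
    rcases isEmpty_or_nonempty ι with hι | ⟨⟨j₀⟩⟩
    · simp
    have h1 : (∑ i, C (v i) * (X i * pderiv i p ^ 2) : MvPolynomial ι ℂ) ∈ J L := by
      rw [mem_J]
      simp only [map_sum, map_mul, map_pow, aeval_X, algHom_C]
      have h4 : ∑ i, algebraMap ℂ (R ι) (v i) * (gu L i * aeval (gu L) (pderiv i p) ^ 2) =
          (∑ i, algebraMap ℂ (R ι) (v i) * gw L i) *
            (gx L j₀ * aeval (gu L) (pderiv j₀ p)) ^ 2 := by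
        rw [Finset.sum_mul]
        refine Finset.sum_congr rfl fun i _ => ?_
        rw [← h.bid i j₀]
        unfold gu
        ring
      rw [h4, mem_Pt_perp.1 (gw_mem L) v hv, zero_mul]
    have h2 := (hu _).2 (h.mem_iff.1 h1)
    simp only [map_sum, map_mul, map_pow, aeval_X, algHom_C] at h2
    exact h2

end

end Pool.Agent.H72R
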