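import Pool.Agent.H72R.NoInt

/-!
Cuts of the coordinates by valuations; all `x_i`, `i ≠ 0`, have the same valuation.
-/

set_option autoImplicit false
set_option linter.unusedSectionVars false

open MvPolynomial

namespace Pool.Agent.H72R

section sigma

variable {ι : Type} [Fintype ι]

open Classical in
/-- restriction to `S` -/
noncomputable def rstL (S : Set ι) : (ι → ℂ) →ₗ[ℂ] (ι → ℂ) where
  toFun v := fun i => if i ∈ S then v i else 0
  map_add' := by
    intro a b
    funext i
    simp only [Pi.add_apply]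
    split_ifs <;> simp
  map_smul' := by
    intro c a
    funext i
    simp only [Pi.smul_apply, smul_eq_mul, RingHom.id_apply]
    split_ifs <;> simp

open Classical in
theorem rstL_of_mem {S : Set ι} {i : ι} (h : i ∈ S) (v : ι → ℂ) : rstL S v i = v i := by
  show (if i ∈ S then v i else 0) = v i
  rw [if_pos h]

open Classical in
theorem rstL_of_notMem {S : Set ι} {i : ι} (h : i ∉ S) (v : ι → ℂ) : rstL S v i = 0 := by
  show (if i ∈ S then v i else 0) = 0
  rw [if_neg h]

theorem exists_sigma (L : Submodule ℂ (ι → ℂ)) (S : Set ι) :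
    ∃ σ : (ι → ℂ) →ₗ[ℂ] (ι → ℂ), (∀ v, σ v ∈ L) ∧ (∀ v ∈ L, ∀ i ∈ S, σ v i = v i) ∧
      ∀ v, (∀ i ∈ S, v i = 0) → σ v = 0 := by
  let π : L →ₗ[ℂ] (ι → ℂ) := rstL S ∘ₗ L.subtype
  obtain ⟨s, hs⟩ := LinearMap.exists_rightInverse_of_surjective π.rangeRestrict
    (LinearMap.range_rangeRestrict π)
  obtain ⟨q, hq⟩ := LinearMap.exists_leftInverse_of_injective (LinearMap.range π).subtype
    (Submodule.ker_subtype _)
  refine ⟨L.subtype ∘ₗ s ∘ₗ q ∘ₗ rstL S, fun v => (s (q (rstL S v))).2, ?_, ?_⟩
  · intro v hv i hi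
    have h1 : rstL S v = π ⟨v, hv⟩ := rfl
    have h2 : q (π ⟨v, hv⟩) = π.rangeRestrict ⟨v, hv⟩ := by
      have := LinearMap.congr_fun hq (π.rangeRestrict ⟨v, hv⟩)
      exact this
    have h3 : π (s (π.rangeRestrict ⟨v, hv⟩)) = π ⟨v, hv⟩ := by
      have := LinearMap.congr_fun hs (π.rangeRestrict ⟨v, hv⟩)
      exact congrArg Subtype.val this
    have h4 := congrFun h3 i
    show (s (q (rstL S v)) : ι → ℂ) i = v i
    rw [h1, h2]
    have h5 : π (s (π.rangeRestrict ⟨v, hv⟩)) i = (s (π.rangeRestrict ⟨v, hv⟩) : ι → ℂ) i :=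
      rstL_of_mem hi _
    have h6 : π ⟨v, hv⟩ i = v i := rstL_of_mem hi _
    rw [← h5, h4, h6]
  · intro v hv
    have : rstL S v = 0 := by
      funext i
      by_cases hi : i ∈ S
      · rw [rstL_of_mem hi, hv i hi]
        rfl
      · rw [rstL_of_notMem hi]
        rfl
    show (s (q (rstL S v)) : ι → ℂ) = 0
    rw [this, map_zero, map_zero]
    rfl

variable [DecidableEq ι] {A : Type} [CommRing A] [Algebra ℂ A]

theorem ext_eq_at {L : Submodule ℂ (ι → ℂ)} (p : (ι → ℂ) →ₗ[ℂ] (ι → ℂ)) {i : ι}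
    (hp : ∀ v ∈ L, p v i = v i) {x : ι → A} (hx : x ∈ Pt A L) : ext p x i = x i := by
  let l : ι → ℂ := fun j => (if j = i then 1 else 0) - p (Pi.single j 1) i
  have hl : l ∈ perp L := by
    intro v hv
    have h1 := apply_eq p v i
    rw [hp v hv] at h1
    simp only [l, mul_sub, Finset.sum_sub_distrib, mul_ite, mul_one, mul_zero,
      Finset.sum_ite_eq', Finset.mem_univ, if_true]
    rw [sub_eq_zero, h1]
    exact Finset.sum_congr rfl fun j _ => mul_comm _ _
  have h2 := hx l hl
  simp only [l, map_sub, sub_mul, Finset.sum_sub_distrib] at h2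
  have h3 : ∑ j, algebraMap ℂ A (if j = i then 1 else 0) * x j = x i := by
    rw [Finset.sum_eq_single i]
    · simp
    · intro j _ hj
      simp [hj]
    · simp
  rw [h3, sub_eq_zero] at h2
  exact h2.symm

end sigma

section cut

variable {ι : Type} [Fintype ι] [DecidableEq ι] {L : Submodule ℂ (ι → ℂ)} {K k : Type} [Field K]
  [Algebra ℂ K] [Field k] [Algebra ℂ k] {V : ValuationSubring K} {φ : V →+* k}

/-- the outcome of a cut: a point with the same reductions on `S` and zero off `S` -/
def CutOut (φ : V →+* k) (u : ι → K) (S : Set ι) : Prop :=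
  ∃ (M : Submodule ℂ (ι → ℂ)) (x w : ι → K), x ∈ Pt K M ∧ w ∈ Pt K (perp M) ∧
    (∀ i, i ∉ S → x i ^ 2 * w i = 0) ∧ ∀ i ∈ S, x i ^ 2 * w i ∈ V ∧ rs φ (x i ^ 2 * w i) = rs φ (u i)

theorem cut_small (hp : IsPl V φ) {x w : ι → K} (hx : x ∈ Pt K L) (hw : w ∈ Pt K (perp L))
    (hu : ∀ i, x i ^ 2 * w i ∈ V) (F : Set ι)
    (hF : ∀ i ∈ F, ∀ g, g ∉ F → V.valuation (x i) < V.valuation (x g)) :
    CutOut φ (fun i => x i ^ 2 * w i) F := by
  classical
  obtain ⟨σ, hσ1, hσ2, hσ3⟩ := exists_sigma (perp L) Fᶜ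
  let M : Submodule ℂ (ι → ℂ) := L.map (rstL F)
  let x' : ι → K := fun i => if i ∈ F then x i else 0
  let w' : ι → K := w - ext σ w
  have hw'0 : ∀ i, i ∉ F → w' i = 0 := by
    intro i hi
    have := ext_eq_at σ (i := i) (fun v hv => hσ2 v hv i hi) hw
    simp only [w', Pi.sub_apply, this, sub_self]
  have hw'L : w' ∈ Pt K (perp L) := (Pt K (perp L)).sub_mem hw (ext_mem σ hσ1 w)
  refine ⟨M, x', w', ?_, ?_, ?_, ?_⟩
  · intro l hl
    have h1 : rstL F l ∈ perp L := by
      intro v hv
      have h2 := hl (rstL F v) ⟨v, hv, rfl⟩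
      rw [← h2]
      refine Finset.sum_congr rfl fun i _ => ?_
      by_cases hi : i ∈ F
      · rw [rstL_of_mem hi, rstL_of_mem hi]
      · rw [rstL_of_notMem hi, rstL_of_notMem hi]
        simp
    have h2 := hx _ h1
    rw [← h2]
    refine Finset.sum_congr rfl fun i _ => ?_
    by_cases hi : i ∈ F
    · rw [rstL_of_mem hi]
      simp [x', hi]
    · rw [rstL_of_notMem hi]
      simp [x', hi]
  · rw [mem_Pt_perp]
    rintro _ ⟨v, hv, rfl⟩
    have h1 := mem_Pt_perp.1 hw'L v hv
    rw [← h1]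
    refine Finset.sum_congr rfl fun i _ => ?_
    by_cases hi : i ∈ F
    · rw [rstL_of_mem hi]
    · rw [hw'0 i hi, mul_zero, mul_zero]
  · intro i hi
    simp [x', hi]
  · intro i hi
    have h1 : x' i ^ 2 * w' i = x i ^ 2 * w i - x i ^ 2 * ext σ w i := by
      simp only [x', hi, if_true, w', Pi.sub_apply]
      ring
    have h2 : V.valuation (x i ^ 2 * ext σ w i) < 1 := by
      unfold ext
      rw [Finset.mul_sum]
      apply Valuation.map_sum_lt _ one_ne_zero
      intro j _
      by_cases hj : j ∈ F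
      · have : σ (Pi.single j 1) = 0 := hσ3 _ (by
          intro l hl
          have : l ≠ j := fun h => hl (h ▸ hj)
          simp [this])
        rw [this]
        simp
      · rw [map_mul, map_mul, map_pow]
        rcases eq_or_ne (w j) 0 with hwj | hwj
        · rw [hwj, map_zero, mul_zero, mul_zero]
          exact zero_lt_one
        · have h3 : V.valuation (w j) ≠ 0 := (V.valuation.ne_zero_iff).2 hwj
          have h4 := (V.valuation_le_one_iff _).2 (hu j)
          rw [map_mul, map_pow] at h4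
          calc V.valuation (x i) ^ 2 * (V.valuation (algebraMap ℂ K (σ (Pi.single j 1) i)) *
                V.valuation (w j)) ≤ V.valuation (x i) ^ 2 * (1 * V.valuation (w j)) := by
                gcongr
                exact val_const_le V hp.const _
            _ = V.valuation (x i) ^ 2 * V.valuation (w j) := by rw [one_mul]
            _ < V.valuation (x j) ^ 2 * V.valuation (w j) := by
                apply mul_lt_mul_of_pos_right _ (pos_iff_ne_zero.2 h3)
                exact pow_lt_pow_left₀ (hF i hi j hj) zero_le two_ne_zero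
            _ ≤ 1 := h4
    rw [h1]
    refine ⟨sub_mem (hu i) (mem_of_lt h2), ?_⟩
    rw [rs_sub (hu i) (mem_of_lt h2), (hp.rs_eq_zero (mem_of_lt h2)).2 h2, sub_zero]

theorem cut_large (hp : IsPl V φ) {x w : ι → K} (hx : x ∈ Pt K L) (hw : w ∈ Pt K (perp L))
    (hx0 : ∀ i, x i ≠ 0) (hu : ∀ i, x i ^ 2 * w i ∈ V) (G : Set ι)
    (hG : ∀ g ∈ G, ∀ i, i ∉ G → V.valuation (x i) < V.valuation (x g)) :
    CutOut φ (fun i => x i ^ 2 * w i) G := by
  classical
  obtain ⟨σ, hσ1, hσ2, hσ3⟩ := exists_sigma L Gᶜ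
  let M : Submodule ℂ (ι → ℂ) := L ⊓ supp G
  let x' : ι → K := x - ext σ x
  have hx'0 : ∀ i, i ∉ G → x' i = 0 := by
    intro i hi
    have := ext_eq_at σ (i := i) (fun v hv => hσ2 v hv i hi) hx
    simp only [x', Pi.sub_apply, this, sub_self]
  have hx'L : x' ∈ Pt K L := (Pt K L).sub_mem hx (ext_mem σ hσ1 x)
  refine ⟨M, x', w, ?_, ?_, ?_, ?_⟩
  · intro l hl
    simp only [M] at hl
    rw [perp_inf, perp_supp] at hl
    obtain ⟨a, ha, b, hb, rfl⟩ := Submodule.mem_sup.1 hl
    have h1 := hx'L a ha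
    simp only [Pi.add_apply, map_add, add_mul, Finset.sum_add_distrib]
    rw [h1, zero_add]
    refine Finset.sum_eq_zero fun i _ => ?_
    by_cases hi : i ∈ G
    · rw [hb i (by simpa using hi), map_zero, zero_mul]
    · rw [hx'0 i hi, mul_zero]
  · rw [mem_Pt_perp]
    rintro v ⟨hv, -⟩
    exact mem_Pt_perp.1 hw v hv
  · intro i hi
    rw [hx'0 i hi]
    simp
  · intro i hi
    have h2 : V.valuation (ext σ x i / x i) < 1 := by
      rw [map_div₀, div_lt_one₀ (pos_iff_ne_zero.2 ((V.valuation.ne_zero_iff).2 (hx0 i)))]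
      unfold ext
      apply Valuation.map_sum_lt _ ((V.valuation.ne_zero_iff).2 (hx0 i))
      intro j _
      by_cases hj : j ∈ G
      · have : σ (Pi.single j 1) = 0 := hσ3 _ (by
          intro l hl
          have : l ≠ j := fun h => hl (h ▸ hj)
          simp [this])
        rw [this]
        simp only [Pi.zero_apply, map_zero, zero_mul]
        exact pos_iff_ne_zero.2 ((V.valuation.ne_zero_iff).2 (hx0 i))
      · rw [map_mul]
        calc V.valuation (algebraMap ℂ K (σ (Pi.single j 1) i)) * V.valuation (x j)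
            ≤ 1 * V.valuation (x j) := by
              gcongr
              exact val_const_le V hp.const _
          _ = V.valuation (x j) := one_mul _
          _ < V.valuation (x i) := hG i hi j hj
    have h1 : x' i ^ 2 * w i = x i ^ 2 * w i * (1 - ext σ x i / x i) ^ 2 := by
      have := hx0 i
      simp only [x', Pi.sub_apply]
      field_simp
    have h3 : (1 - ext σ x i / x i) ∈ V := sub_mem V.one_mem (mem_of_lt h2)
    rw [h1]
    refine ⟨V.mul_mem _ _ (hu i) (pow_mem h3 2), ?_⟩
    rw [rs_mul (hu i) (pow_mem h3 2), rs_pow h3, rs_sub V.one_mem (mem_of_lt h2), rs_one,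
      (hp.rs_eq_zero (mem_of_lt h2)).2 h2, sub_zero, one_pow, mul_one]

end cut

section levels

variable {n : ℕ} {L : Submodule ℂ (Fin (n + 1) → ℂ)} {K k : Type} [Field K]
  [Algebra ℂ K] [Field k] [Algebra ℂ k] {V : ValuationSubring K} {φ : V →+* k}

theorem no_cut (hp : IsPl V φ) {u : Fin (n + 1) → K} (hu0 : rs φ (u 0) = 0)
    {p : MvPolynomial (Fin n) ℂ} (hg : Gen p fun i : Fin n => rs φ (u i.succ)) {j i : Fin n}
    (hj : 0 < degreeOf j p) (hij : i ≠ j) {S : Set (Fin (n + 1))} (hjS : j.succ ∉ S)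
    (hiS : i.succ ∈ S) (h : CutOut φ u S) : False := by
  classical
  obtain ⟨M, x, w, hx, hw, h1, h2⟩ := h
  have hV : ∀ l, x l ^ 2 * w l ∈ V := by
    intro l
    by_cases hl : l ∈ S
    · exact (h2 l hl).1
    · rw [h1 l hl]
      exact V.zero_mem
  let y : Fin (n + 1) → K := fun l => if l = i.succ then 0 else x l ^ 2 * w l
  have hyV : ∀ l, y l ∈ V := by
    intro l
    simp only [y]
    split_ifs
    · exact V.zero_mem
    · exact hV l
  have h3 := integral hx hw i.succ y (by
    intro l hl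
    refine ⟨X l, ?_⟩
    show aeval y (X l) = _
    rw [aeval_X]
    simp only [y, hl, if_false])
  have h4 := hp.int_red hyV (hV _) h3
  rw [(h2 _ hiS).2] at h4
  let T : Set (Fin n) := {l | l.succ ∈ S ∧ l ≠ i}
  apply noInt (T := T) hj hij (fun h => hjS h.1) (fun h => h.2 rfl) hg
  apply int_trans _ h4
  intro l
  refine Fin.cases ?_ (fun l => ?_) l
  · have : rs φ (y 0) = 0 := by
      simp only [y]
      split_ifs with h5
      · exact rs_zero
      · by_cases h6 : (0 : Fin (n + 1)) ∈ S
        · rw [(h2 _ h6).2, hu0]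
        · rw [h1 _ h6, rs_zero]
    rw [this]
    exact Subalgebra.zero_mem _
  · by_cases hl : l ∈ T
    · have h5 : y l.succ = x l.succ ^ 2 * w l.succ := by
        have : l.succ ≠ i.succ := fun h => hl.2 (Fin.succ_injective _ h)
        simp only [y, this, if_false]
      rw [h5, (h2 _ hl.1).2]
      refine ⟨X l, ?_⟩
      show aeval _ (X l) = _
      rw [aeval_X]
      simp only [rt, hl, if_true]
    · have h5 : rs φ (y l.succ) = 0 := by
        by_cases h6 : l = i
        · simp only [y, h6, if_true]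
          exact rs_zero
        · have h7 : l.succ ∉ S := fun h => hl ⟨h, h6⟩
          have : l.succ ≠ i.succ := fun h => h6 (Fin.succ_injective _ h)
          simp only [y, this, if_false]
          rw [h1 _ h7, rs_zero]
      rw [h5]
      exact Subalgebra.zero_mem _

/-- all `x_i`, `i ≠ 0`, have the same valuation -/
theorem levels (hp : IsPl V φ) {x w : Fin (n + 1) → K} (hx : x ∈ Pt K L) (hw : w ∈ Pt K (perp L))
    (hx0 : ∀ i, x i ≠ 0) (hu : ∀ i, x i ^ 2 * w i ∈ V) (hu0 : rs φ (x 0 ^ 2 * w 0) = 0)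
    {p : MvPolynomial (Fin n) ℂ} (hpi : Irreducible p)
    (hg : Gen p fun i : Fin n => rs φ (x i.succ ^ 2 * w i.succ)) (i j : Fin n) :
    V.valuation (x i.succ) = V.valuation (x j.succ) := by
  obtain ⟨j₀, hj₀⟩ := exists_degreeOf_pos hpi
  have key : ∀ i : Fin n, V.valuation (x i.succ) = V.valuation (x j₀.succ) := by
    intro i
    by_contra hne
    have hij : i ≠ j₀ := fun h => hne (by rw [h])
    rcases lt_or_gt_of_ne hne with h | h
    · have hc : CutOut φ (fun i => x i ^ 2 * w i) {l | V.valuation (x l) ≤ V.valuation (x i.succ)} := by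
        apply cut_small hp hx hw hu
        intro a ha b hb
        rw [Set.mem_ofPred_eq] at ha hb
        exact lt_of_le_of_lt ha (not_le.1 hb)
      refine no_cut (u := fun i => x i ^ 2 * w i) hp hu0 hg hj₀ hij ?_ ?_ hc
      · rw [Set.mem_ofPred_eq]
        exact not_le.2 h
      · rw [Set.mem_ofPred_eq]
    · have hc : CutOut φ (fun i => x i ^ 2 * w i) {l | V.valuation (x j₀.succ) < V.valuation (x l)} := by
        apply cut_large hp hx hw hx0 hu
        intro a ha b hb
        rw [Set.mem_ofPred_eq] at ha hb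
        exact lt_of_le_of_lt (not_lt.1 hb) ha
      refine no_cut (u := fun i => x i ^ 2 * w i) hp hu0 hg hj₀ hij ?_ ?_ hc
      · rw [Set.mem_ofPred_eq]
        exact lt_irrefl _
      · rw [Set.mem_ofPred_eq]
        exact h
  rw [key i, key j]

end levels

end Pool.Agent.H72R
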