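import Pool.Agent.H72R.Delta

/-!
Degrees: the generator `D` of `J L` and its constant term with respect to `u_0`.
-/

set_option autoImplicit false
set_option linter.unusedSectionVars false

open MvPolynomial

namespace Pool.Agent.H72R

section

variable {n : ℕ} {L : Submodule ℂ (Fin (n + 1) → ℂ)}

/-- the constant term with respect to `u_0` -/
noncomputable def c0 (D : MvPolynomial (Fin (n + 1)) ℂ) : MvPolynomial (Fin n) ℂ :=
  (finSuccEquiv ℂ n D).coeff 0

theorem aeval_cons_zero {A : Type} [CommRing A] [Algebra ℂ A] (u : Fin (n + 1) → A) (h0 : u 0 = 0)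
    (D : MvPolynomial (Fin (n + 1)) ℂ) : aeval u D = aeval (fun i : Fin n => u i.succ) (c0 D) := by
  rw [eval_finSucc, h0, Polynomial.eval₂_at_zero]
  rfl

theorem monic_natDegree {D : MvPolynomial (Fin (n + 1)) ℂ} {N : ℕ} (hD : D.IsHomogeneous N)
    (hm : (finSuccEquiv ℂ n D).Monic) : (finSuccEquiv ℂ n D).natDegree = N := by
  have h0 : D ≠ 0 := by
    rintro rfl
    rw [map_zero] at hm
    exact hm.ne_zero rfl
  have h1 : (finSuccEquiv ℂ n D).natDegree ≤ N := by
    rw [natDegree_finSuccEquiv, ← hD.totalDegree h0]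
    exact degreeOf_le_totalDegree D 0
  have h2 := hD.finSuccEquiv_coeff_isHomogeneous (finSuccEquiv ℂ n D).natDegree
    (N - (finSuccEquiv ℂ n D).natDegree) (by omega)
  rw [hm.coeff_natDegree] at h2
  have h3 := h2.totalDegree one_ne_zero
  rw [totalDegree_one] at h3
  omega

theorem c0_hom {D : MvPolynomial (Fin (n + 1)) ℂ} {N : ℕ} (hD : D.IsHomogeneous N) :
    (c0 D).IsHomogeneous N := hD.finSuccEquiv_coeff_isHomogeneous 0 N (by omega)

theorem gw_ne_zero (hL : NLC L) : gw L 0 ≠ 0 := by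
  intro h0
  obtain ⟨l, hl, hl0⟩ := hL.l
  have h1 : (Pi.single 0 1 : Fin (n + 1) → ℂ) ∈ L := by
    apply gw_lin
    rw [Finset.sum_eq_single 0]
    · simp [h0]
    · intro j _ hj
      simp [hj]
    · simp
  have h2 := hl _ h1
  rw [Finset.sum_eq_single 0] at h2
  · simp [hl0] at h2
  · intro j _ hj
    simp [hj]
  · simp

theorem c0_ne_zero (hL : NLC L) (hNL : NoLoop L) {D : MvPolynomial (Fin (n + 1)) ℂ}
    (hirr : Irreducible D) (hJ : D ∈ J L) : c0 D ≠ 0 := by
  intro h0
  have h1 : Polynomial.X ∣ finSuccEquiv ℂ n D := Polynomial.X_dvd_iff.2 h0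
  rw [← finSuccEquiv_X_zero, map_dvd_iff (finSuccEquiv ℂ n)] at h1
  have hX : Irreducible (X 0 : MvPolynomial (Fin (n + 1)) ℂ) := by
    rw [← MulEquiv.irreducible_iff (finSuccEquiv ℂ n), finSuccEquiv_X_zero]
    exact Polynomial.irreducible_X
  have h2 : Associated (X 0) D := hX.associated_of_dvd hirr h1
  obtain ⟨q, hq⟩ := h2.symm.dvd
  have h3 : (X 0 : MvPolynomial (Fin (n + 1)) ℂ) ∈ J L := by
    rw [hq]
    exact Ideal.mul_mem_right _ _ hJ
  rw [mem_J, aeval_X] at h3
  unfold gu at h3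
  rcases mul_eq_zero.1 h3 with h4 | h4
  · exact hNL 0 (pow_eq_zero_iff two_ne_zero |>.1 h4)
  · exact gw_ne_zero hL h4

theorem c0_mem_del (hL : NLC L) {D : MvPolynomial (Fin (n + 1)) ℂ} (hJ : D ∈ J L) :
    c0 D ∈ J (del L) := by
  obtain ⟨l, hl, hl0⟩ := hL.l
  let x : Fin (n + 1) → R (Fin n) :=
    Fin.cons (-∑ i : Fin n, algebraMap ℂ (R (Fin n)) (l i.succ) * gx (del L) i) (gx (del L))
  let w : Fin (n + 1) → R (Fin n) := Fin.cons 0 (gw (del L))
  have hxL : x ∈ Pt (R (Fin n)) L := lift_del hl hl0 (gx_mem (del L))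
  have hwL : w ∈ Pt (R (Fin n)) (perp L) := by
    have h1 := gw_mem (del L)
    rw [perp_del] at h1
    exact Pt_con.1 h1
  have h1 := J_eval hxL hwL hJ
  rw [aeval_cons_zero _ (by simp [w])] at h1
  exact h1

theorem c0_mem_con (hL : NLC L) {D : MvPolynomial (Fin (n + 1)) ℂ} (hJ : D ∈ J L) :
    c0 D ∈ J (con L) := by
  obtain ⟨v, hv, hv0⟩ := hL.v
  let x : Fin (n + 1) → R (Fin n) := Fin.cons 0 (gx (con L))
  let w : Fin (n + 1) → R (Fin n) :=
    Fin.cons (-∑ i : Fin n, algebraMap ℂ (R (Fin n)) (v i.succ) * gw (con L) i) (gw (con L))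
  have hxL : x ∈ Pt (R (Fin n)) L := Pt_con.1 (gx_mem (con L))
  have hwL : w ∈ Pt (R (Fin n)) (perp L) := by
    have h1 := gw_mem (con L)
    rw [perp_con] at h1
    exact lift_del (L := perp L) (l := v) (by rwa [perp_perp]) hv0 h1
  have h1 := J_eval hxL hwL hJ
  rw [aeval_cons_zero _ (by simp [x])] at h1
  exact h1

theorem finSucc_pderiv (g : MvPolynomial (Fin (n + 1)) ℂ) :
    finSuccEquiv ℂ n (pderiv 0 g) = Polynomial.derivative (finSuccEquiv ℂ n g) := by
  induction g using MvPolynomial.induction_on with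
  | C c =>
    have h1 : finSuccEquiv ℂ n (C c) = Polynomial.C (C c) := by
      have := (finSuccEquiv ℂ n).commutes c
      rw [algebraMap_eq] at this
      rw [this]
      rfl
    rw [pderiv_C, map_zero, h1, Polynomial.derivative_C]
  | add p q hp hq => rw [map_add, map_add, map_add, Polynomial.derivative_add, hp, hq]
  | mul_X p j hp =>
    rw [pderiv_mul, map_add, map_mul, map_mul, map_mul, hp, Polynomial.derivative_mul, pderiv_X]
    refine Fin.cases ?_ (fun i => ?_) j
    · rw [finSuccEquiv_X_zero, Polynomial.derivative_X, Pi.single_eq_same, map_one]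
    · rw [finSuccEquiv_X_succ, Polynomial.derivative_C, Pi.single_eq_of_ne (Fin.succ_ne_zero i), map_zero]

end

section roots

variable {n : ℕ}

/-- a root of an irreducible monic polynomial gives a generic point -/
theorem root_dvd {K : Type} [Field K] [Algebra ℂ K] (e : MvPolynomial (Fin n) ℂ →ₐ[ℂ] K)
    (he : Function.Injective e) {D : MvPolynomial (Fin (n + 1)) ℂ} (hirr : Irreducible D)
    (hm : (finSuccEquiv ℂ n D).Monic) {a : K}
    (ha : Polynomial.eval₂ (e : MvPolynomial (Fin n) ℂ →+* K) a (finSuccEquiv ℂ n D) = 0)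
    (g : MvPolynomial (Fin (n + 1)) ℂ) :
    aeval (Fin.cons a fun i => e (X i) : Fin (n + 1) → K) g = 0 ↔ D ∣ g := by
  have he' : (aeval fun i : Fin n => e (X i) : MvPolynomial (Fin n) ℂ →ₐ[ℂ] K) = e := by
    apply MvPolynomial.algHom_ext
    intro i
    rw [aeval_X]
  let alg : Algebra (MvPolynomial (Fin n) ℂ) K := (e : MvPolynomial (Fin n) ℂ →+* K).toAlgebra
  have htf : Module.IsTorsionFree (MvPolynomial (Fin n) ℂ) K := by
    have : FaithfulSMul (MvPolynomial (Fin n) ℂ) K := (faithfulSMul_iff_algebraMap_injective _ _).2 he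
    infer_instance
  have hint : IsIntegral (MvPolynomial (Fin n) ℂ) a := ⟨_, hm, ha⟩
  have hev : ∀ g : MvPolynomial (Fin (n + 1)) ℂ,
      aeval (Fin.cons a fun i => e (X i) : Fin (n + 1) → K) g =
        Polynomial.aeval a (finSuccEquiv ℂ n g) := by
    intro g
    rw [eval_finSucc]
    simp only [Fin.cons_zero, Fin.cons_succ]
    rw [he']
    rfl
  have h1 : minpoly (MvPolynomial (Fin n) ℂ) a ∣ finSuccEquiv ℂ n D := by
    rw [← minpoly.isIntegrallyClosed_dvd_iff hint]
    exact ha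
  have h2 : Irreducible (finSuccEquiv ℂ n D) := (MulEquiv.irreducible_iff (finSuccEquiv ℂ n)).2 hirr
  have h3 : Associated (minpoly (MvPolynomial (Fin n) ℂ) a) (finSuccEquiv ℂ n D) :=
    (minpoly.prime_of_isIntegrallyClosed hint).irreducible.associated_of_dvd h2 h1
  rw [hev, minpoly.isIntegrallyClosed_dvd_iff hint, h3.dvd_iff_dvd_left]
  exact map_dvd_iff (finSuccEquiv ℂ n)

theorem val_coeff_zero {K : Type} [Field K] [IsAlgClosed K] (V : ValuationSubring K)
    {Q : Polynomial K} (hQ : Q.Monic) (h : ∀ b, Q.IsRoot b → V.valuation b = 1) :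
    V.valuation (Q.coeff 0) = 1 := by
  rw [(IsAlgClosed.splits Q).coeff_zero_eq_prod_roots_of_monic hQ, map_mul, map_pow,
    Valuation.map_neg, map_one, one_pow, one_mul, map_multiset_prod]
  apply Multiset.prod_eq_one
  intro c hc
  obtain ⟨b, hb, rfl⟩ := Multiset.mem_map.1 hc
  exact h b ((Polynomial.mem_roots'.1 hb).2)

end roots

end Pool.Agent.H72R
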