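import Pool.Agent.H72R.Key

/-!
The recursion for the degrees.
-/

set_option autoImplicit false
set_option linter.unusedSectionVars false

open MvPolynomial

namespace Pool.Agent.H72R

section

variable {n : ℕ} {L : Submodule ℂ (Fin (n + 1) → ℂ)} {D : MvPolynomial (Fin (n + 1)) ℂ} {N : ℕ}

theorem assoc_of_hyp {m : ℕ} {M : Submodule ℂ (Fin m → ℂ)} {p q : MvPolynomial (Fin m) ℂ} {N₁ N₂ : ℕ}
    (h1 : Hyp M p N₁) (h2 : Hyp M q N₂) : Associated p q := by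
  rw [← Ideal.span_singleton_eq_span_singleton, ← h1.gen, ← h2.gen]

theorem not_both (hL : NLC L) (hNL : NoLoop L) {p q : MvPolynomial (Fin n) ℂ} {N₁ N₂ : ℕ}
    (h1 : Hyp (del L) p N₁) (h2 : Hyp (con L) q N₂) (h3 : NoLoop (con L)) : ¬ Associated p q := by
  intro h
  apply del_ne_con hL
  refine h1.eq_of_J h2 (noLoop_del hNL) h3 ?_
  rw [h1.gen, h2.gen, Ideal.span_singleton_eq_span_singleton]
  exact h

theorem unit_degree {C : MvPolynomial (Fin n) ℂ} (hC : IsUnit C) : C.totalDegree = 0 := by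
  obtain ⟨c, -, hc⟩ := MvPolynomial.isUnit_iff_eq_C_of_isReduced.1 hC
  rw [hc, totalDegree_C]

theorem unit_of_no_factor {C : MvPolynomial (Fin n) ℂ} (hC0 : C ≠ 0)
    (h : ∀ q : MvPolynomial (Fin n) ℂ, Irreducible q → ¬ q ∣ C) : IsUnit C := by
  by_contra hu
  obtain ⟨q, hq, hqC⟩ := WfDvdMonoid.exists_irreducible_factor hu hC0
  exact h q hq hqC

theorem hyp_degree {m : ℕ} {M : Submodule ℂ (Fin m → ℂ)} {p : MvPolynomial (Fin m) ℂ} {N : ℕ}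
    (h : Hyp M p N) : p.totalDegree = N := h.hom.totalDegree h.irr.ne_zero

theorem c0_degree (hL : NLC L) (hNL : NoLoop L) (hD : Hyp L D N) : (c0 D).totalDegree = N :=
  (c0_hom hD.hom).totalDegree (c0_ne_zero hL hNL hD.irr (hD.mem_iff.2 dvd_rfl))

theorem not_unit_c0 (hL : NLC L) (hNL : NoLoop L) (hD : Hyp L D N) : ¬ IsUnit (c0 D) := by
  intro h
  have h1 := unit_degree h
  rw [c0_degree hL hNL hD] at h1
  have := hD.pos
  omega

theorem deg_both (hL : NLC L) (hNL : NoLoop L) (hD : Hyp L D N) (hm : (finSuccEquiv ℂ n D).Monic)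
    (ih : IHyp n) (f : Fin n) {p₁ p₂ : MvPolynomial (Fin n) ℂ} {N₁ N₂ : ℕ} (h1 : Hyp (del L) p₁ N₁)
    (h2 : Hyp (con L) p₂ N₂) (h3 : NoLoop (con L)) : N = N₁ + 2 * N₂ := by
  have hDJ : D ∈ J L := hD.mem_iff.2 dvd_rfl
  have hc0 := c0_ne_zero hL hNL hD.irr hDJ
  have hp1 : p₁ ∣ c0 D := h1.mem_iff.1 (c0_mem_del hL hDJ)
  have hp2 : p₂ ∣ c0 D := h2.mem_iff.1 (c0_mem_con hL hDJ)
  have h12 : ¬ Associated p₁ p₂ := not_both hL hNL h1 h2 h3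
  have k1 : ¬ p₁ ^ 2 ∣ c0 D := by
    rcases key hL hNL hD hm ih f h1.irr hp1 with ⟨_, _, h⟩ | ⟨_, h, h', _⟩
    · exact h
    · exact absurd (Associated.refl p₁) (not_both hL hNL h1 h h')
  have k2 : p₂ ^ 2 ∣ c0 D ∧ ¬ p₂ ^ 3 ∣ c0 D := by
    rcases key hL hNL hD hm ih f h2.irr hp2 with ⟨_, h, _⟩ | ⟨_, _, _, h, h'⟩
    · exact absurd (Associated.refl p₂) (not_both hL hNL h h2 h3)
    · exact ⟨h, h'⟩
  obtain ⟨B, hB⟩ := hp1
  have hnd : ¬ p₂ ∣ p₁ := fun h => h12 (h2.irr.associated_of_dvd h1.irr h).symm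
  have k3 : p₂ ^ 2 ∣ B := by
    apply h2.irr.prime.pow_dvd_of_dvd_mul_left 2 hnd
    rw [← hB]
    exact k2.1
  obtain ⟨C, hC⟩ := k3
  have hC0 : C ≠ 0 := by
    rintro rfl
    rw [hC, mul_zero, mul_zero] at hB
    exact hc0 hB
  have hCu : IsUnit C := by
    apply unit_of_no_factor hC0
    rintro q hq ⟨r, hr⟩
    have hqA : q ∣ c0 D := ⟨p₁ * p₂ ^ 2 * r, by rw [hB, hC, hr]; ring⟩
    rcases key hL hNL hD hm ih f hq hqA with ⟨_, h, _⟩ | ⟨_, h, _⟩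
    · obtain ⟨s, hs⟩ := (assoc_of_hyp h1 h).dvd
      exact k1 ⟨p₂ ^ 2 * s * r, by rw [hB, hC, hr, hs]; ring⟩
    · obtain ⟨s, hs⟩ := (assoc_of_hyp h2 h).dvd
      exact k2.2 ⟨p₁ * s * r, by rw [hB, hC, hr, hs]; ring⟩
  rw [← c0_degree hL hNL hD, hB, hC, totalDegree_mul_of_isDomain h1.irr.ne_zero
    (mul_ne_zero (pow_ne_zero 2 h2.irr.ne_zero) hC0),
    totalDegree_mul_of_isDomain (pow_ne_zero 2 h2.irr.ne_zero) hC0, pow_two,
    totalDegree_mul_of_isDomain h2.irr.ne_zero h2.irr.ne_zero, unit_degree hCu, hyp_degree h1,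
    hyp_degree h2]
  ring

theorem deg_del (hL : NLC L) (hNL : NoLoop L) (hD : Hyp L D N) (hm : (finSuccEquiv ℂ n D).Monic)
    (ih : IHyp n) (f : Fin n) {p₁ : MvPolynomial (Fin n) ℂ} {N₁ : ℕ} (h1 : Hyp (del L) p₁ N₁)
    (h2 : ¬ (NoLoop (con L) ∧ NoSep (con L))) : N = N₁ := by
  have hDJ : D ∈ J L := hD.mem_iff.2 dvd_rfl
  have hc0 := c0_ne_zero hL hNL hD.irr hDJ
  have hp1 : p₁ ∣ c0 D := h1.mem_iff.1 (c0_mem_del hL hDJ)
  have hno : ∀ (q : MvPolynomial (Fin n) ℂ) (N' : ℕ), Hyp (con L) q N' → ¬ NoLoop (con L) := by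
    intro q N' hq hC
    exact h2 ⟨hC, noSep_of_J hq.irr fun g hg => hq.mem_iff.1 hg⟩
  have k1 : ¬ p₁ ^ 2 ∣ c0 D := by
    rcases key hL hNL hD hm ih f h1.irr hp1 with ⟨_, _, h⟩ | ⟨_, h, h', _⟩
    · exact h
    · exact absurd h' (hno _ _ h)
  obtain ⟨C, hC⟩ := hp1
  have hC0 : C ≠ 0 := by
    rintro rfl
    rw [mul_zero] at hC
    exact hc0 hC
  have hCu : IsUnit C := by
    apply unit_of_no_factor hC0
    rintro q hq ⟨r, hr⟩
    have hqA : q ∣ c0 D := ⟨p₁ * r, by rw [hC, hr]; ring⟩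
    rcases key hL hNL hD hm ih f hq hqA with ⟨_, h, _⟩ | ⟨_, h, h', _⟩
    · obtain ⟨s, hs⟩ := (assoc_of_hyp h1 h).dvd
      exact k1 ⟨s * r, by rw [hC, hr, hs]; ring⟩
    · exact absurd h' (hno _ _ h)
  rw [← c0_degree hL hNL hD, hC, totalDegree_mul_of_isDomain h1.irr.ne_zero hC0, unit_degree hCu,
    hyp_degree h1, add_zero]

theorem deg_con (hL : NLC L) (hNL : NoLoop L) (hD : Hyp L D N) (hm : (finSuccEquiv ℂ n D).Monic)
    (ih : IHyp n) (f : Fin n) {p₂ : MvPolynomial (Fin n) ℂ} {N₂ : ℕ} (h2 : Hyp (con L) p₂ N₂)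
    (h1 : ¬ NoSep (del L)) : N = 2 * N₂ := by
  have hDJ : D ∈ J L := hD.mem_iff.2 dvd_rfl
  have hc0 := c0_ne_zero hL hNL hD.irr hDJ
  have hp2 : p₂ ∣ c0 D := h2.mem_iff.1 (c0_mem_con hL hDJ)
  have hno : ∀ (q : MvPolynomial (Fin n) ℂ) (N' : ℕ), ¬ Hyp (del L) q N' := by
    intro q N' hq
    exact h1 (noSep_of_J hq.irr fun g hg => hq.mem_iff.1 hg)
  have k2 : p₂ ^ 2 ∣ c0 D ∧ ¬ p₂ ^ 3 ∣ c0 D := by
    rcases key hL hNL hD hm ih f h2.irr hp2 with ⟨_, h, _⟩ | ⟨_, _, _, h, h'⟩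
    · exact absurd h (hno _ _)
    · exact ⟨h, h'⟩
  obtain ⟨C, hC⟩ := k2.1
  have hC0 : C ≠ 0 := by
    rintro rfl
    rw [mul_zero] at hC
    exact hc0 hC
  have hCu : IsUnit C := by
    apply unit_of_no_factor hC0
    rintro q hq ⟨r, hr⟩
    have hqA : q ∣ c0 D := ⟨p₂ ^ 2 * r, by rw [hC, hr]; ring⟩
    rcases key hL hNL hD hm ih f hq hqA with ⟨_, h, _⟩ | ⟨_, h, _⟩
    · exact absurd h (hno _ _)
    · obtain ⟨s, hs⟩ := (assoc_of_hyp h2 h).dvd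
      exact k2.2 ⟨s * r, by rw [hC, hr, hs]; ring⟩
  rw [← c0_degree hL hNL hD, hC, totalDegree_mul_of_isDomain (pow_ne_zero 2 h2.irr.ne_zero) hC0,
    pow_two, totalDegree_mul_of_isDomain h2.irr.ne_zero h2.irr.ne_zero, unit_degree hCu,
    hyp_degree h2]
  ring

/-- existence of the generator with all properties -/
theorem exists_hyp (hL : NLC L) (hNL : NoLoop L) (ih : IHyp n) (f : Fin n)
    (h : NoSep (del L) ∨ (NoLoop (con L) ∧ NoSep (con L))) :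
    ∃ (D : MvPolynomial (Fin (n + 1)) ℂ) (N : ℕ), Hyp L D N ∧ (finSuccEquiv ℂ n D).Monic := by
  have hND : ND L := by
    rcases h with h | ⟨h, h'⟩
    · obtain ⟨q, N, hq⟩ := ih (del L) (noLoop_del hNL) h
      exact nd_of_del hL hNL hq
    · obtain ⟨q, N, hq⟩ := ih (con L) h h'
      exact nd_of_con hL hq h
  obtain ⟨D, h1, h2, h3⟩ := hND.exists_gen hNL f
  refine ⟨D, D.totalDegree, ⟨h1, gen_hom h1.ne_zero h2, h2, ?_⟩, h3⟩
  apply hND.grad hNL f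
  rw [h2]
  exact Ideal.mem_span_singleton_self D

end

end Pool.Agent.H72R
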