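import Pool.Agent.H72R.Gen

/-!
The generator of `J L`.
-/

set_option autoImplicit false
set_option linter.unusedSectionVars false

open MvPolynomial

namespace Pool.Agent.H72R

section

variable {n : ℕ} {L : Submodule ℂ (Fin (n + 1) → ℂ)}

theorem ND.prop (hND : ND L) (hNL : NoLoop L) (f : Fin n) {K : Type} [Field K] [Algebra ℂ K]
    (e : R (Fin (n + 1)) →ₐ[ℂ] K) (he : Function.Injective e) {g : Fin (n + 1) → K}
    (hg : g ∈ Pt K L) (hgw : (fun i => g i * e (gw L i) / e (gx L i)) ∈ Pt K (perp L))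
    (i j : Fin (n + 1)) : g i * e (gx L j) = g j * e (gx L i) := by
  have hX : ∀ i, e (gx L i) ≠ 0 := fun i h0 => hNL i (he (by rw [h0, map_zero]))
  have hXL : (fun i => e (gx L i)) ∈ Pt K L := Pt_map (gx_mem L) e
  have hWL : (fun i => e (gw L i)) ∈ Pt K (perp L) := Pt_map (gw_mem L) e
  set s := g f.succ / e (gx L f.succ) with hs
  have h1 : g - s • (fun i => e (gx L i)) = 0 := by
    apply hND K e he _ ((Pt K L).sub_mem hg ((Pt K L).smul_mem s hXL)) _ f
    · simp only [Pi.sub_apply, Pi.smul_apply, smul_eq_mul, hs]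
      have := hX f.succ
      field_simp
      ring
    · have h2 := (Pt K (perp L)).sub_mem hgw ((Pt K (perp L)).smul_mem s hWL)
      convert h2 using 1
      funext i
      have := hX i
      simp only [Pi.sub_apply, Pi.smul_apply, smul_eq_mul]
      field_simp
  have h2 : ∀ i, g i = s * e (gx L i) := by
    intro i
    have := congrFun h1 i
    simp only [Pi.sub_apply, Pi.smul_apply, smul_eq_mul, Pi.zero_apply] at this
    linear_combination this
  rw [h2 i, h2 j]
  ring

theorem ND.grad_aux (hND : ND L) (hNL : NoLoop L) (f : Fin n) {g : MvPolynomial (Fin (n + 1)) ℂ}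
    (hg : g ∈ J L) {K : Type} [Field K] [Algebra ℂ K] (e : R (Fin (n + 1)) →ₐ[ℂ] K)
    (he : Function.Injective e) : Bid L g := by
  intro i j
  let G : Fin (n + 1) → R (Fin (n + 1)) := fun i => aeval (gu L) (pderiv i g) * gx L i ^ 2
  have hG : G ∈ Pt (R (Fin (n + 1))) L := by
    intro l hl
    have h1 := diff_w (gx_mem L) (gw_mem L) (w' := fun i => algebraMap ℂ (R (Fin (n + 1))) (l i))
      (Pt_const hl) hg
    rw [← h1]
    refine Finset.sum_congr rfl fun i _ => ?_
    show _ * (aeval (gu L) (pderiv i g) * gx L i ^ 2) = aeval (gu L) (pderiv i g) * _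
    ring
  have hG2 : (fun i => aeval (gu L) (pderiv i g) * gx L i * gw L i) ∈
      Pt (R (Fin (n + 1))) (perp L) := by
    rw [mem_Pt_perp]
    intro v hv
    have h1 := diff_x (gx_mem L) (gw_mem L) (x' := fun i => algebraMap ℂ (R (Fin (n + 1))) (v i))
      (Pt_const hv) hg
    have h2 : (2 : R (Fin (n + 1))) * ∑ i, algebraMap ℂ (R (Fin (n + 1))) (v i) *
        (aeval (gu L) (pderiv i g) * gx L i * gw L i) = 0 := by
      rw [← h1, Finset.mul_sum]
      refine Finset.sum_congr rfl fun i _ => ?_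
      show _ = aeval (gu L) (pderiv i g) * _
      ring
    exact (mul_eq_zero.1 h2).resolve_left two_ne_zero
  have hX : ∀ i, e (gx L i) ≠ 0 := fun i h0 => hNL i (he (by rw [h0, map_zero]))
  have h3 := hND.prop hNL f e he (Pt_map hG e) (by
    have h4 := Pt_map hG2 e
    convert h4 using 1
    funext i
    have := hX i
    simp only [G, map_mul, map_pow]
    field_simp) i j
  simp only [G] at h3
  rw [← map_mul, ← map_mul] at h3
  have h4 := he h3
  have h5 : (gx L i * gx L j) * (gx L i * aeval (gu L) (pderiv i g)) =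
      (gx L i * gx L j) * (gx L j * aeval (gu L) (pderiv j g)) := by
    linear_combination h4
  exact mul_left_cancel₀ (mul_ne_zero (hNL i) (hNL j)) h5

/-- the gradient relation for all elements of `J L` -/
theorem ND.grad (hND : ND L) (hNL : NoLoop L) (f : Fin n) {g : MvPolynomial (Fin (n + 1)) ℂ}
    (hg : g ∈ J L) : Bid L g :=
  hND.grad_aux hNL f hg (K := FractionRing (R (Fin (n + 1))))
    (IsScalarTower.toAlgHom ℂ (R (Fin (n + 1))) (FractionRing (R (Fin (n + 1)))))
    (IsFractionRing.injective (R (Fin (n + 1))) (FractionRing (R (Fin (n + 1)))))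

/-- algebraic independence of the `U_i`, `i ≠ 0` (homogeneous polynomials) -/
theorem ND.indep_hom (hND : ND L) (hNL : NoLoop L) (f : Fin n) (m : ℕ) :
    ∀ g : MvPolynomial (Fin n) ℂ, g.IsHomogeneous m → rename Fin.succ g ∈ J L → g = 0 := by
  induction m with
  | zero =>
    intro g hg hJ
    rw [← totalDegree_zero_iff_isHomogeneous, totalDegree_eq_zero_iff_eq_C] at hg
    rw [hg, rename_C, mem_J, algHom_C] at hJ
    have : coeff 0 g = 0 := (FaithfulSMul.algebraMap_injective ℂ (R (Fin (n + 1)))) (by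
      rw [hJ, map_zero])
    rw [hg, this, map_zero]
  | succ m ih =>
    intro g hg hJ
    have h1 : ∀ i : Fin n, pderiv i g = 0 := by
      intro i
      apply ih _ hg.pderiv
      rw [mem_J]
      have h2 := hND.grad hNL f hJ i.succ 0
      rw [pderiv_rename (Fin.succ_injective n)] at h2
      have h3 : pderiv (0 : Fin (n + 1)) (rename Fin.succ g) = 0 := by
        apply pderiv_eq_zero_of_notMem_vars
        intro hmem
        have := vars_rename Fin.succ g hmem
        rw [Finset.mem_image] at this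
        obtain ⟨a, _, ha⟩ := this
        exact Fin.succ_ne_zero a ha
      rw [h3, map_zero, mul_zero] at h2
      exact (mul_eq_zero.1 h2).resolve_left (hNL _)
    have h2 := hg.sum_X_mul_pderiv
    simp only [h1, mul_zero, Finset.sum_const_zero] at h2
    rw [nsmul_eq_mul] at h2
    rcases mul_eq_zero.1 h2.symm with h3 | h3
    · exfalso
      have h6 : ((m + 1 : ℕ) : MvPolynomial (Fin n) ℂ) ≠ 0 := by exact_mod_cast Nat.succ_ne_zero m
      exact h6 h3
    · exact h3

theorem ND.indep (hND : ND L) (hNL : NoLoop L) (f : Fin n) (g : MvPolynomial (Fin n) ℂ)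
    (hg : rename Fin.succ g ∈ J L) : g = 0 := by
  rw [← sum_homogeneousComponent g]
  refine Finset.sum_eq_zero fun m _ => ?_
  apply hND.indep_hom hNL f m _ (homogeneousComponent_isHomogeneous m g)
  have h1 := J_hom hg m
  rw [rename_homogeneousComponent]
  exact h1

theorem eval_finSucc {A : Type} [CommRing A] [Algebra ℂ A] (u : Fin (n + 1) → A)
    (g : MvPolynomial (Fin (n + 1)) ℂ) :
    aeval u g = Polynomial.eval₂
      ((aeval fun i : Fin n => u i.succ : MvPolynomial (Fin n) ℂ →ₐ[ℂ] A) : MvPolynomial (Fin n) ℂ →+* A)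
      (u 0) (finSuccEquiv ℂ n g) := by
  induction g using MvPolynomial.induction_on with
  | C c =>
    have h1 : finSuccEquiv ℂ n (C c) = Polynomial.C (C c) := by
      have := (finSuccEquiv ℂ n).commutes c
      rw [algebraMap_eq] at this
      rw [this]
      rfl
    rw [h1, Polynomial.eval₂_C]
    simp
  | add p q hp hq => rw [map_add, map_add, Polynomial.eval₂_add, hp, hq]
  | mul_X p j hp =>
    rw [map_mul, map_mul, Polynomial.eval₂_mul, hp, aeval_X]
    congr 1
    refine Fin.cases ?_ (fun i => ?_) j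
    · rw [finSuccEquiv_X_zero, Polynomial.eval₂_X]
    · rw [finSuccEquiv_X_succ, Polynomial.eval₂_C]
      simp

theorem ND.exists_gen_aux (hND : ND L) (hNL : NoLoop L) (f : Fin n) {K : Type} [Field K]
    [Algebra ℂ K] (e : R (Fin (n + 1)) →ₐ[ℂ] K) (he : Function.Injective e) :
    ∃ D : MvPolynomial (Fin (n + 1)) ℂ, Irreducible D ∧ J L = Ideal.span {D} ∧
      (finSuccEquiv ℂ n D).Monic := by
  have hXL : (fun i => e (gx L i)) ∈ Pt K L := Pt_map (gx_mem L) e
  have hWL : (fun i => e (gw L i)) ∈ Pt K (perp L) := Pt_map (gw_mem L) e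
  have hU : ∀ i, e (gx L i) ^ 2 * e (gw L i) = e (gu L i) := by
    intro i
    unfold gu
    rw [map_mul, map_pow]
  let ev : MvPolynomial (Fin n) ℂ →ₐ[ℂ] K := aeval fun i : Fin n => e (gu L i.succ)
  have hint := integral hXL hWL 0 (fun i : Fin n => e (gu L i.succ)) (by
    intro i hi
    obtain ⟨j, rfl⟩ := Fin.exists_succ_eq.2 hi
    exact ⟨X j, by rw [hU]; simp⟩)
  rw [hU] at hint
  have hinj : Function.Injective ev := by
    rw [injective_iff_map_eq_zero]
    intro g hg
    apply hND.indep hNL f g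
    rw [mem_J]
    apply he
    rw [map_zero, ← hg, ← AlgHom.comp_apply, comp_aeval, aeval_rename]
    rfl
  let alg : Algebra (MvPolynomial (Fin n) ℂ) K := (ev : MvPolynomial (Fin n) ℂ →+* K).toAlgebra
  have htf : Module.IsTorsionFree (MvPolynomial (Fin n) ℂ) K := by
    have : FaithfulSMul (MvPolynomial (Fin n) ℂ) K := (faithfulSMul_iff_algebraMap_injective _ _).2 hinj
    infer_instance
  have hint2 : IsIntegral (MvPolynomial (Fin n) ℂ) (e (gu L 0)) := hint
  let D := (finSuccEquiv ℂ n).symm (minpoly (MvPolynomial (Fin n) ℂ) (e (gu L 0)))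
  have hD : finSuccEquiv ℂ n D = minpoly (MvPolynomial (Fin n) ℂ) (e (gu L 0)) :=
    (finSuccEquiv ℂ n).apply_symm_apply _
  refine ⟨D, ?_, ?_, ?_⟩
  · rw [← MulEquiv.irreducible_iff (finSuccEquiv ℂ n), hD]
    exact (minpoly.prime_of_isIntegrallyClosed hint2).irreducible
  · ext g
    rw [mem_J, Ideal.mem_span_singleton]
    have h1 : aeval (gu L) g = 0 ↔ Polynomial.aeval (e (gu L 0)) (finSuccEquiv ℂ n g) = 0 := by
      rw [← map_eq_zero_iff e he, ← AlgHom.comp_apply, comp_aeval, eval_finSucc]
      rfl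
    rw [h1, minpoly.isIntegrallyClosed_dvd_iff hint2, ← hD]
    exact map_dvd_iff (finSuccEquiv ℂ n)
  · rw [hD]
    exact minpoly.monic hint2

/-- `J L` is generated by an irreducible polynomial which is monic in `u_0` -/
theorem ND.exists_gen (hND : ND L) (hNL : NoLoop L) (f : Fin n) :
    ∃ D : MvPolynomial (Fin (n + 1)) ℂ, Irreducible D ∧ J L = Ideal.span {D} ∧
      (finSuccEquiv ℂ n D).Monic :=
  hND.exists_gen_aux hNL f (K := FractionRing (R (Fin (n + 1))))
    (IsScalarTower.toAlgHom ℂ (R (Fin (n + 1))) (FractionRing (R (Fin (n + 1)))))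
    (IsFractionRing.injective (R (Fin (n + 1))) (FractionRing (R (Fin (n + 1)))))

end

end Pool.Agent.H72R
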