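import Pool.Agent.H72R.Val

/-!
First order expansions and the consequences of the biduality relation.
-/

set_option autoImplicit false
set_option linter.unusedSectionVars false

open MvPolynomial

namespace Pool.Agent.H72R

section dual

variable {ι : Type} [Fintype ι] {A : Type} [CommRing A] [Algebra ℂ A]

/-- the element `a + ε b` of the dual numbers -/
def dn (a b : A) : DualNumber A := TrivSqZeroExt.inl a + TrivSqZeroExt.inr b

theorem fst_dn (a b : A) : (dn a b).fst = a := by simp [dn]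
theorem snd_dn (a b : A) : (dn a b).snd = b := by simp [dn]

theorem dn_ext {x y : DualNumber A} (h1 : x.fst = y.fst) (h2 : x.snd = y.snd) : x = y :=
  TrivSqZeroExt.ext h1 h2

theorem fst_mul' (x y : DualNumber A) : (x * y).fst = x.fst * y.fst := by simp
theorem snd_mul' (x y : DualNumber A) : (x * y).snd = x.fst * y.snd + y.fst * x.snd := by
  simp [mul_comm]

theorem aeval_dn (a b : ι → A) (g : MvPolynomial ι ℂ) :
    aeval (fun i => dn (a i) (b i)) g = dn (aeval a g) (∑ i, aeval a (pderiv i g) * b i) := by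
  classical
  induction g using MvPolynomial.induction_on with
  | C c =>
    apply dn_ext
    · rw [fst_dn, algHom_C, algHom_C]
      rfl
    · rw [snd_dn, algHom_C]
      simp only [pderiv_C, map_zero, zero_mul, Finset.sum_const_zero]
      rfl
  | add p q hp hq =>
    rw [map_add, hp, hq]
    apply dn_ext
    · simp [fst_dn]
    · simp [snd_dn, add_mul, Finset.sum_add_distrib]
  | mul_X p j hp =>
    rw [map_mul, hp, aeval_X]
    apply dn_ext
    · rw [fst_mul', fst_dn, fst_dn, fst_dn, map_mul, aeval_X]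
    · rw [snd_mul', snd_dn, snd_dn, fst_dn, fst_dn, snd_dn]
      simp only [pderiv_mul, pderiv_X, map_add, map_mul, aeval_X, add_mul, Finset.sum_add_distrib]
      have h1 : ∑ i, aeval a p * aeval a ((Pi.single i (1 : MvPolynomial ι ℂ) :
          ι → MvPolynomial ι ℂ) j) * b i = aeval a p * b j := by
        rw [Finset.sum_eq_single j]
        · simp
        · intro i _ hij
          rw [Pi.single_eq_of_ne (Ne.symm hij)]
          simp
        · simp
      rw [h1, Finset.mul_sum, add_comm]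
      congr 1
      refine Finset.sum_congr rfl fun i _ => ?_
      ring

theorem Pt_dn {L : Submodule ℂ (ι → ℂ)} {x y : ι → A} (hx : x ∈ Pt A L) (hy : y ∈ Pt A L) :
    (fun i => dn (x i) (y i)) ∈ Pt (DualNumber A) L := by
  intro l hl
  have h1 := hx l hl
  have h2 := hy l hl
  have hc : ∀ c : ℂ, algebraMap ℂ (DualNumber A) c = TrivSqZeroExt.inl (algebraMap ℂ A c) :=
    fun c => rfl
  apply dn_ext
  · rw [TrivSqZeroExt.fst_sum, TrivSqZeroExt.fst_zero, ← h1]
    refine Finset.sum_congr rfl fun i _ => ?_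
    rw [fst_mul', fst_dn, hc, TrivSqZeroExt.fst_inl]
  · rw [TrivSqZeroExt.snd_sum, TrivSqZeroExt.snd_zero, ← h2]
    refine Finset.sum_congr rfl fun i _ => ?_
    rw [snd_mul', snd_dn, hc, TrivSqZeroExt.fst_inl, TrivSqZeroExt.snd_inl, mul_zero, add_zero]

variable [DecidableEq ι] {L : Submodule ℂ (ι → ℂ)}

theorem diff_w {x w w' : ι → A} (hx : x ∈ Pt A L) (hw : w ∈ Pt A (perp L))
    (hw' : w' ∈ Pt A (perp L)) {g : MvPolynomial ι ℂ} (hg : g ∈ J L) :
    ∑ i, aeval (fun i => x i ^ 2 * w i) (pderiv i g) * (x i ^ 2 * w' i) = 0 := by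
  have h1 := J_eval (Pt_dn hx (Submodule.zero_mem _)) (Pt_dn hw hw') hg
  have h2 : (fun i => dn (x i) ((0 : ι → A) i) ^ 2 * dn (w i) (w' i)) =
      fun i => dn (x i ^ 2 * w i) (x i ^ 2 * w' i) := by
    funext i
    apply dn_ext
    · rw [fst_mul', fst_dn, fst_dn, pow_two, fst_mul', fst_dn]
      ring
    · rw [snd_mul', snd_dn, snd_dn, fst_dn, pow_two, fst_mul', fst_dn, snd_mul', snd_dn]
      simp
      ring
  rw [h2, aeval_dn] at h1
  have h3 := congrArg TrivSqZeroExt.snd h1
  rwa [snd_dn] at h3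

theorem diff_x {x w x' : ι → A} (hx : x ∈ Pt A L) (hw : w ∈ Pt A (perp L))
    (hx' : x' ∈ Pt A L) {g : MvPolynomial ι ℂ} (hg : g ∈ J L) :
    ∑ i, aeval (fun i => x i ^ 2 * w i) (pderiv i g) * (2 * (x i * w i * x' i)) = 0 := by
  have h1 := J_eval (Pt_dn hx hx') (Pt_dn hw (Submodule.zero_mem _)) hg
  have h2 : (fun i => dn (x i) (x' i) ^ 2 * dn (w i) ((0 : ι → A) i)) =
      fun i => dn (x i ^ 2 * w i) (2 * (x i * w i * x' i)) := by
    funext i
    apply dn_ext
    · rw [fst_mul', fst_dn, fst_dn, pow_two, fst_mul', fst_dn]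
      ring
    · rw [snd_mul', snd_dn, snd_dn, fst_dn, pow_two, fst_mul', fst_dn, snd_mul', fst_dn, snd_dn]
      simp
      ring
  rw [h2, aeval_dn] at h1
  have h3 := congrArg TrivSqZeroExt.snd h1
  rwa [snd_dn] at h3

end dual

section bidual

variable {ι : Type} [Fintype ι] [DecidableEq ι]

/-- the biduality relation: the gradient of `p` at `x² w` is proportional to `1 / x` -/
def Bid (L : Submodule ℂ (ι → ℂ)) (p : MvPolynomial ι ℂ) : Prop :=
  ∀ i j, gx L i * aeval (gu L) (pderiv i p) = gx L j * aeval (gu L) (pderiv j p)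

variable {L : Submodule ℂ (ι → ℂ)} {p : MvPolynomial ι ℂ}

theorem Bid.pt (h : Bid L p) {A : Type} [CommRing A] [Algebra ℂ A] {x w : ι → A}
    (hx : x ∈ Pt A L) (hw : w ∈ Pt A (perp L)) (i j : ι) :
    x i * aeval (fun i => x i ^ 2 * w i) (pderiv i p) =
      x j * aeval (fun i => x i ^ 2 * w i) (pderiv j p) := by
  have h1 := congrArg (sp x w) (h i j)
  rwa [map_mul, map_mul, sp_gx hx, sp_gx hx, sp_aeval hx hw, sp_aeval hx hw] at h1

/-- the data for a good linear space: `J L` is generated by a homogeneous irreducible polynomial of degree `N`, and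
biduality holds -/
structure Hyp (L : Submodule ℂ (ι → ℂ)) (p : MvPolynomial ι ℂ) (N : ℕ) : Prop where
  irr : Irreducible p
  hom : p.IsHomogeneous N
  gen : J L = Ideal.span {p}
  bid : Bid L p

variable {N : ℕ}

theorem Hyp.mem_iff (h : Hyp L p N) {g : MvPolynomial ι ℂ} : g ∈ J L ↔ p ∣ g := by
  rw [h.gen, Ideal.mem_span_singleton]

theorem Hyp.pos (h : Hyp L p N) : 0 < N := by
  rcases Nat.eq_zero_or_pos N with h0 | h0
  · exfalso
    have h1 := h.hom
    rw [h0, ← totalDegree_zero_iff_isHomogeneous, totalDegree_eq_zero_iff_eq_C] at h1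
    have h2 : coeff 0 p ≠ 0 := by
      intro h3
      rw [h3, map_zero] at h1
      exact h.irr.ne_zero h1
    apply h.irr.not_isUnit
    rw [h1]
    exact (isUnit_iff_ne_zero.2 h2).map C
  · exact h0

theorem Hyp.pderiv_notMem (h : Hyp L p N) : ∃ i, pderiv i p ∉ J L := by
  by_contra hcon
  push Not at hcon
  have hz : ∀ i, pderiv i p = 0 := by
    intro i
    by_contra hi
    have h1 := h.mem_iff.1 (hcon i)
    have h2 := totalDegree_le_of_dvd_of_isDomain h1 hi
    rw [h.hom.totalDegree h.irr.ne_zero, (h.hom.pderiv (i := i)).totalDegree hi] at h2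
    have := h.pos
    omega
  have h3 := h.hom.sum_X_mul_pderiv
  simp only [hz, mul_zero, Finset.sum_const_zero] at h3
  have h4 : (N : MvPolynomial ι ℂ) * p = 0 := by rw [← nsmul_eq_mul]; exact h3.symm
  rcases mul_eq_zero.1 h4 with h5 | h5
  · have := h.pos
    have h6 : (N : MvPolynomial ι ℂ) ≠ 0 := by exact_mod_cast this.ne'
    exact h6 h5
  · exact h.irr.ne_zero h5

variable {k : Type} [Field k] [Algebra ℂ k]

/-- `u` is a generic point of the hypersurface -/
def Gen (p : MvPolynomial ι ℂ) (u : ι → k) : Prop := ∀ g : MvPolynomial ι ℂ, aeval u g = 0 → p ∣ g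

theorem Hyp.pderiv_ne (h : Hyp L p N) {x w : ι → k} (hx : x ∈ Pt k L) (hw : w ∈ Pt k (perp L))
    (hg : Gen p fun i => x i ^ 2 * w i) (hx0 : ∀ i, x i ≠ 0) (i : ι) :
    aeval (fun i => x i ^ 2 * w i) (pderiv i p) ≠ 0 := by
  obtain ⟨j, hj⟩ := h.pderiv_notMem
  have h1 : aeval (fun i => x i ^ 2 * w i) (pderiv j p) ≠ 0 := by
    intro h0
    exact hj (h.mem_iff.2 (hg _ h0))
  intro h0
  have h2 := h.bid.pt hx hw i j
  rw [h0, mul_zero] at h2
  exact mul_ne_zero (hx0 j) h1 h2.symm

/-- F1: nondegeneracy at points over the generic point -/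
theorem Hyp.nondeg (h : Hyp L p N) {x w y : ι → k} (hx : x ∈ Pt k L) (hw : w ∈ Pt k (perp L))
    (hg : Gen p fun i => x i ^ 2 * w i) (hx0 : ∀ i, x i ≠ 0) (hy : y ∈ Pt k L)
    (hyw : (fun i => y i * w i / x i) ∈ Pt k (perp L)) (i j : ι) : y i * x j = y j * x i := by
  have hw2 : (fun i => -2 * (y i * w i / x i)) ∈ Pt k (perp L) := by
    have := (Pt k (perp L)).smul_mem (-2 : k) hyw
    exact this
  have h1 := h.bid.pt (Pt_dn hx hy) (Pt_dn hw hw2) i j
  have h2 : (fun i => dn (x i) (y i) ^ 2 * dn (w i) (-2 * (y i * w i / x i))) =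
      fun i => dn (x i ^ 2 * w i) 0 := by
    funext i
    have := hx0 i
    apply dn_ext
    · rw [fst_mul', fst_dn, fst_dn, pow_two, fst_mul', fst_dn]
      ring
    · rw [snd_mul', snd_dn, snd_dn, fst_dn, pow_two, fst_mul', fst_dn, snd_mul', fst_dn, snd_dn]
      field_simp
      ring
  rw [h2, aeval_dn, aeval_dn] at h1
  have h3 := congrArg TrivSqZeroExt.snd h1
  rw [snd_mul', snd_mul', fst_dn, fst_dn, fst_dn, fst_dn, snd_dn, snd_dn, snd_dn, snd_dn] at h3
  simp only [mul_zero, Finset.sum_const_zero, zero_add] at h3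
  have h4 := h.bid.pt hx hw i j
  have h5 := h.pderiv_ne hx hw hg hx0 i
  have h6 := h.pderiv_ne hx hw hg hx0 j
  set a := aeval (fun i => x i ^ 2 * w i) (pderiv i p)
  set b := aeval (fun i => x i ^ 2 * w i) (pderiv j p)
  -- h3 : a * y i = b * y j, h4 : x i * a = x j * b
  have h7 : a * (y i * x j - y j * x i) = 0 := by
    linear_combination x j * h3 - y j * h4
  rcases mul_eq_zero.1 h7 with h8 | h8
  · exact absurd h8 h5
  · exact sub_eq_zero.1 h8

/-- F3: linear forms in `w` do not vanish -/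
theorem Hyp.w_lin (h : Hyp L p N) (hL : ∀ i, gx L i ≠ 0) {x w : ι → k} (hx : x ∈ Pt k L)
    (hw : w ∈ Pt k (perp L)) (hg : Gen p fun i => x i ^ 2 * w i)
    {l : ι → ℂ} (hl : ∑ i, algebraMap ℂ k (l i) * w i = 0) : l ∈ L := by
  -- the polynomial `∑ l_i u_i (∂_i p)²`
  let g : MvPolynomial ι ℂ := ∑ i, C (l i) * (X i * pderiv i p ^ 2)
  have h1 : aeval (fun i => x i ^ 2 * w i) g = 0 := by
    rcases isEmpty_or_nonempty ι with hι | ⟨⟨j⟩⟩
    · simp [g]
    · have : ∀ i, x i * aeval (fun i => x i ^ 2 * w i) (pderiv i p) =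
          x j * aeval (fun i => x i ^ 2 * w i) (pderiv j p) := fun i => h.bid.pt hx hw i j
      simp only [g, map_sum, map_mul, map_pow, aeval_X, algHom_C]
      calc ∑ i, algebraMap ℂ k (l i) * (x i ^ 2 * w i * aeval (fun i => x i ^ 2 * w i) (pderiv i p) ^ 2)
          = ∑ i, (algebraMap ℂ k (l i) * w i) *
              (x j * aeval (fun i => x i ^ 2 * w i) (pderiv j p)) ^ 2 := by
            refine Finset.sum_congr rfl fun i _ => ?_
            rw [← this i]
            ring
        _ = 0 := by rw [← Finset.sum_mul, hl, zero_mul]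
  have h2 := h.mem_iff.2 (hg _ h1)
  rcases isEmpty_or_nonempty ι with hι | ⟨⟨j⟩⟩
  · have : l = 0 := Subsingleton.elim _ _
    rw [this]
    exact L.zero_mem
  · have h3 : ∀ i, gx L i * aeval (gu L) (pderiv i p) = gx L j * aeval (gu L) (pderiv j p) :=
      fun i => h.bid i j
    rw [mem_J] at h2
    simp only [g, map_sum, map_mul, map_pow, aeval_X, algHom_C] at h2
    have h4 : ∑ i, (algebraMap ℂ (R ι) (l i) * gw L i) *
        (gx L j * aeval (gu L) (pderiv j p)) ^ 2 = 0 := by
      rw [← h2]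
      refine Finset.sum_congr rfl fun i _ => ?_
      rw [← h3 i]
      unfold gu
      ring
    rw [← Finset.sum_mul] at h4
    rcases mul_eq_zero.1 h4 with h5 | h5
    · exact gw_lin h5
    · exfalso
      have h6 := pow_eq_zero_iff (two_ne_zero) |>.1 h5
      obtain ⟨i, hi⟩ := h.pderiv_notMem
      rw [← h3 i] at h6
      rcases mul_eq_zero.1 h6 with h7 | h7
      · exact hL i h7
      · exact hi (mem_J.2 h7)

end bidual

end Pool.Agent.H72R
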