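import Pool.Agent.H72R.Hom

/-!
Nondegeneracy at the generic point, biduality, and the generator of `J L`.
-/

set_option autoImplicit false
set_option linter.unusedSectionVars false

open MvPolynomial

namespace Pool.Agent.H72R

section

variable {n : ℕ} {L : Submodule ℂ (Fin (n + 1) → ℂ)}

/-- no coordinate vanishes on the generic point of `L` -/
def NoLoop {ι : Type} [Fintype ι] [DecidableEq ι] (L : Submodule ℂ (ι → ℂ)) : Prop := ∀ i, gx L i ≠ 0

theorem noLoop_iff {ι : Type} [Fintype ι] [DecidableEq ι] {L : Submodule ℂ (ι → ℂ)} :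
    NoLoop L ↔ ∀ i, ∃ v ∈ L, v i = 1 := by
  constructor
  · intro h i
    by_contra hcon
    push Not at hcon
    apply h i
    have : (Pi.single i 1 : ι → ℂ) ∈ perp L := by
      intro v hv
      rw [Finset.sum_eq_single i]
      · by_contra h0
        simp only [Pi.single_eq_same, mul_one] at h0
        exact hcon ((v i)⁻¹ • v) (L.smul_mem _ hv) (by simp [h0])
      · intro j _ hj
        simp [hj]
      · simp
    have h2 := gx_mem L _ this
    rw [Finset.sum_eq_single i] at h2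
    · simpa using h2
    · intro j _ hj
      simp [hj]
    · simp
  · intro h i h0
    obtain ⟨v, hv, hvi⟩ := h i
    have h1 := congrArg (sp v (0 : ι → ℂ)) h0
    have hv' : v ∈ Pt ℂ L := Pt_const (A := ℂ) hv
    rw [sp_gx hv', map_zero, hvi] at h1
    exact one_ne_zero h1

theorem noLoop_del (h : NoLoop L) : NoLoop (del L) := by
  rw [noLoop_iff] at h ⊢
  intro i
  obtain ⟨v, hv, hvi⟩ := h i.succ
  exact ⟨tl v, mem_del.2 ⟨v, hv, fun _ => rfl⟩, hvi⟩

/-- nondegeneracy of the generic point of `L` -/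
def ND (L : Submodule ℂ (Fin (n + 1) → ℂ)) : Prop :=
  ∀ (K : Type) [Field K] [Algebra ℂ K] (e : R (Fin (n + 1)) →ₐ[ℂ] K), Function.Injective e →
    ∀ y : Fin (n + 1) → K, y ∈ Pt K L →
      (fun i => y i * e (gw L i) / e (gx L i)) ∈ Pt K (perp L) →
        ∀ f : Fin n, y f.succ = 0 → y = 0

theorem gen_of_J {p : MvPolynomial (Fin n) ℂ} {M : Submodule ℂ (Fin n → ℂ)} {N : ℕ} (h : Hyp M p N)
    {x w : Fin (n + 1) → R (Fin n)} (hx : ∀ i : Fin n, x i.succ = gx M i)
    (hw : ∀ i : Fin n, w i.succ = gw M i) (hxL : x ∈ Pt (R (Fin n)) L)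
    (hwL : w ∈ Pt (R (Fin n)) (perp L))
    {K k : Type} [Field K] [Algebra ℂ K] (e : R (Fin (n + 1)) →ₐ[ℂ] K)
    [Field k] [Algebra ℂ k] {V : ValuationSubring K} {φ : V →+* k}
    (hp : IsPl V φ) (hV : ∀ a, e a ∈ V)
    (hker : ∀ a, rs φ (e a) = 0 ↔ a ∈ RingHom.ker (sp x w : R (Fin (n + 1)) →ₐ[ℂ] R (Fin n))) :
    Gen p fun i : Fin n => rs φ (e (gx L i.succ)) ^ 2 * rs φ (e (gw L i.succ)) := by
  intro g hg
  have h1 : (fun i : Fin n => rs φ (e (gx L i.succ)) ^ 2 *
      rs φ (e (gw L i.succ))) = fun i : Fin n => rs φ (e (gu L i.succ)) := by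
    funext i
    unfold gu
    rw [map_mul, map_pow, rs_mul (pow_mem (hV _) 2) (hV _), rs_pow (hV _)]
  rw [h1, ← hp.rs_aeval (fun i => hV _)] at hg
  have h2 : aeval (fun i : Fin n => e (gu L i.succ)) g =
      e (aeval (fun i : Fin n => gu L i.succ) g) := by
    rw [← AlgHom.comp_apply, comp_aeval]
  rw [h2, hker, RingHom.mem_ker] at hg
  have h3 : sp x w (aeval (fun i : Fin n => gu L i.succ) g) = aeval (gu M) g := by
    rw [← AlgHom.comp_apply, comp_aeval]
    congr 2
    funext i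
    rw [sp_gu hxL hwL, hx, hw]
    rfl
  have h4 : aeval (gu M) g = 0 := by rw [← h3]; exact hg
  exact h.mem_iff.1 (mem_J.2 h4)

theorem nd_of_del (hL : NLC L) (hNL : NoLoop L) {p : MvPolynomial (Fin n) ℂ} {N : ℕ}
    (h : Hyp (del L) p N) : ND L := by
  intro K _ _ e he
  obtain ⟨l, hl, hl0⟩ := hL.l
  let x : Fin (n + 1) → R (Fin n) :=
    Fin.cons (-∑ i : Fin n, algebraMap ℂ (R (Fin n)) (l i.succ) * gx (del L) i) (gx (del L))
  let w : Fin (n + 1) → R (Fin n) := Fin.cons 0 (gw (del L))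
  have hxL : x ∈ Pt (R (Fin n)) L := lift_del hl hl0 (gx_mem (del L))
  have hwL : w ∈ Pt (R (Fin n)) (perp L) := by
    have h1 := gw_mem (del L)
    rw [perp_del] at h1
    exact Pt_con.1 h1
  have hNLd := noLoop_del hNL
  have hx0 : ∀ i, x i ≠ 0 := by
    intro i
    refine Fin.cases ?_ (fun j => ?_) i
    · intro h0
      have h1 : ∑ i : Fin n, algebraMap ℂ (R (Fin n)) (tl l i) * gx (del L) i = 0 := by
        have : x 0 = -∑ i : Fin n, algebraMap ℂ (R (Fin n)) (l i.succ) * gx (del L) i := rfl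
        rw [this, neg_eq_zero] at h0
        exact h0
      have h2 := gx_lin h1
      rw [perp_del, mem_con] at h2
      obtain ⟨v, hv, hv0⟩ := hL.v
      have h3 := (perp L).sub_mem hl h2 v hv
      rw [Fin.sum_univ_succ] at h3
      simp [tl_apply, hv0, hl0] at h3
    · exact hNLd j
  have : (RingHom.ker (sp x w : R (Fin (n + 1)) →ₐ[ℂ] R (Fin n))).IsPrime := RingHom.ker_isPrime _
  obtain ⟨V, k, fk, ak, φ, hp, hV, hker⟩ := exists_pl e he
    (RingHom.ker (sp x w : R (Fin (n + 1)) →ₐ[ℂ] R (Fin n)))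
  have hrx : ∀ i, rs φ (e (gx L i)) ≠ 0 := by
    intro i h0
    rw [hker, RingHom.mem_ker] at h0
    rw [sp_gx hxL] at h0
    exact hx0 i h0
  have hT : TDel L p N (fun i => rs φ (e (gx L i))) (fun i => rs φ (e (gw L i))) :=
    { hyp := h
      hx := hp.rs_Pt (Pt_map (gx_mem L) e) (fun i => hV _)
      hw := hp.rs_Pt (Pt_map (gw_mem L) e) (fun i => hV _)
      x0 := hrx
      w0 := by
        rw [hker, RingHom.mem_ker]
        rw [sp_gw hwL]
        rfl
      gen := gen_of_J h (fun i => rfl) (fun i => rfl) hxL hwL e hp hV hker }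
  intro y hy hyw f hf
  exact nd_of_red hp (fun i => hV _) (fun i => hV _)
    ⟨fun i => hrx i.succ, fun y hy hE f hf => hT.Q hL hy hE f hf⟩ hy hyw f hf

theorem nd_of_con (hL : NLC L) {p : MvPolynomial (Fin n) ℂ} {N : ℕ}
    (h : Hyp (con L) p N) (hC : NoLoop (con L)) : ND L := by
  intro K _ _ e he
  obtain ⟨v, hv, hv0⟩ := hL.v
  let x : Fin (n + 1) → R (Fin n) := Fin.cons 0 (gx (con L))
  let w : Fin (n + 1) → R (Fin n) :=
    Fin.cons (-∑ i : Fin n, algebraMap ℂ (R (Fin n)) (v i.succ) * gw (con L) i) (gw (con L))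
  have hxL : x ∈ Pt (R (Fin n)) L := Pt_con.1 (gx_mem (con L))
  have hwL : w ∈ Pt (R (Fin n)) (perp L) := by
    have h1 := gw_mem (con L)
    rw [perp_con] at h1
    exact lift_del (L := perp L) (l := v) (by rwa [perp_perp]) hv0 h1
  have : (RingHom.ker (sp x w : R (Fin (n + 1)) →ₐ[ℂ] R (Fin n))).IsPrime := RingHom.ker_isPrime _
  obtain ⟨V, k, fk, ak, φ, hp, hV, hker⟩ := exists_pl e he
    (RingHom.ker (sp x w : R (Fin (n + 1)) →ₐ[ℂ] R (Fin n)))
  have hrx : ∀ i : Fin n, rs φ (e (gx L i.succ)) ≠ 0 := by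
    intro i h0
    rw [hker, RingHom.mem_ker] at h0
    rw [sp_gx hxL] at h0
    exact hC i h0
  have hT : TCon L p N (fun i => rs φ (e (gx L i))) (fun i => rs φ (e (gw L i))) :=
    { hyp := h
      hx := hp.rs_Pt (Pt_map (gx_mem L) e) (fun i => hV _)
      hw := hp.rs_Pt (Pt_map (gw_mem L) e) (fun i => hV _)
      xs := hrx
      x0 := by
        rw [hker, RingHom.mem_ker]
        rw [sp_gx hxL]
        rfl
      gen := gen_of_J h (fun i => rfl) (fun i => rfl) hxL hwL e hp hV hker }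
  intro y hy hyw f hf
  exact nd_of_red hp (fun i => hV _) (fun i => hV _)
    ⟨hrx, fun y hy hE f hf => hT.Q hL hC hy hE f hf⟩ hy hyw f hf

end

end Pool.Agent.H72R
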