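import Pool.Agent.H72R.Main

/-!
The dual variety of a reciprocal linear space: the tangent spaces, and the vanishing ideal of the tangent
hyperplanes is `J L`.
-/

set_option autoImplicit false
set_option linter.unusedSectionVars false

open MvPolynomial Module

namespace Pool.Agent.H72R

section

variable {n : ℕ}

/-- the affine cone over `{x⁻¹ : x ∈ L ∩ T}` -/
def rp (L : Submodule ℂ (Fin (n + 1) → ℂ)) : Set (Fin (n + 1) → ℂ) :=
  {y | ∃ x ∈ L, (∀ i, x i ≠ 0) ∧ y = fun i => (x i)⁻¹}

/-- tangent spaces of the cone over `L⁻¹` -/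
def tg (L : Submodule ℂ (Fin (n + 1) → ℂ)) (y : Fin (n + 1) → ℂ) :
    Submodule ℂ (Fin (n + 1) → ℂ) where
  carrier := {v | ∀ f ∈ vanishingIdeal ℂ (rp L), ∑ i, aeval y (pderiv i f) * v i = 0}
  add_mem' := by
    intro a b ha hb f hf
    simp only [Pi.add_apply, mul_add, Finset.sum_add_distrib, ha f hf, hb f hf, add_zero]
  zero_mem' := by
    intro f _
    simp
  smul_mem' := by
    intro c a ha f hf
    have : ∑ i, aeval y (pderiv i f) * (c • a) i = c * ∑ i, aeval y (pderiv i f) * a i := by
      rw [Finset.mul_sum]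
      refine Finset.sum_congr rfl fun i _ => ?_
      simp only [Pi.smul_apply, smul_eq_mul]
      ring
    rw [this, ha f hf, mul_zero]

/-- the affine cone over the set of hyperplanes tangent to `L⁻¹` at a point with tangent space of dimension `r` -/
def th (L : Submodule ℂ (Fin (n + 1) → ℂ)) (r : ℕ) : Set (Fin (n + 1) → ℂ) :=
  {u | ∃ y ∈ zeroLocus ℂ (vanishingIdeal ℂ (rp L)), y ≠ 0 ∧ finrank ℂ (tg L y) = r ∧
    ∀ v ∈ tg L y, ∑ i, u i * v i = 0}

variable {L : Submodule ℂ (Fin (n + 1) → ℂ)}

theorem hasDeriv_aeval (c : ℂ → Fin (n + 1) → ℂ) (c' : Fin (n + 1) → ℂ) (s : ℂ)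
    (h : ∀ i, HasDerivAt (fun t => c t i) (c' i) s) (f : MvPolynomial (Fin (n + 1)) ℂ) :
    HasDerivAt (fun t => aeval (c t) f) (∑ i, aeval (c s) (pderiv i f) * c' i) s := by
  induction f using MvPolynomial.induction_on with
  | C a =>
    simp only [algHom_C, pderiv_C, map_zero, zero_mul, Finset.sum_const_zero]
    exact hasDerivAt_const s _
  | add p q hp hq =>
    simp only [map_add, add_mul, Finset.sum_add_distrib]
    exact hp.add hq
  | mul_X p j hp =>
    have h1 := hp.mul (h j)
    have h2 : ∑ i, aeval (c s) (pderiv i (p * X j)) * c' i =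
        (∑ i, aeval (c s) (pderiv i p) * c' i) * c s j + aeval (c s) p * c' j := by
      simp only [pderiv_mul, pderiv_X, map_add, map_mul, aeval_X, add_mul, Finset.sum_add_distrib]
      have h3 : ∑ i, aeval (c s) p * aeval (c s) ((Pi.single i (1 : MvPolynomial (Fin (n + 1)) ℂ) :
          Fin (n + 1) → MvPolynomial (Fin (n + 1)) ℂ) j) * c' i = aeval (c s) p * c' j := by
        rw [Finset.sum_eq_single j]
        · simp
        · intro i _ hij
          rw [Pi.single_eq_of_ne (Ne.symm hij)]
          simp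
        · simp
      rw [h3, Finset.sum_mul]
      congr 1
      refine Finset.sum_congr rfl fun i _ => ?_
      ring
    rw [h2]
    simp only [map_mul, aeval_X]
    exact h1

theorem curve_deriv (x a : Fin (n + 1) → ℂ) (hx0 : ∀ i, x i ≠ 0) (i : Fin (n + 1)) :
    HasDerivAt (fun s : ℂ => (x i + s * a i)⁻¹) (-(a i) / (x i) ^ 2) 0 := by
  have h1 : HasDerivAt (fun s : ℂ => x i + s * a i) (a i) 0 := by
    have := ((hasDerivAt_id (0 : ℂ)).mul_const (a i)).const_add (x i)
    simpa using this
  have h2 := h1.fun_inv (by simpa using hx0 i)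
  simpa using h2

/-- the velocity of the curve `(x + s a)⁻¹` is a tangent vector -/
theorem tg_of_mem {x a : Fin (n + 1) → ℂ} (hx : x ∈ L) (ha : a ∈ L) (hx0 : ∀ i, x i ≠ 0)
    {f : MvPolynomial (Fin (n + 1)) ℂ} (hf : f ∈ vanishingIdeal ℂ (rp L)) :
    ∑ i, aeval (fun i => (x i)⁻¹) (pderiv i f) * (-(a i) / (x i) ^ 2) = 0 := by
  have h1 := hasDeriv_aeval (fun s i => (x i + s * a i)⁻¹) (fun i => -(a i) / (x i) ^ 2) 0
    (fun i => curve_deriv x a hx0 i) f
  have h2 : ∀ᶠ s in nhds (0 : ℂ), aeval (fun i => (x i + s * a i)⁻¹) f = 0 := by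
    have h3 : ∀ i, ∀ᶠ s in nhds (0 : ℂ), x i + s * a i ≠ 0 := by
      intro i
      have hc : ContinuousAt (fun s : ℂ => x i + s * a i) 0 := by fun_prop
      apply hc.eventually_ne
      simpa using hx0 i
    have h4 : ∀ᶠ s in nhds (0 : ℂ), ∀ i, x i + s * a i ≠ 0 := Filter.eventually_all.2 h3
    filter_upwards [h4] with s hs
    apply hf
    refine ⟨x + s • a, L.add_mem hx (L.smul_mem s ha), ?_, ?_⟩
    · intro i
      exact hs i
    · rfl
  have h3 : HasDerivAt (fun s : ℂ => aeval (fun i => (x i + s * a i)⁻¹) f) 0 0 := by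
    have h4 : HasDerivAt (fun _ : ℂ => (0 : ℂ)) 0 0 := hasDerivAt_const 0 0
    exact h4.congr_of_eventuallyEq h2
  have h4 := h1.unique h3
  simpa using h4

/-- the circuit polynomials -/
noncomputable def circ (l : Fin (n + 1) → ℂ) : MvPolynomial (Fin (n + 1)) ℂ :=
  ∑ i, C (l i) * ∏ j ∈ Finset.univ.erase i, X j

theorem aeval_circ (l : Fin (n + 1) → ℂ) {A : Type} [CommRing A] [Algebra ℂ A]
    (y x : Fin (n + 1) → A) (hxy : ∀ i, y i * x i = 1) :
    aeval y (circ l) = (∏ j, y j) * ∑ i, algebraMap ℂ A (l i) * x i := by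
  unfold circ
  simp only [map_sum, map_mul, algHom_C, map_prod, aeval_X]
  rw [Finset.mul_sum]
  refine Finset.sum_congr rfl fun i _ => ?_
  rw [← Finset.mul_prod_erase Finset.univ y (Finset.mem_univ i)]
  calc algebraMap ℂ A (l i) * ∏ j ∈ Finset.univ.erase i, y j
      = (y i * x i) * (algebraMap ℂ A (l i) * ∏ j ∈ Finset.univ.erase i, y j) := by
        rw [hxy i, one_mul]
    _ = y i * (∏ j ∈ Finset.univ.erase i, y j) * (algebraMap ℂ A (l i) * x i) := by ring

theorem circ_mem {l : Fin (n + 1) → ℂ} (hl : l ∈ perp L) : circ l ∈ vanishingIdeal ℂ (rp L) := by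
  rintro y ⟨x, hx, hx0, rfl⟩
  rw [aeval_circ l (fun i => (x i)⁻¹) x (fun i => inv_mul_cancel₀ (hx0 i))]
  have : ∑ i, algebraMap ℂ ℂ (l i) * x i = 0 := by
    rw [← hl x hx]
    exact Finset.sum_congr rfl fun i _ => mul_comm _ _
  rw [this, mul_zero]

theorem tg_iff {x v : Fin (n + 1) → ℂ} (hx : x ∈ L) (hx0 : ∀ i, x i ≠ 0) :
    v ∈ tg L (fun i => (x i)⁻¹) ↔ (fun i => x i ^ 2 * v i) ∈ L := by
  constructor
  · intro h
    rw [← perp_perp L]
    intro l hl
    have h1 := h _ (circ_mem hl)
    -- dual numbers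
    have h2 := aeval_dn (fun i => (x i)⁻¹) v (circ l)
    rw [h1] at h2
    have h3 := aeval_circ l (fun i => dn ((x i)⁻¹) (v i)) (fun i => dn (x i) (-(x i ^ 2 * v i)))
      (fun i => by
        have := hx0 i
        apply dn_ext
        · rw [fst_mul', fst_dn, fst_dn, TrivSqZeroExt.fst_one]
          field_simp
        · rw [snd_mul', fst_dn, fst_dn, snd_dn, snd_dn, TrivSqZeroExt.snd_one]
          field_simp
          ring)
    rw [h2] at h3
    have h4 : (∑ i, algebraMap ℂ (DualNumber ℂ) (l i) * dn (x i) (-(x i ^ 2 * v i))) =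
        dn 0 (-∑ i, l i * (x i ^ 2 * v i)) := by
      have hc : ∀ c : ℂ, algebraMap ℂ (DualNumber ℂ) c = TrivSqZeroExt.inl c := fun c => rfl
      apply dn_ext
      · rw [TrivSqZeroExt.fst_sum, fst_dn, ← hl x hx]
        refine Finset.sum_congr rfl fun i _ => ?_
        rw [fst_mul', fst_dn, hc, TrivSqZeroExt.fst_inl, mul_comm]
      · rw [TrivSqZeroExt.snd_sum, snd_dn, ← Finset.sum_neg_distrib]
        refine Finset.sum_congr rfl fun i _ => ?_
        rw [snd_mul', snd_dn, fst_dn, hc, TrivSqZeroExt.fst_inl, TrivSqZeroExt.snd_inl]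
        ring
    rw [h4] at h3
    have h5 := congrArg TrivSqZeroExt.snd h3
    rw [snd_dn, snd_mul', snd_dn, fst_dn, zero_mul, add_zero] at h5
    have h6 : (∏ j, dn (x j)⁻¹ (v j)).fst = ∏ j, (x j)⁻¹ := by
      have h7 := map_prod (TrivSqZeroExt.fstHom ℂ ℂ ℂ) (fun j => dn (x j)⁻¹ (v j)) Finset.univ
      have h8 : ∀ z : DualNumber ℂ, TrivSqZeroExt.fstHom ℂ ℂ ℂ z = z.fst := fun z => rfl
      rw [h8] at h7
      rw [h7]
      refine Finset.prod_congr rfl fun j _ => ?_
      rw [h8, fst_dn]
    rw [h6] at h5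
    have h7 : ∏ j, (x j)⁻¹ ≠ 0 := Finset.prod_ne_zero_iff.2 fun j _ => inv_ne_zero (hx0 j)
    have h8 := (mul_eq_zero.1 h5.symm).resolve_left h7
    rw [neg_eq_zero] at h8
    exact h8
  · intro h f hf
    have h1 := tg_of_mem (L := L) hx (L.smul_mem (-1) h) hx0 hf
    rw [← h1]
    refine Finset.sum_congr rfl fun i _ => ?_
    have := hx0 i
    simp only [Pi.smul_apply, smul_eq_mul]
    field_simp

theorem finrank_tg {x : Fin (n + 1) → ℂ} (hx : x ∈ L) (hx0 : ∀ i, x i ≠ 0) :
    finrank ℂ (tg L (fun i => (x i)⁻¹)) = finrank ℂ L := by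
  let m : (Fin (n + 1) → ℂ) ≃ₗ[ℂ] (Fin (n + 1) → ℂ) :=
    { toFun := fun v i => x i ^ 2 * v i
      map_add' := by
        intro a b
        funext i
        simp only [Pi.add_apply]
        ring
      map_smul' := by
        intro c a
        funext i
        simp only [Pi.smul_apply, smul_eq_mul, RingHom.id_apply]
        ring
      invFun := fun v i => (x i ^ 2)⁻¹ * v i
      left_inv := by
        intro v
        funext i
        have := hx0 i
        field_simp
      right_inv := by
        intro v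
        funext i
        have := hx0 i
        field_simp }
  have h1 : (tg L (fun i => (x i)⁻¹)).map (m : (Fin (n + 1) → ℂ) →ₗ[ℂ] (Fin (n + 1) → ℂ)) = L := by
    ext v
    constructor
    · rintro ⟨u, hu, rfl⟩
      exact (tg_iff hx hx0).1 hu
    · intro hv
      refine ⟨m.symm v, ?_, ?_⟩
      · apply (tg_iff hx hx0).2
        have : (fun i => x i ^ 2 * m.symm v i) = v := m.apply_symm_apply v
        rw [this]
        exact hv
      · exact m.apply_symm_apply v
  conv_rhs => rw [← h1]
  exact (LinearEquiv.finrank_map_eq m _).symm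

/-- the gradients of the elements of the ideal -/
def gr (L : Submodule ℂ (Fin (n + 1) → ℂ)) (y : Fin (n + 1) → ℂ) : Submodule ℂ (Fin (n + 1) → ℂ) where
  carrier := {u | ∃ f ∈ vanishingIdeal ℂ (rp L), ∀ i, u i = aeval y (pderiv i f)}
  add_mem' := by
    rintro a b ⟨f, hf, ha⟩ ⟨g, hg, hb⟩
    refine ⟨f + g, Ideal.add_mem _ hf hg, fun i => ?_⟩
    rw [Pi.add_apply, ha, hb, map_add, map_add]
  zero_mem' := ⟨0, Ideal.zero_mem _, fun i => by simp⟩
  smul_mem' := by
    rintro c a ⟨f, hf, ha⟩
    refine ⟨C c * f, Ideal.mul_mem_left _ _ hf, fun i => ?_⟩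
    rw [Pi.smul_apply, ha, pderiv_C_mul, map_mul, algHom_C]
    rfl

theorem tg_eq_perp (y : Fin (n + 1) → ℂ) : tg L y = perp (gr L y) := by
  ext v
  constructor
  · rintro h u ⟨f, hf, hu⟩
    rw [← h f hf]
    exact Finset.sum_congr rfl fun i _ => by rw [hu i]
  · intro h f hf
    exact h _ ⟨f, hf, fun i => rfl⟩

theorem van_th (hL : NoLoop L) : vanishingIdeal ℂ (th L (finrank ℂ L)) = J L := by
  apply le_antisymm
  · intro g hg
    rw [mem_J]
    have h1 : (∏ i, gx L i) * aeval (gu L) g = 0 := by
      apply MvPolynomial.funext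
      intro s
      rw [map_mul, map_zero, map_prod]
      -- the specialization
      let a : Fin (n + 1) → ℂ := fun i => eval s (gx L i)
      let b : Fin (n + 1) → ℂ := fun i => eval s (gw L i)
      let es : R (Fin (n + 1)) →ₐ[ℂ] ℂ := aeval s
      have hes : ∀ q, es q = eval s q := fun q => by
        simp only [es, ← coe_aeval_eq_eval]
        rfl
      have ha : a ∈ L := by
        have h2 := Pt_map (gx_mem L) es
        rw [← perp_perp L]
        intro l hl
        have h3 := h2 l hl
        rw [← h3]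
        refine Finset.sum_congr rfl fun i _ => ?_
        show l i * eval s (gx L i) = l i * es (gx L i)
        rw [hes]
      have hb : b ∈ perp L := by
        have h2 := Pt_map (gw_mem L) es
        intro l hl
        have h3 := mem_Pt_perp.1 h2 l hl
        rw [← h3]
        refine Finset.sum_congr rfl fun i _ => ?_
        show l i * eval s (gw L i) = l i * es (gw L i)
        rw [hes]
      by_cases h0 : ∀ i, a i ≠ 0
      · have h2 : (fun i => a i ^ 2 * b i) ∈ th L (finrank ℂ L) := by
          refine ⟨fun i => (a i)⁻¹, ?_, ?_, finrank_tg ha h0, ?_⟩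
          · intro f hf
            exact hf _ ⟨a, ha, h0, rfl⟩
          · intro h3
            have := congrFun h3 0
            simp only [Pi.zero_apply, inv_eq_zero] at this
            exact h0 0 this
          · intro v hv
            have h3 := (tg_iff ha h0).1 hv
            have h4 := hb _ h3
            rw [← h4]
            refine Finset.sum_congr rfl fun i _ => ?_
            ring
        have h3 := hg _ h2
        have h4 : eval s (aeval (gu L) g) = aeval (fun i => a i ^ 2 * b i) g := by
          rw [← hes, ← AlgHom.comp_apply, comp_aeval]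
          congr 2
          funext i
          rw [hes]
          unfold gu
          rw [map_mul, map_pow]
        rw [h4, h3, mul_zero]
      · push Not at h0
        obtain ⟨i, hi⟩ := h0
        rw [Finset.prod_eq_zero (Finset.mem_univ i) hi, zero_mul]
    exact (mul_eq_zero.1 h1).resolve_left (Finset.prod_ne_zero_iff.2 fun i _ => hL i)
  · rintro g hg u ⟨y, hy, -, -, hu⟩
    have h1 : u ∈ gr L y := by
      rw [← perp_perp (gr L y), ← tg_eq_perp]
      intro v hv
      rw [← hu v hv]
      exact Finset.sum_congr rfl fun i _ => mul_comm _ _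
    obtain ⟨f, hf, hfu⟩ := h1
    have h2 : aeval (fun i => pderiv i f) g ∈ vanishingIdeal ℂ (rp L) := by
      rintro y' ⟨x, hx, hx0, rfl⟩
      rw [← AlgHom.comp_apply, comp_aeval]
      let w : Fin (n + 1) → ℂ := fun i => (x i ^ 2)⁻¹ * aeval (fun i => (x i)⁻¹) (pderiv i f)
      have hw : w ∈ perp L := by
        intro a ha
        have h3 := tg_of_mem hx ha hx0 hf
        have h4 : ∑ i, a i * w i = -∑ i, aeval (fun i => (x i)⁻¹) (pderiv i f) *
            (-(a i) / (x i) ^ 2) := by
          rw [← Finset.sum_neg_distrib]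
          refine Finset.sum_congr rfl fun i _ => ?_
          simp only [w]
          have := hx0 i
          field_simp
        rw [h4, h3, neg_zero]
      have h3 := J_eval (A := ℂ) (x := x) (w := w) (Pt_const (A := ℂ) hx) (Pt_const (A := ℂ) hw) hg
      rw [← h3]
      congr 2
      funext i
      have := hx0 i
      simp only [w]
      field_simp
    have h3 := hy _ h2
    rw [← AlgHom.comp_apply, comp_aeval] at h3
    rw [← h3]
    congr 2
    funext i
    exact hfu i

end

end Pool.Agent.H72R
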