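import Pool.Agent.H72R.Red

/-!
Homogeneity of `J L`.
-/

set_option autoImplicit false
set_option linter.unusedSectionVars false

open MvPolynomial

namespace Pool.Agent.H72R

section

variable {ι : Type} [Fintype ι]

theorem aeval_smul_hom {A : Type} [CommRing A] [Algebra ℂ A] (c : A) (u : ι → A)
    {h : MvPolynomial ι ℂ} {m : ℕ} (hh : h.IsHomogeneous m) :
    aeval (fun i => c * u i) h = c ^ m * aeval u h := by
  rw [aeval_def, aeval_def, eval₂_eq', eval₂_eq', Finset.mul_sum]
  refine Finset.sum_congr rfl fun d hd => ?_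
  have h1 : d.degree = m := by
    by_contra hne
    exact (mem_support_iff.1 hd) (hh.coeff_eq_zero hne)
  have h2 : ∏ i, (c * u i) ^ d i = c ^ m * ∏ i, u i ^ d i := by
    simp only [mul_pow]
    rw [Finset.prod_mul_distrib, Finset.prod_pow_eq_pow_sum, ← h1, Finsupp.degree_eq_sum]
  rw [h2]
  ring

variable [DecidableEq ι] {L : Submodule ℂ (ι → ℂ)}

theorem aeval_scale {A B : Type} [CommRing A] [Algebra ℂ A] [CommRing B] [Algebra ℂ B] (cst : A →ₐ[ℂ] B)
    (T : B) (u : ι → A) (g : MvPolynomial ι ℂ) :
    aeval (fun i => T * cst (u i)) g =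
      ∑ j ∈ Finset.range (g.totalDegree + 1), T ^ j * cst (aeval u (homogeneousComponent j g)) := by
  have key : ∀ j, aeval (fun i => T * cst (u i)) (homogeneousComponent j g) =
      T ^ j * cst (aeval u (homogeneousComponent j g)) := by
    intro j
    have h1 := aeval_smul_hom T (fun i => cst (u i)) (homogeneousComponent_isHomogeneous j g)
    rw [h1]
    congr 1
    rw [← AlgHom.comp_apply, comp_aeval]
  conv_lhs => rw [← sum_homogeneousComponent g]
  rw [map_sum]
  exact Finset.sum_congr rfl fun j _ => key j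

/-- constants in the polynomial ring -/
noncomputable def cstA (A : Type) [CommRing A] [Algebra ℂ A] : A →ₐ[ℂ] Polynomial A :=
  (Polynomial.CAlgHom : A →ₐ[A] Polynomial A).restrictScalars ℂ

theorem cstA_apply {A : Type} [CommRing A] [Algebra ℂ A] (a : A) : cstA A a = Polynomial.C a := rfl

theorem coeff_scale {A : Type} [CommRing A] [Algebra ℂ A] (u : ι → A) (g : MvPolynomial ι ℂ)
    (h : aeval (fun i => Polynomial.X * cstA A (u i)) g = 0) (m : ℕ) :
    aeval u (homogeneousComponent m g) = 0 := by
  rw [aeval_scale] at h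
  by_cases hm : m < g.totalDegree + 1
  · have h4 := congrArg (fun q => Polynomial.coeff q m) h
    simp only [Polynomial.finsetSum_coeff, Polynomial.coeff_zero] at h4
    rw [Finset.sum_eq_single m] at h4
    · rwa [mul_comm, cstA_apply, Polynomial.coeff_C_mul, Polynomial.coeff_X_pow_self, mul_one] at h4
    · intro j _ hj
      rw [mul_comm, cstA_apply, Polynomial.coeff_C_mul, Polynomial.coeff_X_pow, if_neg (Ne.symm hj),
        mul_zero]
    · intro hm'
      exact absurd (Finset.mem_range.2 hm) hm'
  · rw [homogeneousComponent_eq_zero _ _ (by omega), map_zero]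

theorem J_hom {g : MvPolynomial ι ℂ} (hg : g ∈ J L) (m : ℕ) : homogeneousComponent m g ∈ J L := by
  let cst := cstA (R ι)
  have hx : (fun i => cst (gx L i)) ∈ Pt (Polynomial (R ι)) L := Pt_map (gx_mem L) cst
  have hw0 : (fun i => cst (gw L i)) ∈ Pt (Polynomial (R ι)) (perp L) := Pt_map (gw_mem L) cst
  have hw : (fun i => Polynomial.X * cst (gw L i)) ∈ Pt (Polynomial (R ι)) (perp L) :=
    (Pt (Polynomial (R ι)) (perp L)).smul_mem Polynomial.X hw0
  have h1 := J_eval hx hw hg
  have h2 : (fun i => cst (gx L i) ^ 2 * (Polynomial.X * cst (gw L i))) =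
      fun i => Polynomial.X * cst (gu L i) := by
    funext i
    unfold gu
    rw [map_mul, map_pow]
    ring
  rw [h2] at h1
  exact coeff_scale (gu L) g h1 m

/-- a generator of `J L` is homogeneous -/
theorem gen_hom {p : MvPolynomial ι ℂ} (hp0 : p ≠ 0) (hp : J L = Ideal.span {p}) :
    p.IsHomogeneous p.totalDegree := by
  have hpJ : p ∈ J L := by rw [hp]; exact Ideal.mem_span_singleton_self p
  have h1 := J_hom hpJ p.totalDegree
  rw [hp, Ideal.mem_span_singleton] at h1
  obtain ⟨q, hq⟩ := h1
  have hne : homogeneousComponent p.totalDegree p ≠ 0 := by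
    obtain ⟨d, hd1, hd2⟩ : ∃ d ∈ p.support, (d.sum fun _ e => e) = p.totalDegree := by
      have := Finset.exists_mem_eq_sup p.support (by
        rw [Finset.nonempty_iff_ne_empty, Ne, support_eq_empty]
        exact hp0) (fun s : ι →₀ ℕ => s.sum fun _ e => e)
      obtain ⟨d, hd1, hd2⟩ := this
      exact ⟨d, hd1, hd2.symm⟩
    intro h0
    have h2 := congrArg (coeff d) h0
    rw [coeff_homogeneousComponent, coeff_zero, if_pos] at h2
    · exact (mem_support_iff.1 hd1) h2
    · rw [← hd2]
      rfl
  have hq0 : q ≠ 0 := by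
    rintro rfl
    rw [mul_zero] at hq
    exact hne hq
  have h2 := congrArg totalDegree hq
  rw [totalDegree_mul_of_isDomain hp0 hq0,
    (homogeneousComponent_isHomogeneous p.totalDegree p).totalDegree hne] at h2
  have h3 : q.totalDegree = 0 := by omega
  rw [totalDegree_eq_zero_iff_eq_C] at h3
  rw [h3] at hq
  have hc : coeff 0 q ≠ 0 := by
    intro h0
    rw [h0, map_zero] at h3
    exact hq0 h3
  have h4 : p = C (coeff 0 q)⁻¹ * homogeneousComponent p.totalDegree p := by
    rw [hq]
    calc p = (C (coeff 0 q)⁻¹ * C (coeff 0 q)) * p := by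
          rw [← C_mul, inv_mul_cancel₀ hc, C_1, one_mul]
      _ = C (coeff 0 q)⁻¹ * (p * C (coeff 0 q)) := by ring
  rw [h4]
  have h5 := (homogeneousComponent_isHomogeneous p.totalDegree p).C_mul (coeff 0 q)⁻¹
  rw [← h4]
  rw [← h4] at h5
  exact h5

end

end Pool.Agent.H72R
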