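import Pool.Agent.H72R.Ord

/-!
The irreducible factors of the constant term of the generator.
-/

set_option autoImplicit false
set_option linter.unusedSectionVars false

open MvPolynomial

namespace Pool.Agent.H72R

section

variable {n : ℕ} {L : Submodule ℂ (Fin (n + 1) → ℂ)}

theorem del_ne_con (hL : NLC L) : del L ≠ con L := by
  intro h
  obtain ⟨v, hv, hv0⟩ := hL.v
  obtain ⟨l, hl, hl0⟩ := hL.l
  have h1 : tl v ∈ con L := by
    rw [← h]
    exact mem_del.2 ⟨v, hv, fun _ => rfl⟩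
  rw [mem_con] at h1
  have h2 := hl _ (L.sub_mem hv h1)
  rw [Fin.sum_univ_succ] at h2
  simp [tl_apply, hv0, hl0] at h2

variable {K k : Type} [Field K] [Algebra ℂ K] [Field k] [Algebra ℂ k] {V : ValuationSubring K}
  {φ : V →+* k}

theorem root_mem {e : MvPolynomial (Fin n) ℂ →ₐ[ℂ] K} (hV : ∀ a, e a ∈ V)
    {D : MvPolynomial (Fin (n + 1)) ℂ} (hm : (finSuccEquiv ℂ n D).Monic) {a : K}
    (ha : Polynomial.eval₂ (e : MvPolynomial (Fin n) ℂ →+* K) a (finSuccEquiv ℂ n D) = 0) : a ∈ V := by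
  let ψ : MvPolynomial (Fin n) ℂ →+* V :=
    (e : MvPolynomial (Fin n) ℂ →+* K).codRestrict V.toSubring hV
  have h1 : IsIntegral V a := by
    refine ⟨(finSuccEquiv ℂ n D).map ψ, hm.map ψ, ?_⟩
    rw [Polynomial.eval₂_map, ← ha]
    rfl
  obtain ⟨y, hy⟩ := (IsIntegrallyClosed.isIntegral_iff (K := K)).1 h1
  rw [← hy]
  exact y.2

/-- the data of a place over a factor of the constant term -/
structure Pla (L : Submodule ℂ (Fin (n + 1) → ℂ)) (D : MvPolynomial (Fin (n + 1)) ℂ) (N : ℕ)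
    (p : MvPolynomial (Fin n) ℂ) (e : MvPolynomial (Fin n) ℂ →ₐ[ℂ] K) (φ : V →+* k) : Prop where
  nlc : NLC L
  nl : NoLoop L
  hD : Hyp L D N
  hm : (finSuccEquiv ℂ n D).Monic
  he : Function.Injective e
  hp : Irreducible p
  dvd : p ∣ c0 D
  pl : IsPl V φ
  hV : ∀ a, e a ∈ V
  ker : ∀ a, rs φ (e a) = 0 ↔ p ∣ a

variable {D : MvPolynomial (Fin (n + 1)) ℂ} {N : ℕ} {p : MvPolynomial (Fin n) ℂ}
  {e : MvPolynomial (Fin n) ℂ →ₐ[ℂ] K}

/-- the point `(a, u')` -/
noncomputable def pt (e : MvPolynomial (Fin n) ℂ →ₐ[ℂ] K) (a : K) : Fin (n + 1) → K := Fin.cons a fun i => e (X i)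

theorem aeval_e (e : MvPolynomial (Fin n) ℂ →ₐ[ℂ] K) (g : MvPolynomial (Fin n) ℂ) :
    aeval (fun i : Fin n => e (X i)) g = e g := by
  have he' : (aeval fun i : Fin n => e (X i) : MvPolynomial (Fin n) ℂ →ₐ[ℂ] K) = e := by
    apply MvPolynomial.algHom_ext
    intro i
    rw [aeval_X]
  rw [he']

theorem Pla.gen (h : Pla L D N p e φ) : Gen p fun i : Fin n => rs φ (e (X i)) := by
  intro g hg
  rw [← h.pl.rs_aeval (fun i => h.hV _), aeval_e, h.ker] at hg
  exact hg

theorem Pla.root_SP (h : Pla L D N p e φ) (f : Fin n) {a : K}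
    (ha : Polynomial.eval₂ (e : MvPolynomial (Fin n) ℂ →+* K) a (finSuccEquiv ℂ n D) = 0)
    (ha0 : rs φ a = 0) : ∃ x w : Fin (n + 1) → K, SP L V (pt e a) x w f := by
  have h1 := root_dvd e h.he h.hD.irr h.hm ha
  obtain ⟨h2, h3, h4⟩ := h.hD.point h.nl h1
  have hx0 : ∀ i, (aeval (Fin.cons a fun i => e (X i) : Fin (n + 1) → K) (pderiv i D))⁻¹ ≠ 0 :=
    fun i => inv_ne_zero (h2 i)
  have huV : ∀ i, (Fin.cons a fun i => e (X i) : Fin (n + 1) → K) i ∈ V := by
    intro i
    refine Fin.cases ?_ (fun j => ?_) i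
    · rw [Fin.cons_zero]
      exact root_mem h.hV h.hm ha
    · rw [Fin.cons_succ]
      exact h.hV _
  have he : ∀ i, (aeval (Fin.cons a fun i => e (X i) : Fin (n + 1) → K) (pderiv i D))⁻¹ ^ 2 *
      ((Fin.cons a fun i => e (X i) : Fin (n + 1) → K) i *
        aeval (Fin.cons a fun i => e (X i) : Fin (n + 1) → K) (pderiv i D) ^ 2) =
      (Fin.cons a fun i => e (X i) : Fin (n + 1) → K) i := by
    intro i
    have := h2 i
    field_simp
  refine exists_SP h.pl h.nlc h3 h4 hx0 he huV ?_ f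
  intro i j
  refine levels (V := V) (φ := φ) h.pl h3 h4 hx0 (fun i => ?_) ?_ h.hp ?_ i j
  · rw [he i]
    exact huV i
  · rw [he 0, Fin.cons_zero]
    exact ha0
  · have h5 : (fun i : Fin n => rs φ ((aeval (Fin.cons a fun i => e (X i) : Fin (n + 1) → K)
        (pderiv i.succ D))⁻¹ ^ 2 * ((Fin.cons a fun i => e (X i) : Fin (n + 1) → K) i.succ *
        aeval (Fin.cons a fun i => e (X i) : Fin (n + 1) → K) (pderiv i.succ D) ^ 2))) =
        fun i : Fin n => rs φ (e (X i)) := by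
      funext i
      rw [he i.succ, Fin.cons_succ]
    rw [h5]
    exact h.gen

/-- the induction hypothesis -/
def IHyp (n : ℕ) : Prop := ∀ M : Submodule ℂ (Fin n → ℂ), NoLoop M → NoSep M →
  ∃ (q : MvPolynomial (Fin n) ℂ) (N : ℕ), Hyp M q N

theorem Pla.to_del (h : Pla L D N p e φ) (ih : IHyp n) {f : Fin n} {a : K} (ha0 : rs φ a = 0)
    {x w : Fin (n + 1) → K} (hS : SP L V (pt e a) x w f) (hx0 : rs φ (x 0) ≠ 0) :
    ∃ N', Hyp (del L) p N' := by
  have h1 := hS.del_dvd h.pl (p := p) (by simpa [pt] using ha0) hx0 (by simpa [pt] using h.gen)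
  obtain ⟨q, N', hq⟩ := ih (del L) (noLoop_del h.nl) (noSep_of_J h.hp h1)
  have hDJ : D ∈ J L := h.hD.mem_iff.2 dvd_rfl
  exact ⟨N', hq.congr h.hp (J_eq h.hp h1 (c0_mem_del h.nlc hDJ) (c0_ne_zero h.nlc h.nl h.hD.irr hDJ))⟩

theorem Pla.to_con (h : Pla L D N p e φ) (ih : IHyp n) {f : Fin n} {a : K}
    {x w : Fin (n + 1) → K} (hS : SP L V (pt e a) x w f) (hx0 : rs φ (x 0) = 0) :
    NoLoop (con L) ∧ ∃ N', Hyp (con L) p N' := by
  have h1 := hS.con_dvd h.pl (p := p) hx0 (by simpa [pt] using h.gen)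
  have h2 := hS.noLoop_con h.pl hx0
  obtain ⟨q, N', hq⟩ := ih (con L) h2 (noSep_of_J h.hp h1)
  have hDJ : D ∈ J L := h.hD.mem_iff.2 dvd_rfl
  exact ⟨h2, N', hq.congr h.hp
    (J_eq h.hp h1 (c0_mem_con h.nlc hDJ) (c0_ne_zero h.nlc h.nl h.hD.irr hDJ))⟩

theorem Pla.not_both (h : Pla L D N p e φ) {N₁ N₂ : ℕ} (h1 : Hyp (del L) p N₁)
    (h2 : Hyp (con L) p N₂) (h3 : NoLoop (con L)) : False := by
  apply del_ne_con h.nlc
  exact h1.eq_of_J h2 (noLoop_del h.nl) h3 (by rw [h1.gen, h2.gen])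

theorem pt_gen (h : Pla L D N p e φ) (a : K) : Gen p fun i : Fin n => rs φ (pt e a i.succ) := h.gen

/-- the valuation of the constant term is that of the unique small root -/
theorem Pla.val_c0 [IsAlgClosed K] (h : Pla L D N p e φ) {a : K}
    (ha : Polynomial.eval₂ (e : MvPolynomial (Fin n) ℂ →+* K) a (finSuccEquiv ℂ n D) = 0)
    (huniq : ∀ b : K, Polynomial.eval₂ (e : MvPolynomial (Fin n) ℂ →+* K) b (finSuccEquiv ℂ n D) = 0 →
      rs φ b = 0 → b = a) : V.valuation (e (c0 D)) = V.valuation a := by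
  let Dt : Polynomial K := (finSuccEquiv ℂ n D).map (e : MvPolynomial (Fin n) ℂ →+* K)
  have hDt : Dt.Monic := h.hm.map _
  have hroot : Dt.IsRoot a := by
    rw [Polynomial.IsRoot, Polynomial.eval_map]
    exact ha
  obtain ⟨Q, hQ⟩ := Polynomial.dvd_iff_isRoot.2 hroot
  have hQm : Q.Monic := by
    rw [hQ] at hDt
    exact (Polynomial.monic_X_sub_C a).of_mul_monic_left hDt
  have hder : Polynomial.eval a Q ≠ 0 := by
    intro h0
    have h1 := root_dvd e h.he h.hD.irr h.hm ha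
    obtain ⟨h2, -, -⟩ := h.hD.point h.nl h1
    apply h2 0
    have h3 := eval_finSucc (Fin.cons a fun i => e (X i) : Fin (n + 1) → K) (pderiv 0 D)
    rw [h3, finSucc_pderiv]
    simp only [Fin.cons_zero, Fin.cons_succ]
    have he' : (aeval fun i : Fin n => e (X i) : MvPolynomial (Fin n) ℂ →ₐ[ℂ] K) = e := by
      apply MvPolynomial.algHom_ext
      intro i
      rw [aeval_X]
    rw [he', ← Polynomial.eval_map, ← Polynomial.derivative_map]
    show Polynomial.eval a (Polynomial.derivative Dt) = 0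
    rw [hQ, Polynomial.derivative_mul]
    simp [h0]
  have hc : Dt.coeff 0 = e (c0 D) := by
    simp only [Dt, Polynomial.coeff_map]
    rfl
  rw [← hc, hQ, Polynomial.mul_coeff_zero, map_mul]
  have h2 : V.valuation (Q.coeff 0) = 1 := by
    apply val_coeff_zero V hQm
    intro b hb
    have hb1 : Polynomial.eval₂ (e : MvPolynomial (Fin n) ℂ →+* K) b (finSuccEquiv ℂ n D) = 0 := by
      rw [← Polynomial.eval_map]
      show Polynomial.eval b Dt = 0
      rw [hQ, Polynomial.eval_mul, hb, mul_zero]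
    have hbV : b ∈ V := root_mem h.hV h.hm hb1
    apply h.pl.unit hbV
    intro h0
    have := huniq b hb1 h0
    rw [this] at hb
    exact hder hb
  rw [h2, mul_one]
  simp [Valuation.map_neg]

theorem Pla.exists_root [IsAlgClosed K] (h : Pla L D N p e φ) :
    ∃ a : K, Polynomial.eval₂ (e : MvPolynomial (Fin n) ℂ →+* K) a (finSuccEquiv ℂ n D) = 0 ∧
      rs φ a = 0 := by
  by_contra hcon
  push Not at hcon
  have hDt : ((finSuccEquiv ℂ n D).map (e : MvPolynomial (Fin n) ℂ →+* K)).Monic := h.hm.map _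
  have h1 := val_coeff_zero V hDt (by
    intro b hb
    rw [Polynomial.IsRoot, Polynomial.eval_map] at hb
    exact h.pl.unit (root_mem h.hV h.hm hb) (hcon b hb))
  rw [Polynomial.coeff_map] at h1
  have h2 : rs φ (e (c0 D)) = 0 := (h.ker _).2 h.dvd
  rw [h.pl.rs_eq_zero (h.hV _)] at h2
  have h3 : V.valuation (e (c0 D)) = 1 := h1
  rw [h3] at h2
  exact lt_irrefl _ h2

theorem Pla.key [IsAlgClosed K] (h : Pla L D N p e φ) (ih : IHyp n) (f : Fin n) :
    (∃ N', Hyp (del L) p N' ∧ ¬ p ^ 2 ∣ c0 D) ∨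
      (∃ N', Hyp (con L) p N' ∧ NoLoop (con L) ∧ p ^ 2 ∣ c0 D ∧ ¬ p ^ 3 ∣ c0 D) := by
  obtain ⟨a, ha, ha0⟩ := h.exists_root
  obtain ⟨x, w, hS⟩ := h.root_SP f ha ha0
  have hep : e p ≠ 0 := fun h0 => h.hp.ne_zero (h.he (by rw [h0, map_zero]))
  have hvp0 : V.valuation (e p) ≠ 0 := (V.valuation.ne_zero_iff).2 hep
  have hvp1 : V.valuation (e p) < 1 := (h.pl.rs_eq_zero (h.hV _)).1 ((h.ker p).2 dvd_rfl)
  have hvle : ∀ r, V.valuation (e r) ≤ 1 := fun r => (V.valuation_le_one_iff _).2 (h.hV r)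
  have hlt : ∀ m, V.valuation (e p) ^ (m + 1) < V.valuation (e p) ^ m := by
    intro m
    rw [pow_succ]
    calc V.valuation (e p) ^ m * V.valuation (e p) < V.valuation (e p) ^ m * 1 :=
          mul_lt_mul_of_pos_left hvp1 (pos_iff_ne_zero.2 (pow_ne_zero m hvp0))
      _ = _ := mul_one _
  have hdvd : ∀ m, p ^ m ∣ c0 D → V.valuation (e (c0 D)) ≤ V.valuation (e p) ^ m := by
    rintro m ⟨r, hr⟩
    rw [hr, map_mul, map_pow, map_mul, map_pow]
    exact mul_le_of_le_one_right' (hvle r)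
  by_cases hx0 : rs φ (x 0) = 0
  · -- type Con
    right
    obtain ⟨hC, N', hN'⟩ := h.to_con ih hS hx0
    have huniq : ∀ b : K, Polynomial.eval₂ (e : MvPolynomial (Fin n) ℂ →+* K) b
        (finSuccEquiv ℂ n D) = 0 → rs φ b = 0 → b = a := by
      intro b hb hb0
      obtain ⟨x', w', hS'⟩ := h.root_SP f hb hb0
      have hx0' : rs φ (x' 0) = 0 := by
        by_contra hne
        obtain ⟨N₁, hN₁⟩ := h.to_del ih hb0 hS' hne
        exact h.not_both hN₁ hN' hC
      have hT := hS.tcon h.pl hx0 hN' (pt_gen h a)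
      have hT' := hS'.tcon h.pl hx0' hN' (pt_gen h b)
      have hred : ∀ i : Fin n, rs φ (x i.succ) = rs φ (x' i.succ) := by
        intro i
        refine red_eq (f := f) hN' hT.xtail hT.wtail hT'.xtail hT'.wtail ?_ hT.gen hT.xs hS.rxf
          hS'.rxf i
        intro i
        rw [hS.re i.succ, hS'.re i.succ]
        rfl
      have := hS.uniq h.pl h.nlc hS' (fun i => rfl) hred
        ⟨hT.xs, fun y hy hE f hf => hT.Q h.nlc hC hy hE f hf⟩
      exact this.symm
    have h1 := h.val_c0 ha huniq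
    have h2 := hS.ord_con h.pl h.nlc hx0 hN' hC (pt_gen h a)
    have h3 : V.valuation (e (c0 D)) = V.valuation (e p) ^ 2 := by
      rw [h1]
      have h4 : aeval (fun i : Fin n => pt e a i.succ) p = e p := aeval_e e p
      rw [h4] at h2
      exact h2.symm
    refine ⟨N', hN', hC, ?_, ?_⟩
    · obtain ⟨r, hr⟩ := h.dvd
      by_cases hpr : p ∣ r
      · obtain ⟨s, hs⟩ := hpr
        exact ⟨s, by rw [hr, hs]; ring⟩
      · exfalso
        have h4 : V.valuation (e r) = 1 := h.pl.unit (h.hV r) (fun h0 => hpr ((h.ker r).1 h0))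
        rw [hr, map_mul, map_mul, h4, mul_one] at h3
        have h5 := hlt 1
        rw [pow_one] at h5
        rw [← h3] at h5
        exact lt_irrefl _ h5
    · intro h4
      have h5 := hdvd 3 h4
      rw [h3] at h5
      exact absurd (hlt 2) (not_lt.2 h5)
  · left
    obtain ⟨N', hN'⟩ := h.to_del ih ha0 hS hx0
    have huniq : ∀ b : K, Polynomial.eval₂ (e : MvPolynomial (Fin n) ℂ →+* K) b
        (finSuccEquiv ℂ n D) = 0 → rs φ b = 0 → b = a := by
      intro b hb hb0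
      obtain ⟨x', w', hS'⟩ := h.root_SP f hb hb0
      have hx0' : rs φ (x' 0) ≠ 0 := by
        intro hne
        obtain ⟨hC, N₁, hN₁⟩ := h.to_con ih hS' hne
        exact h.not_both hN' hN₁ hC
      have hT := hS.tdel h.pl ha0 hx0 hN' (pt_gen h a)
      have hT' := hS'.tdel h.pl hb0 hx0' hN' (pt_gen h b)
      have hred : ∀ i : Fin n, rs φ (x i.succ) = rs φ (x' i.succ) := by
        intro i
        refine red_eq (f := f) hN' hT.xtail hT.wtail hT'.xtail hT'.wtail ?_ hT.gen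
          (fun i => hT.x0 i.succ) hS.rxf hS'.rxf i
        intro i
        rw [hS.re i.succ, hS'.re i.succ]
        rfl
      have := hS.uniq h.pl h.nlc hS' (fun i => rfl) hred
        ⟨fun i => hT.x0 i.succ, fun y hy hE f hf => hT.Q h.nlc hy hE f hf⟩
      exact this.symm
    have h1 := h.val_c0 ha huniq
    have h2 := hS.ord_del h.pl h.nlc ha0 hx0 hN' (pt_gen h a)
    have h3 : V.valuation (e (c0 D)) = V.valuation (e p) := by
      rw [h1]
      have h4 : aeval (fun i : Fin n => pt e a i.succ) p = e p := aeval_e e p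
      rw [h4] at h2
      exact h2.symm
    refine ⟨N', hN', ?_⟩
    intro h4
    have h5 := hdvd 2 h4
    rw [h3] at h5
    have h6 := hlt 1
    rw [pow_one] at h6
    exact absurd h6 (not_lt.2 h5)

theorem key (hL : NLC L) (hNL : NoLoop L) (hD : Hyp L D N) (hm : (finSuccEquiv ℂ n D).Monic)
    (ih : IHyp n) (f : Fin n) (hp : Irreducible p) (hpA : p ∣ c0 D) :
    (∃ N', Hyp (del L) p N' ∧ ¬ p ^ 2 ∣ c0 D) ∨
      (∃ N', Hyp (con L) p N' ∧ NoLoop (con L) ∧ p ^ 2 ∣ c0 D ∧ ¬ p ^ 3 ∣ c0 D) := by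
  have he : Function.Injective (IsScalarTower.toAlgHom ℂ (MvPolynomial (Fin n) ℂ)
      (AlgebraicClosure (FractionRing (MvPolynomial (Fin n) ℂ)))) := by
    intro a b hab
    have h1 : algebraMap (FractionRing (MvPolynomial (Fin n) ℂ))
        (AlgebraicClosure (FractionRing (MvPolynomial (Fin n) ℂ)))
        (algebraMap (MvPolynomial (Fin n) ℂ) (FractionRing (MvPolynomial (Fin n) ℂ)) a) =
        algebraMap (FractionRing (MvPolynomial (Fin n) ℂ))
        (AlgebraicClosure (FractionRing (MvPolynomial (Fin n) ℂ)))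
        (algebraMap (MvPolynomial (Fin n) ℂ) (FractionRing (MvPolynomial (Fin n) ℂ)) b) := by
      rw [← IsScalarTower.algebraMap_apply, ← IsScalarTower.algebraMap_apply]
      exact hab
    exact IsFractionRing.injective (MvPolynomial (Fin n) ℂ) (FractionRing (MvPolynomial (Fin n) ℂ))
      ((algebraMap (FractionRing (MvPolynomial (Fin n) ℂ))
        (AlgebraicClosure (FractionRing (MvPolynomial (Fin n) ℂ)))).injective h1)
  have hprime : (Ideal.span {p}).IsPrime := (Ideal.span_singleton_prime hp.ne_zero).2 hp.prime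
  obtain ⟨V, k, fk, ak, φ, hpl, hV, hker⟩ := exists_pl _ he (Ideal.span {p})
  have hP : Pla L D N p (IsScalarTower.toAlgHom ℂ (MvPolynomial (Fin n) ℂ)
      (AlgebraicClosure (FractionRing (MvPolynomial (Fin n) ℂ)))) φ :=
    { nlc := hL
      nl := hNL
      hD := hD
      hm := hm
      he := he
      hp := hp
      dvd := hpA
      pl := hpl
      hV := hV
      ker := fun a => (hker a).trans Ideal.mem_span_singleton }
  exact hP.key ih f

end

end Pool.Agent.H72R
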