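import Pool.Agent.H72R.Mat

/-!
The main induction: the degree of the generator of `J L` is `2^(dim L - 1) β(L)`.
-/

set_option autoImplicit false
set_option linter.unusedSectionVars false

open MvPolynomial Module

namespace Pool.Agent.H72R

section base

theorem base_top {L : Submodule ℂ (Fin 1 → ℂ)} (h : NoLoop L) : L = ⊤ := by
  obtain ⟨v, hv, hv0⟩ := noLoop_iff.1 h 0
  rw [eq_top_iff]
  intro w _
  have : w = w 0 • v := by
    funext i
    rw [Subsingleton.elim i 0, Pi.smul_apply, hv0, smul_eq_mul, mul_one]
  rw [this]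
  exact L.smul_mem _ hv

theorem base_gw {L : Submodule ℂ (Fin 1 → ℂ)} (h : NoLoop L) : gw L 0 = 0 := by
  have h1 := mem_Pt_perp.1 (gw_mem L) (fun _ => (1 : ℂ)) (by rw [base_top h]; trivial)
  simpa using h1

theorem base_J {L : Submodule ℂ (Fin 1 → ℂ)} (h : NoLoop L) : J L = Ideal.span {X 0} := by
  have hgu : gu L = 0 := by
    funext i
    rw [Subsingleton.elim i 0]
    unfold gu
    rw [base_gw h, mul_zero]
    rfl
  ext g
  rw [mem_J, hgu, Ideal.mem_span_singleton]
  have h2 : (0 : Fin 1 → R (Fin 1)) = fun _ => 0 := rfl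
  rw [h2, aeval_zero']
  constructor
  · intro h3
    have h4 : constantCoeff g = 0 := by
      apply FaithfulSMul.algebraMap_injective ℂ (R (Fin 1))
      rw [h3, map_zero]
    rw [X_dvd_iff_modMonomial_eq_zero]
    ext m
    rw [coeff_zero]
    by_cases hm : Finsupp.single (0 : Fin 1) 1 ≤ m
    · exact coeff_modMonomial_of_le g hm
    · rw [coeff_modMonomial_of_not_le g hm]
      have : m = 0 := by
        apply Finsupp.ext
        intro i
        rw [Subsingleton.elim i 0]
        by_contra h5
        apply hm
        intro j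
        rw [Subsingleton.elim j 0, Finsupp.single_eq_same]
        exact Nat.one_le_iff_ne_zero.2 h5
      rw [this]
      exact h4
  · rintro ⟨q, rfl⟩
    simp

theorem base_hyp {L : Submodule ℂ (Fin 1 → ℂ)} (h : NoLoop L) : Hyp L (X 0) 1 where
  irr := by
    exact (MvPolynomial.X_prime (R := ℂ) (i := (0 : Fin 1))).irreducible
  hom := isHomogeneous_X ℂ 0
  gen := base_J h
  bid := by
    intro i j
    rw [Subsingleton.elim i j]

theorem base_bt {L : Submodule ℂ (Fin 1 → ℂ)} (h : NoLoop L) : finrank ℂ L = 1 ∧ bt L = 1 := by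
  have h1 : finrank ℂ L = 1 := by
    rw [base_top h, finrank_top]
    simp
  refine ⟨h1, ?_⟩
  have h2 : (Finset.univ : Finset (Finset (Fin 1))) = {∅, Finset.univ} := by decide
  unfold bt bz
  rw [h1, h2, Finset.sum_pair (by decide), z_empty, z_univ, h1]
  simp

end base

/-- the main theorem for linear spaces -/
theorem main (n : ℕ) : ∀ L : Submodule ℂ (Fin (n + 1) → ℂ), NoLoop L → NoSep L →
    ∃ (D : MvPolynomial (Fin (n + 1)) ℂ) (N : ℕ), Hyp L D N ∧
      (N : ℤ) = 2 ^ (finrank ℂ L - 1) * bt L := by
  induction n with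
  | zero =>
    intro L h1 _
    obtain ⟨h2, h3⟩ := base_bt h1
    refine ⟨X 0, 1, base_hyp h1, ?_⟩
    rw [h2, h3]
    simp
  | succ n ih =>
    intro L h1 h2
    have hL : NLC L := nlc_of_good 0 h1 h2
    have hIH : IHyp (n + 1) := by
      intro M hM1 hM2
      obtain ⟨D, N, h, -⟩ := ih M hM1 hM2
      exact ⟨D, N, h⟩
    have hr := finrank_con hL
    have hrd := finrank_del hL
    have hgc : ∀ M : Submodule ℂ (Fin (n + 1) → ℂ), ¬ (NoLoop M ∧ NoSep M) → bt M = 0 := by
      intro M hM
      by_cases hS : NoSep M
      · have hN : ¬ NoLoop M := fun h => hM ⟨h, hS⟩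
        have hn : n = 0 := by
          by_contra hn
          exact hN (noLoop_of_noSep (by omega) hS)
        subst hn
        have hM0 : M = ⊥ := by
          rw [eq_bot_iff]
          intro v hv
          rw [Submodule.mem_bot]
          by_contra hv0
          apply hN
          rw [noLoop_iff]
          intro i
          have hvi : v i ≠ 0 := by
            intro h0
            apply hv0
            funext j
            have hji : j = i := by omega
            rw [hji, h0]
            rfl
          exact ⟨(v i)⁻¹ • v, M.smul_mem _ hv, by simp [hvi]⟩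
        have hz : ∀ S, z M S = 0 := by
          intro S
          unfold z
          rw [hM0, bot_inf_eq]
          exact finrank_bot ℂ _
        unfold bt bz
        simp [hz]
      · unfold bt
        rw [bz_notSep hS, mul_zero]
    have hcon_loop : NoSep (con L) → ¬ NoSep (del L) → NoLoop (con L) := by
      intro hc hd
      apply noLoop_of_noSep _ hc
      by_contra hn
      apply hd
      have hn0 : n = 0 := by omega
      subst hn0
      intro S _
      by_cases h0 : (0 : Fin 1) ∈ S
      · right
        ext i
        have hi : i = 0 := by omega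
        rw [hi]
        simp [h0]
      · left
        ext i
        have hi : i = 0 := by omega
        rw [hi]
        simp [h0]
    have hposc : NoLoop (con L) → 1 ≤ finrank ℂ (con L) := by
      intro h
      obtain ⟨v, hv, hv0⟩ := noLoop_iff.1 h 0
      by_contra hlt
      have h0 : finrank ℂ (con L) = 0 := by omega
      have h3 : con L = ⊥ := Submodule.finrank_eq_zero.1 h0
      rw [h3, Submodule.mem_bot] at hv
      rw [hv] at hv0
      simp at hv0
    have hor : NoSep (del L) ∨ (NoLoop (con L) ∧ NoSep (con L)) := by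
      by_cases hd : NoSep (del L)
      · exact Or.inl hd
      · rcases tutte hL h2 with h | h
        · exact absurd h hd
        · exact Or.inr ⟨hcon_loop h hd, h⟩
    obtain ⟨D, N, hD, hm⟩ := exists_hyp hL h1 hIH 0 hor
    refine ⟨D, N, hD, ?_⟩
    rw [bt_rec hL]
    by_cases hd : NoSep (del L)
    · obtain ⟨D₁, N₁, hD₁, hN₁⟩ := ih (del L) (noLoop_del h1) hd
      by_cases hc : NoLoop (con L) ∧ NoSep (con L)
      · obtain ⟨D₂, N₂, hD₂, hN₂⟩ := ih (con L) hc.1 hc.2
        have h3 := deg_both hL h1 hD hm hIH 0 hD₁ hD₂ hc.1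
        have h4 := hposc hc.1
        obtain ⟨m, hm⟩ : ∃ m, finrank ℂ (con L) = m + 1 := ⟨finrank ℂ (con L) - 1, by omega⟩
        have h5 : finrank ℂ L = m + 2 := by omega
        rw [h3]
        push_cast
        rw [hN₁, hN₂, hrd, hm, h5]
        simp only [Nat.add_sub_cancel]
        have : m + 2 - 1 = m + 1 := by omega
        rw [this]
        ring
      · have h3 := deg_del hL h1 hD hm hIH 0 hD₁ hc
        rw [h3, hN₁, hrd, hgc _ hc, add_zero]
    · have hc : NoLoop (con L) ∧ NoSep (con L) := hor.resolve_left hd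
      obtain ⟨D₂, N₂, hD₂, hN₂⟩ := ih (con L) hc.1 hc.2
      have h3 := deg_con hL h1 hD hm hIH 0 hD₂ hd
      have h4 := hposc hc.1
      obtain ⟨m, hm⟩ : ∃ m, finrank ℂ (con L) = m + 1 := ⟨finrank ℂ (con L) - 1, by omega⟩
      have h5 : finrank ℂ L = m + 2 := by omega
      rw [h3, hgc (del L) (fun h => hd h.2), zero_add]
      push_cast
      rw [hN₂, hm, h5]
      simp only [Nat.add_sub_cancel]
      have : m + 2 - 1 = m + 1 := by omega
      rw [this]
      ring

end Pool.Agent.H72R
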