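import Pool.Agent.H72R.DegRec

/-!
The matroid part: connectivity of minors and the beta invariant.
-/

set_option autoImplicit false
set_option linter.unusedSectionVars false

open Module

namespace Pool.Agent.H72R

section general

variable {ι : Type} [Fintype ι] [DecidableEq ι]

/-- vectors vanishing on `S` -/
def vz (S : Finset ι) : Submodule ℂ (ι → ℂ) where
  carrier := {v | ∀ i ∈ S, v i = 0}
  add_mem' := by
    intro a b ha hb i hi
    simp [ha i hi, hb i hi]
  zero_mem' := by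
    intro i _
    rfl
  smul_mem' := by
    intro c a ha i hi
    simp [ha i hi]

theorem mem_vz {S : Finset ι} {v : ι → ℂ} : v ∈ vz S ↔ ∀ i ∈ S, v i = 0 := Iff.rfl

/-- dimension of the space of vectors of `L` vanishing on `S` -/
noncomputable def z (L : Submodule ℂ (ι → ℂ)) (S : Finset ι) : ℕ := finrank ℂ (L ⊓ vz S : Submodule ℂ (ι → ℂ))

variable {L : Submodule ℂ (ι → ℂ)}

theorem z_empty : z L ∅ = finrank ℂ L := by
  unfold z
  have : L ⊓ vz ∅ = L := by
    apply inf_eq_left.2
    intro v _ i hi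
    simp at hi
  rw [this]

theorem vz_union (S T : Finset ι) : (L ⊓ vz S) ⊓ (L ⊓ vz T) = L ⊓ vz (S ∪ T) := by
  ext v
  constructor
  · rintro ⟨⟨h1, h2⟩, -, h3⟩
    refine ⟨h1, fun i hi => ?_⟩
    rcases Finset.mem_union.1 hi with h | h
    · exact h2 i h
    · exact h3 i h
  · rintro ⟨h1, h2⟩
    exact ⟨⟨h1, fun i hi => h2 i (Finset.mem_union_left _ hi)⟩, h1,
      fun i hi => h2 i (Finset.mem_union_right _ hi)⟩

theorem z_super (S T : Finset ι) : z L S + z L T ≤ z L (S ∪ T) + z L (S ∩ T) := by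
  unfold z
  have h1 := Submodule.finrank_sup_add_finrank_inf_eq (L ⊓ vz S) (L ⊓ vz T)
  rw [vz_union] at h1
  have h2 : (L ⊓ vz S) ⊔ (L ⊓ vz T) ≤ L ⊓ vz (S ∩ T) := by
    apply sup_le
    · rintro v ⟨h1, h2⟩
      exact ⟨h1, fun i hi => h2 i (Finset.mem_inter.1 hi).1⟩
    · rintro v ⟨h1, h2⟩
      exact ⟨h1, fun i hi => h2 i (Finset.mem_inter.1 hi).2⟩
  have h3 := Submodule.finrank_mono h2
  omega

theorem z_univ : z L Finset.univ = 0 := by
  unfold z
  have : L ⊓ vz Finset.univ = ⊥ := by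
    rw [eq_bot_iff]
    rintro v ⟨-, h⟩
    rw [Submodule.mem_bot]
    funext i
    exact h i (Finset.mem_univ i)
  rw [this]
  exact finrank_bot ℂ _

/-- separators in terms of dimensions -/
theorem z_compl_le (S : Finset ι) : z L S + z L Sᶜ ≤ finrank ℂ L := by
  have h := z_super (L := L) S Sᶜ
  rw [Finset.union_compl, Finset.inter_compl, z_univ, z_empty, zero_add] at h
  exact h

theorem sep_of_z (S : Finset ι) (h : z L S + z L Sᶜ = finrank ℂ L) :
    ∀ v ∈ L, rstL (S : Set ι) v ∈ L := by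
  have h1 := Submodule.finrank_sup_add_finrank_inf_eq (L ⊓ vz S) (L ⊓ vz Sᶜ)
  rw [vz_union, Finset.union_compl] at h1
  have h0 : finrank ℂ (L ⊓ vz Finset.univ : Submodule ℂ (ι → ℂ)) = 0 := z_univ
  rw [h0, add_zero] at h1
  have h2 : (L ⊓ vz S) ⊔ (L ⊓ vz Sᶜ) = L := by
    apply Submodule.eq_of_le_of_finrank_eq (sup_le inf_le_left inf_le_left)
    rw [h1]
    exact h
  intro v hv
  rw [← h2] at hv
  obtain ⟨a, ⟨ha, haS⟩, b, ⟨hb, hbS⟩, rfl⟩ := Submodule.mem_sup.1 hv
  have h3 : rstL (S : Set ι) (a + b) = b := by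
    funext i
    by_cases hi : i ∈ S
    · rw [rstL_of_mem (by simpa using hi), Pi.add_apply, haS i hi, zero_add]
    · rw [rstL_of_notMem (by simpa using hi), hbS i (by simpa using hi)]
  rw [h3]
  exact hb

theorem z_of_sep (S T : Finset ι) (h : ∀ v ∈ L, rstL (T : Set ι) v ∈ L) :
    z L S = z L (S ∪ T) + z L (S ∪ Tᶜ) := by
  have h1 := Submodule.finrank_sup_add_finrank_inf_eq (L ⊓ vz (S ∪ T)) (L ⊓ vz (S ∪ Tᶜ))
  rw [vz_union] at h1
  have h2 : S ∪ T ∪ (S ∪ Tᶜ) = Finset.univ := by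
    ext i
    simp only [Finset.mem_union, Finset.mem_compl, Finset.mem_univ, iff_true]
    tauto
  have h0 : finrank ℂ (L ⊓ vz Finset.univ : Submodule ℂ (ι → ℂ)) = 0 := z_univ
  rw [h2, h0, add_zero] at h1
  have h3 : (L ⊓ vz (S ∪ T)) ⊔ (L ⊓ vz (S ∪ Tᶜ)) = L ⊓ vz S := by
    apply le_antisymm
    · apply sup_le
      · rintro v ⟨h1, h2⟩
        exact ⟨h1, fun i hi => h2 i (Finset.mem_union_left _ hi)⟩
      · rintro v ⟨h1, h2⟩
        exact ⟨h1, fun i hi => h2 i (Finset.mem_union_left _ hi)⟩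
    · rintro v ⟨hv, hvS⟩
      have h5 : v = (v - rstL (T : Set ι) v) + rstL (T : Set ι) v := by simp
      rw [h5]
      apply Submodule.add_mem_sup
      · refine ⟨L.sub_mem hv (h v hv), fun i hi => ?_⟩
        rcases Finset.mem_union.1 hi with hi | hi
        · by_cases hT : i ∈ T
          · rw [Pi.sub_apply, rstL_of_mem (by simpa using hT), sub_self]
          · rw [Pi.sub_apply, rstL_of_notMem (by simpa using hT), sub_zero, hvS i hi]
        · rw [Pi.sub_apply, rstL_of_mem (by simpa using hi), sub_self]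
      · refine ⟨h v hv, fun i hi => ?_⟩
        rcases Finset.mem_union.1 hi with hi | hi
        · by_cases hT : i ∈ T
          · rw [rstL_of_mem (by simpa using hT), hvS i hi]
          · rw [rstL_of_notMem (by simpa using hT)]
        · rw [rstL_of_notMem (by simpa using hi)]
  rw [h3] at h1
  exact h1

theorem z_lt (hL : NoSep L) {S : Finset ι} (h1 : S.Nonempty) (h2 : Sᶜ.Nonempty) :
    z L S + z L Sᶜ < finrank ℂ L := by
  apply lt_of_le_of_ne (z_compl_le S)
  intro h
  rcases hL S (sep_of_z S h) with h3 | h3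
  · rw [Finset.coe_eq_empty] at h3
    exact h1.ne_empty h3
  · rw [Finset.coe_eq_univ] at h3
    rw [h3, Finset.compl_univ] at h2
    exact Finset.not_nonempty_empty h2

/-- `∑ (-1)^|S| z(S)` -/
noncomputable def bz (L : Submodule ℂ (ι → ℂ)) : ℤ := ∑ S : Finset ι, (-1) ^ S.card * (z L S : ℤ)

/-- the beta invariant -/
noncomputable def bt (L : Submodule ℂ (ι → ℂ)) : ℤ := (-1) ^ (finrank ℂ L + 1) * bz L

theorem sum_toggle {T : Finset ι} (hT : T.Nonempty) (g : Finset ι → ℤ) :
    ∑ S : Finset ι, (-1) ^ S.card * g (S ∪ T) = 0 := by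
  obtain ⟨t, ht⟩ := hT
  have h1 : (Finset.univ : Finset (Finset ι)) = (insert t (Finset.univ.erase t)).powerset := by
    rw [Finset.insert_erase (Finset.mem_univ t), Finset.powerset_univ]
  rw [h1, Finset.sum_powerset_insert (Finset.notMem_erase t _), ← Finset.sum_add_distrib]
  refine Finset.sum_eq_zero fun S hS => ?_
  have h2 : t ∉ S := by
    intro h
    exact Finset.notMem_erase t _ (Finset.mem_powerset.1 hS h)
  rw [Finset.card_insert_of_notMem h2]
  have h3 : insert t S ∪ T = S ∪ T := by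
    ext i
    simp only [Finset.mem_union, Finset.mem_insert]
    constructor
    · rintro ((rfl | h) | h)
      · exact Or.inr ht
      · exact Or.inl h
      · exact Or.inr h
    · rintro (h | h)
      · exact Or.inl (Or.inr h)
      · exact Or.inr h
  rw [h3]
  ring

theorem bz_sep {T : Finset ι} (h : ∀ v ∈ L, rstL (T : Set ι) v ∈ L) (h1 : T.Nonempty)
    (h2 : Tᶜ.Nonempty) : bz L = 0 := by
  unfold bz
  have h3 : ∀ S : Finset ι, (-1 : ℤ) ^ S.card * (z L S : ℤ) =
      (-1) ^ S.card * (z L (S ∪ T) : ℤ) + (-1) ^ S.card * (z L (S ∪ Tᶜ) : ℤ) := by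
    intro S
    rw [z_of_sep S T h]
    push_cast
    ring
  rw [Finset.sum_congr rfl fun S _ => h3 S, Finset.sum_add_distrib,
    sum_toggle h1 (fun S => (z L S : ℤ)), sum_toggle h2 (fun S => (z L S : ℤ)), add_zero]

theorem bz_notSep (h : ¬ NoSep L) : bz L = 0 := by
  classical
  unfold NoSep at h
  push Not at h
  obtain ⟨S, hS, h1, h2⟩ := h
  apply bz_sep (T := Finset.univ.filter (· ∈ S))
  · have : ((Finset.univ.filter (· ∈ S) : Finset ι) : Set ι) = S := by
      ext i
      simp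
    rw [this]
    exact hS
  · obtain ⟨i, hi⟩ := h1
    exact ⟨i, by simp [hi]⟩
  · obtain ⟨j, hj⟩ := (Set.ne_univ_iff_exists_notMem S).1 h2
    exact ⟨j, by simp [hj]⟩

end general

section fin

variable {n : ℕ} {L : Submodule ℂ (Fin (n + 1) → ℂ)}

theorem finrank_map_of (M : Submodule ℂ (Fin (n + 1) → ℂ)) (h : ∀ v ∈ M, tl v = 0 → v = 0) :
    finrank ℂ (M.map tl) = finrank ℂ M := by
  have h1 : Function.Injective ((tl (n := n)).domRestrict M) := by
    rw [← LinearMap.ker_eq_bot, LinearMap.ker_eq_bot']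
    intro v hv
    exact Subtype.ext (h v.1 v.2 hv)
  have h2 := LinearMap.finrank_range_of_inj h1
  rw [LinearMap.range_domRestrict] at h2
  exact h2

/-- the shift of subsets -/
def sh (A : Finset (Fin n)) : Finset (Fin (n + 1)) := A.map (Fin.succEmb n)

theorem mem_sh {A : Finset (Fin n)} {i : Fin (n + 1)} : i ∈ sh A ↔ ∃ j ∈ A, j.succ = i := by
  simp [sh]

theorem succ_mem_sh {A : Finset (Fin n)} {i : Fin n} : i.succ ∈ sh A ↔ i ∈ A := by
  rw [mem_sh]
  constructor
  · rintro ⟨j, hj, h⟩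
    rwa [← Fin.succ_injective _ h]
  · intro h
    exact ⟨i, h, rfl⟩

theorem zero_notMem_sh {A : Finset (Fin n)} : (0 : Fin (n + 1)) ∉ sh A := by
  rw [mem_sh]
  rintro ⟨j, -, h⟩
  exact Fin.succ_ne_zero j h

theorem tl_zero_of {v : Fin (n + 1) → ℂ} (h : tl v = 0) (h0 : v 0 = 0) : v = 0 := by
  funext i
  refine Fin.cases h0 (fun j => congrFun h j) i

theorem z_del (hL : NLC L) (A : Finset (Fin n)) : z (del L) A = z L (sh A) := by
  unfold z
  have h1 : del L ⊓ vz A = (L ⊓ vz (sh A)).map tl := by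
    ext v
    constructor
    · rintro ⟨h1, h2⟩
      obtain ⟨u, hu, huv⟩ := mem_del.1 h1
      refine ⟨u, ⟨hu, ?_⟩, funext fun i => huv i⟩
      intro i hi
      obtain ⟨j, hj, rfl⟩ := mem_sh.1 hi
      rw [huv j]
      exact h2 j hj
    · rintro ⟨u, ⟨hu, hu2⟩, rfl⟩
      refine ⟨mem_del.2 ⟨u, hu, fun _ => rfl⟩, ?_⟩
      intro i hi
      exact hu2 i.succ (succ_mem_sh.2 hi)
  rw [h1, finrank_map_of]
  rintro v ⟨hv, -⟩ hv0
  obtain ⟨l, hl, hl0⟩ := hL.l
  have h2 := hl v hv
  rw [Fin.sum_univ_succ, hl0, mul_one] at h2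
  have h3 : ∑ i : Fin n, v i.succ * l i.succ = 0 := by
    refine Finset.sum_eq_zero fun i _ => ?_
    have : v i.succ = 0 := congrFun hv0 i
    rw [this, zero_mul]
  rw [h3, add_zero] at h2
  exact tl_zero_of hv0 h2

theorem z_con (A : Finset (Fin n)) : z (con L) A = z L (insert 0 (sh A)) := by
  unfold z
  have h1 : con L ⊓ vz A = (L ⊓ vz (insert 0 (sh A))).map tl := by
    ext v
    constructor
    · rintro ⟨h1, h2⟩
      replace h1 := mem_con.1 h1
      refine ⟨_, ⟨h1, ?_⟩, funext fun i => by rw [tl_apply, Fin.cons_succ]⟩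
      intro i hi
      rcases Finset.mem_insert.1 hi with rfl | hi
      · rw [Fin.cons_zero]
      · obtain ⟨j, hj, rfl⟩ := mem_sh.1 hi
        rw [Fin.cons_succ]
        exact h2 j hj
    · rintro ⟨u, ⟨hu, hu2⟩, rfl⟩
      have hu0 : u 0 = 0 := hu2 0 (Finset.mem_insert_self _ _)
      refine ⟨?_, ?_⟩
      · apply mem_con.2
        rw [cons_zero_tl hu0]
        exact hu
      · intro i hi
        exact hu2 i.succ (Finset.mem_insert_of_mem (succ_mem_sh.2 hi))
  rw [h1, finrank_map_of]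
  rintro v ⟨-, hv⟩ hv0
  exact tl_zero_of hv0 (hv 0 (Finset.mem_insert_self _ _))

theorem finrank_del (hL : NLC L) : finrank ℂ (del L) = finrank ℂ L := by
  rw [← z_empty, z_del hL, ← z_empty]
  rfl

theorem finrank_con (hL : NLC L) : finrank ℂ (con L) + 1 = finrank ℂ L := by
  rw [← z_empty, z_con]
  unfold z
  let g : L →ₗ[ℂ] ℂ := (LinearMap.proj (R := ℂ) (φ := fun _ => ℂ) (0 : Fin (n + 1))) ∘ₗ L.subtype
  have h1 := LinearMap.finrank_range_add_finrank_ker g
  have h2 : LinearMap.range g = ⊤ := by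
    obtain ⟨v, hv, hv0⟩ := hL.v
    rw [LinearMap.range_eq_top]
    intro c
    refine ⟨c • ⟨v, hv⟩, ?_⟩
    show c * v 0 = c
    rw [hv0, mul_one]
  rw [h2, finrank_top, finrank_self] at h1
  have h3 : finrank ℂ (LinearMap.ker g) =
      finrank ℂ (L ⊓ vz (insert 0 (sh ∅)) : Submodule ℂ (Fin (n + 1) → ℂ)) := by
    have h4 : (LinearMap.ker g).map L.subtype = L ⊓ vz (insert 0 (sh ∅)) := by
      ext v
      constructor
      · rintro ⟨u, hu, rfl⟩
        refine ⟨u.2, ?_⟩
        intro i hi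
        rcases Finset.mem_insert.1 hi with rfl | hi
        · exact hu
        · simp [sh] at hi
      · rintro ⟨h1, h2⟩
        exact ⟨⟨v, h1⟩, h2 0 (Finset.mem_insert_self _ _), rfl⟩
    rw [← h4]
    exact (LinearEquiv.finrank_eq (Submodule.equivMapOfInjective L.subtype
      (Submodule.injective_subtype L) (LinearMap.ker g)))
  omega

theorem sum_finset_succ (g : Finset (Fin (n + 1)) → ℤ) :
    ∑ S : Finset (Fin (n + 1)), g S =
      ∑ A : Finset (Fin n), g (sh A) + ∑ A : Finset (Fin n), g (insert 0 (sh A)) := by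
  have h1 : (Finset.univ : Finset (Finset (Fin (n + 1)))) = (insert 0 (sh Finset.univ)).powerset := by
    have : insert 0 (sh (Finset.univ : Finset (Fin n))) = Finset.univ := by
      ext i
      simp only [Finset.mem_insert, Finset.mem_univ, iff_true]
      refine Fin.cases (Or.inl rfl) (fun j => Or.inr (succ_mem_sh.2 (Finset.mem_univ j))) i
    rw [this, Finset.powerset_univ]
  have h2 : ∀ g : Finset (Fin (n + 1)) → ℤ, ∑ S ∈ (sh (Finset.univ : Finset (Fin n))).powerset, g S =
      ∑ A : Finset (Fin n), g (sh A) := by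
    intro g
    symm
    apply Finset.sum_bij (fun A _ => sh A)
    · intro A _
      rw [Finset.mem_powerset]
      intro i hi
      obtain ⟨j, -, rfl⟩ := mem_sh.1 hi
      exact succ_mem_sh.2 (Finset.mem_univ j)
    · intro A _ B _ h
      ext i
      rw [← succ_mem_sh (A := A), ← succ_mem_sh (A := B), h]
    · intro S hS
      rw [Finset.mem_powerset] at hS
      refine ⟨Finset.univ.filter (fun i => i.succ ∈ S), Finset.mem_univ _, ?_⟩
      ext i
      refine Fin.cases ?_ (fun j => ?_) i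
      · constructor
        · intro h
          exact absurd h zero_notMem_sh
        · intro h
          exact absurd (hS h) zero_notMem_sh
      · rw [succ_mem_sh]
        simp
    · intro A _
      rfl
  rw [h1, Finset.sum_powerset_insert zero_notMem_sh, h2, h2 (fun S => g (insert 0 S))]

theorem bz_rec (hL : NLC L) : bz L = bz (del L) - bz (con L) := by
  unfold bz
  rw [sum_finset_succ]
  have h1 : ∀ A : Finset (Fin n), (-1 : ℤ) ^ (sh A).card * (z L (sh A) : ℤ) =
      (-1) ^ A.card * (z (del L) A : ℤ) := by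
    intro A
    rw [z_del hL, sh, Finset.card_map]
  have h2 : ∀ A : Finset (Fin n), (-1 : ℤ) ^ (insert 0 (sh A)).card * (z L (insert 0 (sh A)) : ℤ) =
      -((-1) ^ A.card * (z (con L) A : ℤ)) := by
    intro A
    rw [z_con, Finset.card_insert_of_notMem zero_notMem_sh, sh, Finset.card_map]
    ring
  rw [Finset.sum_congr rfl fun A _ => h1 A, Finset.sum_congr rfl fun A _ => h2 A,
    Finset.sum_neg_distrib]
  ring

theorem bt_rec (hL : NLC L) : bt L = bt (del L) + bt (con L) := by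
  unfold bt
  rw [bz_rec hL, finrank_del hL, ← finrank_con hL]
  ring

theorem sh_compl (A : Finset (Fin n)) : (sh A)ᶜ = insert 0 (sh Aᶜ) := by
  ext i
  refine Fin.cases ?_ (fun j => ?_) i
  · simp [zero_notMem_sh]
  · simp only [Finset.mem_compl, Finset.mem_insert, succ_mem_sh, Fin.succ_ne_zero, false_or]

theorem nlc_of_good (f : Fin n) (hNL : NoLoop L) (hL : NoSep L) : NLC L := by
  have h0 := z_lt hL (S := {0}) (Finset.singleton_nonempty _) ⟨f.succ, by simp [Fin.succ_ne_zero]⟩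
  refine ⟨noLoop_iff.1 hNL 0, ?_⟩
  by_contra hcon
  push Not at hcon
  -- `e_0 ∈ L`
  have h1 : (Pi.single 0 1 : Fin (n + 1) → ℂ) ∈ L := by
    rw [← perp_perp L]
    intro l hl
    rw [Finset.sum_eq_single 0]
    · by_contra h2
      simp only [Pi.single_eq_same, mul_one] at h2
      exact hcon ((l 0)⁻¹ • l) ((perp L).smul_mem _ hl) (by simp [h2])
    · intro j _ hj
      simp [hj]
    · simp
  have h2 : ∀ v ∈ L, rstL ((({0} : Finset (Fin (n + 1)))) : Set (Fin (n + 1))) v ∈ L := by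
    intro v hv
    have : rstL ((({0} : Finset (Fin (n + 1)))) : Set (Fin (n + 1))) v =
        v 0 • (Pi.single 0 1 : Fin (n + 1) → ℂ) := by
      funext i
      by_cases hi : i = 0
      · subst hi
        rw [rstL_of_mem (by simp)]
        simp
      · rw [rstL_of_notMem (by simpa using hi)]
        simp [hi]
    rw [this]
    exact L.smul_mem _ h1
  have h3 := z_of_sep (L := L) ∅ {0} h2
  rw [Finset.empty_union, Finset.empty_union, z_empty] at h3
  omega

theorem noLoop_of_noSep {m : ℕ} {M : Submodule ℂ (Fin m → ℂ)} (hm : 2 ≤ m) (hM : NoSep M) :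
    NoLoop M := by
  rw [noLoop_iff]
  intro i
  by_contra hcon
  push Not at hcon
  have h0 : ∀ v ∈ M, v i = 0 := by
    intro v hv
    by_contra h
    exact hcon ((v i)⁻¹ • v) (M.smul_mem _ hv) (by simp [h])
  rcases hM {i} (fun v hv => by
    have : rstL {i} v = 0 := by
      funext j
      by_cases hj : j = i
      · subst hj
        rw [rstL_of_mem (by simp), h0 v hv]
        rfl
      · rw [rstL_of_notMem (by simpa using hj)]
        rfl
    rw [this]
    exact M.zero_mem) with h | h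
  · exact (Set.singleton_ne_empty i) h
  · have h1 : ∀ j : Fin m, j = i := fun j => by
      have : j ∈ ({i} : Set (Fin m)) := by
        rw [h]
        exact Set.mem_univ j
      exact this
    have h2 := (h1 ⟨0, by omega⟩).trans (h1 ⟨1, by omega⟩).symm
    simp at h2

theorem tutte (hL : NLC L) (hS : NoSep L) : NoSep (del L) ∨ NoSep (con L) := by
  by_contra hcon
  push Not at hcon
  obtain ⟨hA, hC⟩ := hcon
  have conv : ∀ M : Submodule ℂ (Fin n → ℂ), ¬ NoSep M → ∃ A : Finset (Fin n), A.Nonempty ∧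
      Aᶜ.Nonempty ∧ z M A + z M Aᶜ = finrank ℂ M := by
    classical
    intro M hM
    unfold NoSep at hM
    push Not at hM
    obtain ⟨S, hS, h1, h2⟩ := hM
    refine ⟨Finset.univ.filter (· ∈ S), ?_, ?_, ?_⟩
    · obtain ⟨i, hi⟩ := h1
      exact ⟨i, by simp [hi]⟩
    · obtain ⟨j, hj⟩ := (Set.ne_univ_iff_exists_notMem S).1 h2
      exact ⟨j, by simp [hj]⟩
    · have : ((Finset.univ.filter (· ∈ S) : Finset (Fin n)) : Set (Fin n)) = S := by
        ext i
        simp
      have h3 := z_of_sep (L := M) ∅ (Finset.univ.filter (· ∈ S)) (by rw [this]; exact hS)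
      rw [Finset.empty_union, Finset.empty_union, z_empty] at h3
      exact h3.symm
  obtain ⟨A, hA1, hA2, hA3⟩ := conv _ hA
  obtain ⟨C, hC1, hC2, hC3⟩ := conv _ hC
  rw [z_del hL, z_del hL, finrank_del hL] at hA3
  rw [z_con, z_con] at hC3
  have hr := finrank_con hL
  -- the crossing inequality
  have cross : ∀ A C : Finset (Fin n), (A ∩ C).Nonempty →
      z L (sh (A ∩ C)) + z L (insert 0 (sh (Aᶜ ∪ Cᶜ))) < finrank ℂ L := by
    intro A C hAC
    have h1 := z_lt hS (S := sh (A ∩ C)) (by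
      obtain ⟨i, hi⟩ := hAC
      exact ⟨i.succ, succ_mem_sh.2 hi⟩) (by
      refine ⟨0, ?_⟩
      rw [Finset.mem_compl]
      exact zero_notMem_sh)
    rw [sh_compl, Finset.compl_inter] at h1
    exact h1
  have sup : ∀ A C : Finset (Fin n), z L (sh A) + z L (insert 0 (sh C)) ≤
      z L (insert 0 (sh (A ∪ C))) + z L (sh (A ∩ C)) := by
    intro A C
    have h1 := z_super (L := L) (sh A) (insert 0 (sh C))
    have h2 : sh A ∪ insert 0 (sh C) = insert 0 (sh (A ∪ C)) := by
      ext i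
      refine Fin.cases ?_ (fun j => ?_) i
      · simp
      · simp only [Finset.mem_union, Finset.mem_insert, succ_mem_sh, Fin.succ_ne_zero, false_or]
    have h3 : sh A ∩ insert 0 (sh C) = sh (A ∩ C) := by
      ext i
      refine Fin.cases ?_ (fun j => ?_) i
      · simp [zero_notMem_sh]
      · simp only [Finset.mem_inter, Finset.mem_insert, succ_mem_sh, Fin.succ_ne_zero, false_or]
    rw [h2, h3] at h1
    exact h1
  have main : ∀ C : Finset (Fin n), z L (insert 0 (sh C)) + z L (insert 0 (sh Cᶜ)) + 1 = finrank ℂ L →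
      (A ∩ C).Nonempty → (Aᶜ ∩ Cᶜ).Nonempty → False := by
    intro C hC h1 h2
    have e1 := cross A C h1
    have e2 := cross Aᶜ Cᶜ h2
    rw [compl_compl, compl_compl] at e2
    have e3 := sup A C
    have e4 := sup Aᶜ Cᶜ
    omega
  have hC4 : z L (insert 0 (sh C)) + z L (insert 0 (sh Cᶜ)) + 1 = finrank ℂ L := by omega
  have hC5 : z L (insert 0 (sh Cᶜ)) + z L (insert 0 (sh Cᶜᶜ)) + 1 = finrank ℂ L := by
    rw [compl_compl]
    omega
  have m1 := main C hC4
  have m2 := main Cᶜ hC5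
  rw [compl_compl] at m2
  obtain ⟨a, ha⟩ := hA1
  obtain ⟨b, hb⟩ := hA2
  obtain ⟨c, hc⟩ := hC1
  obtain ⟨d, hd⟩ := hC2
  rw [Finset.mem_compl] at hb hd
  -- `A ∩ C = ∅` or `Aᶜ ∩ Cᶜ = ∅`; `A ∩ Cᶜ = ∅` or `Aᶜ ∩ C = ∅`
  by_cases h1 : (A ∩ C).Nonempty
  · have h2 : ¬ (Aᶜ ∩ Cᶜ).Nonempty := fun h => m1 h1 h
    have hbC : b ∈ C := by
      by_contra h
      exact h2 ⟨b, by simp [hb, h]⟩
    have hdA : d ∈ A := by
      by_contra h
      exact h2 ⟨d, by simp [hd, h]⟩
    exact m2 ⟨d, by simp [hd, hdA]⟩ ⟨b, by simp [hb, hbC]⟩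
  · have haC : a ∉ C := fun h => h1 ⟨a, by simp [ha, h]⟩
    have hcA : c ∉ A := fun h => h1 ⟨c, by simp [hc, h]⟩
    exact m2 ⟨a, by simp [ha, haC]⟩ ⟨c, by simp [hc, hcA]⟩

end fin

end Pool.Agent.H72R
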