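import Pool.Agent.H72R.Basic

/-!
Separation of a coordinate, deletion and contraction of the coordinate `0`.
-/

set_option autoImplicit false
set_option linter.unusedSectionVars false

open MvPolynomial

namespace Pool.Agent.H72R

section sep

variable {ι : Type} [Fintype ι]

/-- vectors supported in `S` -/
def supp (S : Set ι) : Submodule ℂ (ι → ℂ) where
  carrier := {z | ∀ i, i ∉ S → z i = 0}
  add_mem' := by
    intro a b ha hb i hi
    simp [ha i hi, hb i hi]
  zero_mem' := by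
    intro i _
    rfl
  smul_mem' := by
    intro c a ha i hi
    simp [ha i hi]

theorem mem_supp {S : Set ι} {z : ι → ℂ} : z ∈ supp S ↔ ∀ i, i ∉ S → z i = 0 := Iff.rfl

theorem perp_supp (S : Set ι) : perp (supp S) = supp Sᶜ := by
  classical
  ext z
  constructor
  · intro h i hi
    have hi' : i ∈ S := by simpa using hi
    have h1 := h (Pi.single i 1) (by
      intro j hj
      have : j ≠ i := fun h => hj (h ▸ hi')
      simp [this])
    rw [Finset.sum_eq_single i] at h1
    · simpa using h1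
    · intro j _ hj
      simp [hj]
    · simp
  · intro h v hv
    refine Finset.sum_eq_zero fun i _ => ?_
    by_cases hi : i ∈ S
    · rw [h i (by simpa using hi), mul_zero]
    · rw [hv i hi, zero_mul]

theorem perp_sup (L M : Submodule ℂ (ι → ℂ)) : perp (L ⊔ M) = perp L ⊓ perp M := by
  apply le_antisymm
  · exact le_inf (perp_anti le_sup_left) (perp_anti le_sup_right)
  · rintro w ⟨h1, h2⟩ v hv
    obtain ⟨a, ha, b, hb, rfl⟩ := Submodule.mem_sup.1 hv
    simp only [Pi.add_apply, add_mul, Finset.sum_add_distrib, h1 a ha, h2 b hb, add_zero]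

theorem perp_inf (L M : Submodule ℂ (ι → ℂ)) : perp (L ⊓ M) = perp L ⊔ perp M := by
  rw [← perp_perp (perp L ⊔ perp M), perp_sup, perp_perp, perp_perp]

/-- Either a vector of `L` vanishes on `S` and not at `f`, or a vector of `L^⊥` is nonzero at `f` and vanishes at all
other points outside `S`. -/
theorem exists_sep (L : Submodule ℂ (ι → ℂ)) (S : Set ι) (f : ι) (hf : f ∉ S) :
    (∃ v ∈ L, (∀ i ∈ S, v i = 0) ∧ v f = 1) ∨
      (∃ l ∈ perp L, l f = 1 ∧ ∀ i, i ∉ S → i ≠ f → l i = 0) := by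
  classical
  by_cases h : (Pi.single f 1 : ι → ℂ) ∈ perp L ⊔ supp S
  · right
    obtain ⟨l, hl, s, hs, hls⟩ := Submodule.mem_sup.1 h
    refine ⟨l, hl, ?_, ?_⟩
    · have h1 := congrFun hls f
      simp only [Pi.add_apply, hs f hf, add_zero, Pi.single_eq_same] at h1
      exact h1
    · intro i hi hif
      have h1 := congrFun hls i
      simp only [Pi.add_apply, hs i hi, add_zero] at h1
      rw [h1]
      simp [hif]
  · left
    rw [← perp_perp (perp L ⊔ supp S), perp_sup, perp_perp, perp_supp, mem_perp] at h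
    push Not at h
    obtain ⟨v, ⟨hv1, hv2⟩, hv3⟩ := h
    have hvf : ∑ i, v i * (Pi.single f 1 : ι → ℂ) i = v f := by
      rw [Finset.sum_eq_single f]
      · simp
      · intro j _ hj
        simp [hj]
      · simp
    rw [hvf] at hv3
    refine ⟨(v f)⁻¹ • v, L.smul_mem _ hv1, ?_, ?_⟩
    · intro i hi
      simp [hv2 i (by simpa using hi)]
    · simp [hv3]

/-- no coordinate vanishes identically on `L` -/
def Loopless (L : Submodule ℂ (ι → ℂ)) : Prop := ∀ i, ∃ v ∈ L, v i = 1

end sep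

section fin

variable {n : ℕ}

/-- forget the coordinate `0` -/
def tl : (Fin (n + 1) → ℂ) →ₗ[ℂ] (Fin n → ℂ) := LinearMap.funLeft ℂ ℂ Fin.succ

theorem tl_apply (v : Fin (n + 1) → ℂ) (i : Fin n) : tl v i = v i.succ := rfl

/-- `v 0 = 0` -/
def hyp0 : Submodule ℂ (Fin (n + 1) → ℂ) := LinearMap.ker (LinearMap.proj (R := ℂ) (φ := fun _ => ℂ) (0 : Fin (n + 1)))

theorem mem_hyp0 {v : Fin (n + 1) → ℂ} : v ∈ hyp0 ↔ v 0 = 0 := Iff.rfl

/-- deletion -/
def del (L : Submodule ℂ (Fin (n + 1) → ℂ)) : Submodule ℂ (Fin n → ℂ) := L.map tl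

/-- contraction -/
def con (L : Submodule ℂ (Fin (n + 1) → ℂ)) : Submodule ℂ (Fin n → ℂ) := (L ⊓ hyp0).map tl

theorem mem_del {L : Submodule ℂ (Fin (n + 1) → ℂ)} {v : Fin n → ℂ} :
    v ∈ del L ↔ ∃ u ∈ L, ∀ i : Fin n, u i.succ = v i := by
  unfold del
  rw [Submodule.mem_map]
  refine exists_congr fun u => and_congr_right fun _ => ?_
  exact ⟨fun h i => by rw [← h]; rfl, fun h => funext h⟩

theorem cons_zero_tl {u : Fin (n + 1) → ℂ} (h : u 0 = 0) : Fin.cons (0 : ℂ) (tl u) = u := by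
  funext i
  refine Fin.cases ?_ (fun j => ?_) i
  · rw [Fin.cons_zero, h]
  · rw [Fin.cons_succ]; rfl

theorem mem_con {L : Submodule ℂ (Fin (n + 1) → ℂ)} {v : Fin n → ℂ} :
    v ∈ con L ↔ (Fin.cons 0 v : Fin (n + 1) → ℂ) ∈ L := by
  unfold con
  rw [Submodule.mem_map]
  constructor
  · rintro ⟨u, ⟨hu, hu0⟩, rfl⟩
    rw [cons_zero_tl (mem_hyp0.1 hu0)]
    exact hu
  · intro h
    refine ⟨_, ⟨h, ?_⟩, ?_⟩
    · exact mem_hyp0.2 (Fin.cons_zero _ _)
    · funext i
      rw [tl_apply, Fin.cons_succ]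

theorem con_le_del (L : Submodule ℂ (Fin (n + 1) → ℂ)) : con L ≤ del L :=
  Submodule.map_mono inf_le_left

theorem perp_del (L : Submodule ℂ (Fin (n + 1) → ℂ)) : perp (del L) = con (perp L) := by
  ext w
  rw [mem_con, mem_perp, mem_perp]
  constructor
  · intro h v hv
    rw [Fin.sum_univ_succ, Fin.cons_zero, mul_zero, zero_add]
    have := h (tl v) (mem_del.2 ⟨v, hv, fun i => rfl⟩)
    simpa [tl_apply, Fin.cons_succ] using this
  · intro h v hv
    obtain ⟨u, hu, huv⟩ := mem_del.1 hv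
    have := h u hu
    rw [Fin.sum_univ_succ, Fin.cons_zero, mul_zero, zero_add] at this
    simpa [huv, Fin.cons_succ] using this

theorem perp_con (L : Submodule ℂ (Fin (n + 1) → ℂ)) : perp (con L) = del (perp L) := by
  have h := perp_del (perp L)
  rw [perp_perp] at h
  rw [← h, perp_perp]

variable {A : Type} [CommRing A] [Algebra ℂ A]

theorem Pt_del {L : Submodule ℂ (Fin (n + 1) → ℂ)} {x : Fin (n + 1) → A} (hx : x ∈ Pt A L) :
    (fun i : Fin n => x i.succ) ∈ Pt A (del L) := by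
  intro l hl
  rw [perp_del, mem_con] at hl
  have h := hx _ hl
  rw [Fin.sum_univ_succ, Fin.cons_zero, map_zero, zero_mul, zero_add] at h
  simpa [Fin.cons_succ] using h

theorem Pt_con {L : Submodule ℂ (Fin (n + 1) → ℂ)} {x : Fin n → A} :
    x ∈ Pt A (con L) ↔ (Fin.cons 0 x : Fin (n + 1) → A) ∈ Pt A L := by
  rw [mem_Pt, mem_Pt, perp_con]
  constructor
  · intro h l hl
    rw [Fin.sum_univ_succ, Fin.cons_zero, mul_zero, zero_add]
    have := h (tl l) (mem_del.2 ⟨l, hl, fun i => rfl⟩)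
    simpa [tl_apply, Fin.cons_succ] using this
  · intro h v hv
    obtain ⟨u, hu, huv⟩ := mem_del.1 hv
    have := h u hu
    rw [Fin.sum_univ_succ, Fin.cons_zero, mul_zero, zero_add] at this
    simpa [huv, Fin.cons_succ] using this

theorem cons_zero_eq {x : Fin (n + 1) → A} (h : x 0 = 0) :
    (Fin.cons 0 (fun i : Fin n => x i.succ) : Fin (n + 1) → A) = x := by
  funext i
  refine Fin.cases ?_ (fun j => ?_) i
  · rw [Fin.cons_zero, h]
  · rw [Fin.cons_succ]

theorem Pt_con' {L : Submodule ℂ (Fin (n + 1) → ℂ)} {x : Fin (n + 1) → A} (hx : x ∈ Pt A L)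
    (h0 : x 0 = 0) : (fun i : Fin n => x i.succ) ∈ Pt A (con L) := by
  rw [Pt_con, cons_zero_eq h0]
  exact hx

/-- lifting points of the deletion -/
theorem lift_del {L : Submodule ℂ (Fin (n + 1) → ℂ)} {l : Fin (n + 1) → ℂ} (hl : l ∈ perp L)
    (hl0 : l 0 = 1) {x : Fin n → A} (hx : x ∈ Pt A (del L)) :
    (Fin.cons (-∑ i : Fin n, algebraMap ℂ A (l i.succ) * x i) x : Fin (n + 1) → A) ∈ Pt A L := by
  intro m hm
  have h : (m - m 0 • l) ∈ perp L := (perp L).sub_mem hm ((perp L).smul_mem _ hl)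
  have h2 : tl (m - m 0 • l) ∈ perp (del L) := by
    rw [perp_del, mem_con, cons_zero_tl]
    · exact h
    · simp [hl0]
  have h3 := hx _ h2
  rw [Fin.sum_univ_succ, Fin.cons_zero]
  simp only [Fin.cons_succ, tl_apply, Pi.sub_apply, Pi.smul_apply, smul_eq_mul, map_sub, map_mul,
    sub_mul, Finset.sum_sub_distrib] at h3 ⊢
  have h4 : ∑ i : Fin n, algebraMap ℂ A (m 0) * algebraMap ℂ A (l i.succ) * x i =
      algebraMap ℂ A (m 0) * ∑ i : Fin n, algebraMap ℂ A (l i.succ) * x i := by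
    rw [Finset.mul_sum]
    exact Finset.sum_congr rfl fun i _ => mul_assoc _ _ _
  rw [h4] at h3
  linear_combination h3

theorem coord0_eq {L : Submodule ℂ (Fin (n + 1) → ℂ)} {l : Fin (n + 1) → ℂ} (hl : l ∈ perp L)
    (hl0 : l 0 = 1) {x : Fin (n + 1) → A} (hx : x ∈ Pt A L) :
    x 0 = -∑ i : Fin n, algebraMap ℂ A (l i.succ) * x i.succ := by
  have := hx l hl
  rw [Fin.sum_univ_succ, hl0, map_one, one_mul] at this
  linear_combination this

end fin

end Pool.Agent.H72R
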