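import Pool.Agent.H72R.Deg

/-!
Non-integrality at a generic point of a hypersurface; cuts; levels.
-/

set_option autoImplicit false
set_option linter.unusedSectionVars false

open MvPolynomial

namespace Pool.Agent.H72R

section noint

variable {n : ℕ}

theorem exists_degreeOf_pos {p : MvPolynomial (Fin n) ℂ} (hp : Irreducible p) :
    ∃ j, 0 < degreeOf j p := by
  by_contra h
  push Not at h
  apply hp.not_isUnit
  have h1 : p.totalDegree = 0 := by
    rw [totalDegree_eq_zero_iff]
    intro m hm i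
    have h2 := h i
    have h3 : m i ≤ degreeOf i p := monomial_le_degreeOf i hm
    omega
  rw [totalDegree_eq_zero_iff_eq_C] at h1
  rw [h1]
  apply IsUnit.map
  rw [isUnit_iff_ne_zero]
  intro h2
  rw [h2, map_zero] at h1
  exact hp.ne_zero h1

open Classical in
/-- the tuple restricted to `T` -/
noncomputable def rt {A : Type} [Zero A] (T : Set (Fin n)) (u : Fin n → A) : Fin n → A :=
  fun i => if i ∈ T then u i else 0

/-- if `p` involves `u_j`, then `u_f` is not integral over the polynomials in the `u_i`, `i ∈ T`,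
when `f, j ∉ T`, `f ≠ j` -/
theorem noInt {p : MvPolynomial (Fin n) ℂ} {j f : Fin n} (hj : 0 < degreeOf j p)
    (hjf : f ≠ j) {T : Set (Fin n)} (hjT : j ∉ T) (hfT : f ∉ T) {k : Type} [Field k] [Algebra ℂ k]
    {u : Fin n → k} (hu : Gen p u) :
    ¬ ((aeval (rt T u) : MvPolynomial (Fin n) ℂ →ₐ[ℂ] k) : MvPolynomial (Fin n) ℂ →+* k).IsIntegralElem
      (u f) := by
  classical
  rintro ⟨q, hq, hq2⟩
  let θ : MvPolynomial (Fin n) ℂ →ₐ[ℂ] MvPolynomial (Fin n) ℂ := aeval (rt T X)
  let P : MvPolynomial (Fin n) ℂ :=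
    Polynomial.eval₂ (θ : MvPolynomial (Fin n) ℂ →+* MvPolynomial (Fin n) ℂ) (X f) q
  have hθ : (aeval u).comp θ = aeval (rt T u) := by
    apply MvPolynomial.algHom_ext
    intro i
    simp only [θ, AlgHom.comp_apply, aeval_X, rt]
    split_ifs
    · rw [aeval_X]
    · rw [map_zero]
  have hP1 : aeval u P = 0 := by
    rw [← hq2]
    simp only [P]
    have := Polynomial.hom_eval₂ q (θ : MvPolynomial (Fin n) ℂ →+* MvPolynomial (Fin n) ℂ)
      ((aeval u : MvPolynomial (Fin n) ℂ →ₐ[ℂ] k) : MvPolynomial (Fin n) ℂ →+* k) (X f)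
    rw [RingHom.coe_coe] at this
    rw [this, aeval_X]
    congr 1
    rw [← hθ]
    rfl
  have hP2 := hu P hP1
  -- P is nonzero
  have hP3 : P ≠ 0 := by
    intro h0
    let ψ : MvPolynomial (Fin n) ℂ →ₐ[ℂ] Polynomial (MvPolynomial (Fin n) ℂ) :=
      aeval fun i => if i = f then Polynomial.X else Polynomial.C (X i)
    have h1 : ψ P = q.map (θ : MvPolynomial (Fin n) ℂ →+* MvPolynomial (Fin n) ℂ) := by
      have h2 := Polynomial.hom_eval₂ q (θ : MvPolynomial (Fin n) ℂ →+* MvPolynomial (Fin n) ℂ)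
        (ψ : MvPolynomial (Fin n) ℂ →+* Polynomial (MvPolynomial (Fin n) ℂ)) (X f)
      rw [RingHom.coe_coe] at h2
      simp only [P]
      rw [h2]
      have h3 : ψ (X f) = Polynomial.X := by simp [ψ]
      rw [h3]
      have h4 : (ψ : MvPolynomial (Fin n) ℂ →+* Polynomial (MvPolynomial (Fin n) ℂ)).comp
          (θ : MvPolynomial (Fin n) ℂ →+* MvPolynomial (Fin n) ℂ) =
          Polynomial.C.comp (θ : MvPolynomial (Fin n) ℂ →+* MvPolynomial (Fin n) ℂ) := by
        apply MvPolynomial.ringHom_ext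
        · intro c
          simp only [RingHom.comp_apply, RingHom.coe_coe, θ, algHom_C, algebraMap_eq, ψ]
          rfl
        · intro i
          simp only [RingHom.comp_apply, RingHom.coe_coe, θ, aeval_X, rt]
          by_cases hi : i ∈ T
          · have hif : i ≠ f := fun h => hfT (h ▸ hi)
            simp only [hi, if_true, ψ, aeval_X, hif, if_false]
          · simp only [hi, if_false, map_zero]
      rw [h4, ← Polynomial.eval₂_map, Polynomial.eval₂_C_X]
    rw [h0, map_zero] at h1
    exact (hq.map (θ : MvPolynomial (Fin n) ℂ →+* MvPolynomial (Fin n) ℂ)).ne_zero h1.symm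
  -- P does not involve u_j
  have hP4 : P ∈ supported ℂ ({j}ᶜ : Set (Fin n)) := by
    simp only [P, Polynomial.eval₂_eq_sum]
    apply Subalgebra.sum_mem
    intro i _
    apply Subalgebra.mul_mem
    · have : ∀ g, θ g ∈ supported ℂ ({j}ᶜ : Set (Fin n)) := by
        intro g
        induction g using MvPolynomial.induction_on with
        | C c => rw [algHom_C]; exact Subalgebra.algebraMap_mem _ c
        | add p q hp hq => rw [map_add]; exact Subalgebra.add_mem _ hp hq
        | mul_X p i hp =>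
          rw [map_mul]
          apply Subalgebra.mul_mem _ hp
          simp only [θ, aeval_X, rt]
          split_ifs with hi
          · apply X_mem_supported.2
            intro h
            rw [Set.mem_singleton_iff] at h
            exact hjT (h ▸ hi)
          · exact Subalgebra.zero_mem _
      exact this _
    · apply Subalgebra.pow_mem
      exact X_mem_supported.2 hjf
  have hP5 : degreeOf j P = 0 := by
    by_contra h0
    rw [mem_supported] at hP4
    exact hP4 (mem_vars_iff_degreeOf_ne_zero.2 h0) rfl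
  obtain ⟨r, hr⟩ := hP2
  have hr0 : r ≠ 0 := by
    rintro rfl
    rw [mul_zero] at hr
    exact hP3 hr
  have hp0 : p ≠ 0 := by
    rintro rfl
    rw [zero_mul] at hr
    exact hP3 hr
  rw [hr, degreeOf_mul_eq hp0 hr0] at hP5
  omega

/-- transitivity of the tuples in integrality statements -/
theorem int_trans {σ τ : Type} {k : Type} [Field k] [Algebra ℂ k] {y : σ → k} {y' : τ → k}
    (h : ∀ s, y s ∈ (aeval y' : MvPolynomial τ ℂ →ₐ[ℂ] k).range) {z : k}
    (hz : ((aeval y : MvPolynomial σ ℂ →ₐ[ℂ] k) : MvPolynomial σ ℂ →+* k).IsIntegralElem z) :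
    ((aeval y' : MvPolynomial τ ℂ →ₐ[ℂ] k) : MvPolynomial τ ℂ →+* k).IsIntegralElem z := by
  obtain ⟨q, hq, hq2⟩ := hz
  choose θ hθ using h
  let Θ : MvPolynomial σ ℂ →ₐ[ℂ] MvPolynomial τ ℂ := aeval θ
  refine ⟨q.map (Θ : MvPolynomial σ ℂ →+* MvPolynomial τ ℂ), hq.map _, ?_⟩
  rw [Polynomial.eval₂_map, ← hq2]
  congr 1
  have h1 : (aeval y').comp Θ = aeval y := by
    apply MvPolynomial.algHom_ext
    intro i
    simp only [Θ, AlgHom.comp_apply, aeval_X]
    exact hθ i
  rw [← h1]
  rfl

end noint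

section redint

variable {K k : Type} [Field K] [Algebra ℂ K] [Field k] [Algebra ℂ k] {V : ValuationSubring K}
  {φ : V →+* k}

/-- reduction of integrality statements -/
theorem IsPl.int_red (hp : IsPl V φ) {σ : Type} {y : σ → K} (hy : ∀ i, y i ∈ V) {z : K} (hz : z ∈ V)
    (h : ((aeval y : MvPolynomial σ ℂ →ₐ[ℂ] K) : MvPolynomial σ ℂ →+* K).IsIntegralElem z) :
    ((aeval (fun i => rs φ (y i)) : MvPolynomial σ ℂ →ₐ[ℂ] k) :
      MvPolynomial σ ℂ →+* k).IsIntegralElem (rs φ z) := by
  obtain ⟨q, hq, hq2⟩ := h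
  refine ⟨q, hq, ?_⟩
  have hm : ∀ g : MvPolynomial σ ℂ, aeval y g ∈ V := by
    intro g
    induction g using MvPolynomial.induction_on with
    | C c => rw [algHom_C]; exact hp.const c
    | add p q hp' hq => rw [map_add]; exact V.add_mem _ _ hp' hq
    | mul_X p j hp' => rw [map_mul, aeval_X]; exact V.mul_mem _ _ hp' (hy j)
  have hr : ∀ g : MvPolynomial σ ℂ, rs φ (aeval y g) = aeval (fun i => rs φ (y i)) g := by
    intro g
    induction g using MvPolynomial.induction_on with
    | C c => rw [algHom_C, algHom_C]; exact hp.rs_const c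
    | add p q hp' hq =>
      rw [map_add, map_add, rs_add (hm p) (hm q), hp', hq]
    | mul_X p j hp' =>
      rw [map_mul, map_mul, aeval_X, aeval_X, rs_mul (hm p) (hy j), hp']
  rw [Polynomial.eval₂_eq_sum, Polynomial.sum_def] at hq2 ⊢
  have h1 := congrArg (rs φ) hq2
  rw [rs_zero, rs_sum] at h1
  · rw [← h1]
    refine Finset.sum_congr rfl fun i _ => ?_
    have h2 : rs φ (aeval y (q.coeff i) * z ^ i) = aeval (fun i => rs φ (y i)) (q.coeff i) * rs φ z ^ i := by
      rw [rs_mul (hm _) (pow_mem hz _), rs_pow hz, hr]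
    exact h2.symm
  · intro i _
    exact V.mul_mem _ _ (hm _) (pow_mem hz _)

end redint

end Pool.Agent.H72R
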