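import Pool.Agent.H72R.Spec

/-!
Uniqueness of the small root and the orders of vanishing.
-/

set_option autoImplicit false
set_option linter.unusedSectionVars false

open MvPolynomial

namespace Pool.Agent.H72R

section special

variable {n : ℕ} {L : Submodule ℂ (Fin (n + 1) → ℂ)} {K k : Type} [Field K]
  [Algebra ℂ K] [Field k] [Algebra ℂ k] {V : ValuationSubring K} {φ : V →+* k}

theorem two_ne_k : (2 : k) ≠ 0 := by
  have h1 : (algebraMap ℂ k) 2 ≠ 0 := by
    rw [Ne, map_eq_zero]
    exact two_ne_zero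
  rwa [map_ofNat] at h1

variable {u x w u' x' w' : Fin (n + 1) → K} {f : Fin n}

theorem SP.uniq (hp : IsPl V φ) (hL : NLC L) (h : SP L V u x w f) (h' : SP L V u' x' w' f)
    (huu : ∀ i : Fin n, u i.succ = u' i.succ)
    (hred : ∀ i : Fin n, rs φ (x i.succ) = rs φ (x' i.succ))
    (hQ : QProp L (fun i => rs φ (x i)) (fun i => rs φ (w i))) : u 0 = u' 0 := by
  by_contra hne
  have hxne : ∀ i : Fin n, x i.succ ≠ 0 := by
    intro i h0
    have := h.xs i
    rw [h0, map_zero] at this
    exact zero_ne_one this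
  have hxne' : ∀ i : Fin n, x' i.succ ≠ 0 := by
    intro i h0
    have := h'.xs i
    rw [h0, map_zero] at this
    exact zero_ne_one this
  have hw : ∀ i : Fin n, w i.succ = u i.succ / x i.succ ^ 2 := by
    intro i
    rw [← h.e i.succ]
    have := hxne i
    field_simp
  have hw' : ∀ i : Fin n, w' i.succ = u i.succ / x' i.succ ^ 2 := by
    intro i
    rw [huu i, ← h'.e i.succ]
    have := hxne' i
    field_simp
  obtain ⟨v, hv, hv0⟩ := hL.v
  have hy0 : x' - x ≠ 0 := by
    intro h0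
    have hxx : x' = x := sub_eq_zero.1 h0
    apply hne
    rw [← h.e 0, ← h'.e 0, hxx]
    congr 1
    rw [coord0_eq (L := perp L) (l := v) (by rwa [perp_perp]) hv0 h.hw,
      coord0_eq (L := perp L) (l := v) (by rwa [perp_perp]) hv0 h'.hw]
    congr 1
    refine Finset.sum_congr rfl fun i _ => ?_
    rw [hw, hw', hxx]
  obtain ⟨j, hj, hjV⟩ := exists_norm V hy0
  let y := x' - x
  have hyL : y ∈ Pt K L := (Pt K L).sub_mem h'.hx h.hx
  let z : Fin (n + 1) → K := fun i => y i / y j
  have hz : z ∈ Pt K L := by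
    have := (Pt K L).smul_mem (y j)⁻¹ hyL
    convert this using 1
    funext i
    simp only [z, Pi.smul_apply, smul_eq_mul]
    field_simp
  have h1 : (fun i => rs φ (z i)) = 0 := by
    apply hQ.2 _ (hp.rs_Pt hz hjV) _ f
    · show rs φ (z f.succ) = 0
      have : z f.succ = 0 := by
        simp only [z, y, Pi.sub_apply, h.xf, h'.xf, sub_self, zero_div]
      rw [this]
      exact rs_zero
    · intro v hv hv0
      have h2 := mem_Pt_perp.1 h.hw v hv
      have h3 := mem_Pt_perp.1 h'.hw v hv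
      rw [Fin.sum_univ_succ, hv0, map_zero, zero_mul, zero_add] at h2 h3
      have hm : ∀ i : Fin n, u i.succ * z i.succ * (x i.succ + x' i.succ) /
          (x i.succ ^ 2 * x' i.succ ^ 2) ∈ V := by
        intro i
        apply div_memV
        · exact V.mul_mem _ _ (V.mul_mem _ _ (h.uV _) (hjV _)) (V.add_mem _ _ (h.xV _) (h'.xV _))
        · rw [map_mul, map_pow, map_pow, h.xs, h'.xs]
          simp
      have h4 : ∑ i : Fin n, algebraMap ℂ K (v i.succ) * (u i.succ * z i.succ *
          (x i.succ + x' i.succ) / (x i.succ ^ 2 * x' i.succ ^ 2)) = 0 := by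
        have h5 : ∑ i : Fin n, algebraMap ℂ K (v i.succ) * (u i.succ * z i.succ *
            (x i.succ + x' i.succ) / (x i.succ ^ 2 * x' i.succ ^ 2)) =
            (∑ i : Fin n, algebraMap ℂ K (v i.succ) * w i.succ -
              ∑ i : Fin n, algebraMap ℂ K (v i.succ) * w' i.succ) / y j := by
          rw [← Finset.sum_sub_distrib, Finset.sum_div]
          refine Finset.sum_congr rfl fun i _ => ?_
          rw [hw, hw']
          have h6 := hxne i
          have h7 := hxne' i
          have h8 : y j ≠ 0 := hj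
          have h9 : z i.succ = (x' i.succ - x i.succ) / y j := rfl
          rw [h9]
          field_simp
          ring
        rw [h5, h2, h3]
        simp
      have h5 := congrArg (rs φ) h4
      rw [rs_zero, rs_sum fun i _ => V.mul_mem _ _ (hp.const _) (hm i)] at h5
      have h6 : (2 : k) * ∑ i : Fin n, algebraMap ℂ k (v i.succ) *
          (rs φ (z i.succ) * rs φ (w i.succ) / rs φ (x i.succ)) = 0 := by
        rw [← h5, Finset.mul_sum]
        refine Finset.sum_congr rfl fun i _ => ?_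
        have hzV : z i.succ ∈ V := hjV _
        have hA : u i.succ * z i.succ ∈ V := V.mul_mem _ _ (h.uV _) hzV
        have hB : x i.succ + x' i.succ ∈ V := V.add_mem _ _ (h.xV _) (h'.xV _)
        have hC : V.valuation (x i.succ ^ 2 * x' i.succ ^ 2) = 1 := by
          rw [map_mul, map_pow, map_pow, h.xs, h'.xs]
          simp
        have hterm : rs φ (u i.succ * z i.succ * (x i.succ + x' i.succ) /
            (x i.succ ^ 2 * x' i.succ ^ 2)) = rs φ (x i.succ) ^ 2 * rs φ (w i.succ) *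
              rs φ (z i.succ) * (rs φ (x i.succ) + rs φ (x i.succ)) /
                (rs φ (x i.succ) ^ 2 * rs φ (x i.succ) ^ 2) := by
          rw [rs_div (V.mul_mem _ _ hA hB) hC, rs_mul hA hB, rs_mul (h.uV _) hzV,
            rs_add (h.xV _) (h'.xV _), rs_mul (pow_mem (h.xV _) 2) (pow_mem (h'.xV _) 2),
            rs_pow (h.xV _), rs_pow (h'.xV _), ← hred i, h.re i.succ]
        rw [rs_mul (hp.const _) (hm i), hp.rs_const, hterm]
        have := h.rxs hp i
        field_simp
        ring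
      exact (mul_eq_zero.1 h6).resolve_left two_ne_k
  have h2 := congrFun h1 j
  have h3 : z j = 1 := div_self hj
  simp only [h3, Pi.zero_apply] at h2
  rw [rs_one] at h2
  exact one_ne_zero h2

/-- in both types the residues of the `x_i`, `i ≠ 0`, are determined by the residues of the `u_i` -/
theorem red_eq {M : Submodule ℂ (Fin n → ℂ)} {p : MvPolynomial (Fin n) ℂ} {N : ℕ} (hM : Hyp M p N)
    {a b a' b' : Fin n → k} (ha : a ∈ Pt k M) (hb : b ∈ Pt k (perp M)) (ha' : a' ∈ Pt k M)
    (hb' : b' ∈ Pt k (perp M)) (hu : ∀ i, a i ^ 2 * b i = a' i ^ 2 * b' i)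
    (hg : Gen p fun i => a i ^ 2 * b i) (h0 : ∀ i, a i ≠ 0) (h1 : a f = 1) (h1' : a' f = 1) (i : Fin n) :
    a i = a' i := by
  have h2 := hM.bid.pt ha hb i f
  have h3 := hM.bid.pt ha' hb' i f
  have h4 : (fun i => a' i ^ 2 * b' i) = fun i => a i ^ 2 * b i := by
    funext i
    rw [hu i]
  rw [h4] at h3
  have h5 := hM.pderiv_ne ha hb hg h0 i
  rw [h1] at h2
  rw [h1', ← h2] at h3
  exact (mul_right_cancel₀ h5 h3).symm

/-- type `Del`: the order of the constant term is one -/
theorem SP.ord_del (hp : IsPl V φ) (hL : NLC L) (h : SP L V u x w f) (hu0 : rs φ (u 0) = 0)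
    (hx0 : rs φ (x 0) ≠ 0) {p : MvPolynomial (Fin n) ℂ} {N : ℕ} (hH : Hyp (del L) p N)
    (hg : Gen p fun i : Fin n => rs φ (u i.succ)) :
    V.valuation (aeval (fun i : Fin n => u i.succ) p) = V.valuation (u 0) := by
  have hT := h.tdel hp hu0 hx0 hH hg
  obtain ⟨l, hl, hl0⟩ := hL.l
  let wc : Fin (n + 1) → K := w - w 0 • (fun i => algebraMap ℂ K (l i))
  have hwc : wc ∈ Pt K (perp L) :=
    (Pt K (perp L)).sub_mem h.hw ((Pt K (perp L)).smul_mem _ (Pt_const hl))
  have hwc0 : wc 0 = 0 := by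
    simp only [wc, Pi.sub_apply, Pi.smul_apply, smul_eq_mul, hl0, map_one]
    ring
  have h1 := Pt_con' hwc hwc0
  rw [← perp_del] at h1
  have hpJ : p ∈ J (del L) := hH.mem_iff.2 dvd_rfl
  have h2 := J_eval (Pt_del h.hx) h1 hpJ
  let b : Fin n → K := fun i => -(algebraMap ℂ K (l i.succ) * x i.succ ^ 2)
  have hbV : ∀ i, b i ∈ V := fun i =>
    neg_mem (V.mul_mem _ _ (hp.const _) (pow_mem (h.xV _) 2))
  have h3 : (fun i : Fin n => x i.succ ^ 2 * wc i.succ) = fun i => u i.succ + w 0 * b i := by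
    funext i
    rw [← h.e i.succ]
    simp only [wc, b, Pi.sub_apply, Pi.smul_apply, smul_eq_mul]
    ring
  obtain ⟨r, hr, h4⟩ := taylor hp (a := fun i : Fin n => u i.succ) (b := b) (t := w 0)
    (fun i => h.uV _) hbV (h.wV 0) p
  rw [h3, h4] at h2
  set S := ∑ i, aeval (fun i : Fin n => u i.succ) (pderiv i p) * b i with hS
  have hSm : ∀ i : Fin n, aeval (fun i : Fin n => u i.succ) (pderiv i p) * b i ∈ V := fun i =>
    V.mul_mem _ _ (hp.aeval_mem (fun i => h.uV _) _) (hbV i)
  have hSV : S ∈ V := sum_memV fun i _ => hSm i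
  have hSr : rs φ S ≠ 0 := by
    rw [hS, rs_sum fun i _ => hSm i]
    have h5 : ∀ i : Fin n, rs φ (aeval (fun i : Fin n => u i.succ) (pderiv i p) * b i) =
        -(aeval (fun i : Fin n => rs φ (x i.succ) ^ 2 * rs φ (w i.succ)) (pderiv f p)) *
          (algebraMap ℂ k (l i.succ) * rs φ (x i.succ)) := by
      intro i
      rw [rs_mul (hp.aeval_mem (fun i => h.uV _) _) (hbV i), hp.rs_aeval (fun i => h.uV _)]
      have h6 := hH.bid.pt hT.xtail hT.wtail i f
      rw [h.rxf, one_mul] at h6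
      have h7 : (fun i : Fin n => rs φ (x i.succ) ^ 2 * rs φ (w i.succ)) =
          fun i : Fin n => rs φ (u i.succ) := by
        funext i
        exact h.re i.succ
      rw [h7] at h6 ⊢
      rw [← h6]
      simp only [b]
      rw [rs_neg (V.mul_mem _ _ (hp.const _) (pow_mem (h.xV _) 2)),
        rs_mul (hp.const _) (pow_mem (h.xV _) 2), hp.rs_const, rs_pow (h.xV _)]
      ring
    rw [Finset.sum_congr rfl fun i _ => h5 i, ← Finset.mul_sum]
    apply mul_ne_zero
    · rw [neg_ne_zero]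
      exact hH.pderiv_ne hT.xtail hT.wtail (h.gen' hg) (fun i => hT.x0 i.succ) f
    · have h6 := h.redx hp l hl
      rw [Fin.sum_univ_succ, hl0, map_one, one_mul] at h6
      intro h7
      rw [h7, add_zero] at h6
      exact hx0 h6
  have hw0 : rs φ (w 0) = 0 := h.rw0 hu0 hx0
  have h5 : aeval (fun i : Fin n => u i.succ) p = -(w 0 * (S + w 0 * r)) := by
    linear_combination h2
  have h6 : V.valuation (S + w 0 * r) = 1 := by
    apply hp.unit (V.add_mem _ _ hSV (V.mul_mem _ _ (h.wV 0) hr))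
    rw [rs_add hSV (V.mul_mem _ _ (h.wV 0) hr), rs_mul (h.wV 0) hr, hw0, zero_mul, add_zero]
    exact hSr
  rw [h5, Valuation.map_neg, map_mul, h6, mul_one, ← h.e 0, map_mul, map_pow,
    hp.unit (h.xV 0) hx0, one_pow, one_mul]

/-- type `Con`: the order of the constant term is two -/
theorem SP.ord_con (hp : IsPl V φ) (hL : NLC L) (h : SP L V u x w f)
    (hx0 : rs φ (x 0) = 0) {p : MvPolynomial (Fin n) ℂ} {N : ℕ} (hH : Hyp (con L) p N)
    (hC : NoLoop (con L)) (hg : Gen p fun i : Fin n => rs φ (u i.succ)) :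
    V.valuation (aeval (fun i : Fin n => u i.succ) p) ^ 2 = V.valuation (u 0) := by
  have hT := h.tcon hp hx0 hH hg
  obtain ⟨v, hv, hv0⟩ := hL.v
  let xc : Fin (n + 1) → K := x - x 0 • (fun i => algebraMap ℂ K (v i))
  have hxc : xc ∈ Pt K L :=
    (Pt K L).sub_mem h.hx ((Pt K L).smul_mem _ (Pt_const hv))
  have hxc0 : xc 0 = 0 := by
    simp only [xc, Pi.sub_apply, Pi.smul_apply, smul_eq_mul, hv0, map_one]
    ring
  have h1 := Pt_del h.hw
  rw [← perp_con] at h1
  have hpJ : p ∈ J (con L) := hH.mem_iff.2 dvd_rfl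
  have h2 := J_eval (Pt_con' hxc hxc0) h1 hpJ
  let b : Fin n → K := fun i => -(2 * algebraMap ℂ K (v i.succ) * x i.succ * w i.succ) +
    x 0 * (algebraMap ℂ K (v i.succ) ^ 2 * w i.succ)
  have h2V : (2 : K) ∈ V := by
    have := hp.const 2
    rwa [map_ofNat] at this
  have hb1 : ∀ i : Fin n, 2 * algebraMap ℂ K (v i.succ) * x i.succ * w i.succ ∈ V := fun i =>
    V.mul_mem _ _ (V.mul_mem _ _ (V.mul_mem _ _ h2V (hp.const _)) (h.xV _)) (h.wV _)
  have hb2 : ∀ i : Fin n, algebraMap ℂ K (v i.succ) ^ 2 * w i.succ ∈ V := fun i =>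
    V.mul_mem _ _ (pow_mem (hp.const _) 2) (h.wV _)
  have hbV : ∀ i, b i ∈ V := fun i =>
    V.add_mem _ _ (neg_mem (hb1 i)) (V.mul_mem _ _ (h.xV 0) (hb2 i))
  have h3 : (fun i : Fin n => xc i.succ ^ 2 * w i.succ) = fun i => u i.succ + x 0 * b i := by
    funext i
    rw [← h.e i.succ]
    simp only [xc, b, Pi.sub_apply, Pi.smul_apply, smul_eq_mul]
    ring
  obtain ⟨r, hr, h4⟩ := taylor hp (a := fun i : Fin n => u i.succ) (b := b) (t := x 0)
    (fun i => h.uV _) hbV (h.xV 0) p
  rw [h3, h4] at h2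
  set S := ∑ i, aeval (fun i : Fin n => u i.succ) (pderiv i p) * b i with hS
  have hSm : ∀ i : Fin n, aeval (fun i : Fin n => u i.succ) (pderiv i p) * b i ∈ V := fun i =>
    V.mul_mem _ _ (hp.aeval_mem (fun i => h.uV _) _) (hbV i)
  have hSV : S ∈ V := sum_memV fun i _ => hSm i
  have hw0 : rs φ (w 0) ≠ 0 := hT.w0_ne hL hC
  have hr2 : rs φ (2 : K) = 2 := by
    have := hp.rs_const 2
    rwa [map_ofNat, map_ofNat] at this
  have hSr : rs φ S ≠ 0 := by
    rw [hS, rs_sum fun i _ => hSm i]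
    have h5 : ∀ i : Fin n, rs φ (aeval (fun i : Fin n => u i.succ) (pderiv i p) * b i) =
        -(2 * aeval (fun i : Fin n => rs φ (x i.succ) ^ 2 * rs φ (w i.succ)) (pderiv f p)) *
          (algebraMap ℂ k (v i.succ) * rs φ (w i.succ)) := by
      intro i
      rw [rs_mul (hp.aeval_mem (fun i => h.uV _) _) (hbV i), hp.rs_aeval (fun i => h.uV _)]
      have h6 := hH.bid.pt hT.xtail hT.wtail i f
      rw [h.rxf, one_mul] at h6
      have h7 : (fun i : Fin n => rs φ (x i.succ) ^ 2 * rs φ (w i.succ)) =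
          fun i : Fin n => rs φ (u i.succ) := by
        funext i
        exact h.re i.succ
      rw [h7] at h6 ⊢
      rw [← h6]
      simp only [b]
      rw [rs_add (neg_mem (hb1 i)) (V.mul_mem _ _ (h.xV 0) (hb2 i)),
        rs_mul (h.xV 0) (hb2 i), hx0, zero_mul, add_zero,
        rs_neg (hb1 i), rs_mul (V.mul_mem _ _ (V.mul_mem _ _ h2V (hp.const _)) (h.xV _)) (h.wV _),
        rs_mul (V.mul_mem _ _ h2V (hp.const _)) (h.xV _), rs_mul h2V (hp.const _), hp.rs_const, hr2]
      ring
    rw [Finset.sum_congr rfl fun i _ => h5 i, ← Finset.mul_sum]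
    apply mul_ne_zero
    · rw [neg_ne_zero]
      exact mul_ne_zero two_ne_k (hH.pderiv_ne hT.xtail hT.wtail (h.gen' hg) hT.xs f)
    · have h6 := mem_Pt_perp.1 (h.redw hp) v hv
      rw [Fin.sum_univ_succ, hv0, map_one, one_mul] at h6
      intro h7
      rw [h7, add_zero] at h6
      exact hw0 h6
  have h5 : aeval (fun i : Fin n => u i.succ) p = -(x 0 * (S + x 0 * r)) := by
    linear_combination h2
  have h6 : V.valuation (S + x 0 * r) = 1 := by
    apply hp.unit (V.add_mem _ _ hSV (V.mul_mem _ _ (h.xV 0) hr))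
    rw [rs_add hSV (V.mul_mem _ _ (h.xV 0) hr), rs_mul (h.xV 0) hr, hx0, zero_mul, add_zero]
    exact hSr
  rw [h5, Valuation.map_neg, map_mul, h6, mul_one, ← h.e 0, map_mul, map_pow,
    hp.unit (h.wV 0) hw0, mul_one]

end special

end Pool.Agent.H72R
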