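import Pool.Agent.H72R.Types

/-!
Reduction modulo a valuation ring.
-/

set_option autoImplicit false
set_option linter.unusedSectionVars false

open MvPolynomial

namespace Pool.Agent.H72R

section red

variable {K k : Type} [Field K] [Algebra ℂ K] [Field k] [Algebra ℂ k] {V : ValuationSubring K}

open Classical in
/-- total reduction map -/
noncomputable def rs (φ : V →+* k) (x : K) : k := if h : x ∈ V then φ ⟨x, h⟩ else 0

/-- a place of `K` over `ℂ` -/
structure IsPl (V : ValuationSubring K) (φ : V →+* k) : Prop where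
  const : ∀ c : ℂ, algebraMap ℂ K c ∈ V
  rconst : ∀ c : ℂ, φ ⟨algebraMap ℂ K c, const c⟩ = algebraMap ℂ k c
  ker : ∀ a : V, φ a = 0 ↔ V.valuation (a : K) < 1

variable {φ : V →+* k}

theorem rs_of_mem {x : K} (h : x ∈ V) : rs φ x = φ ⟨x, h⟩ := by
  unfold rs
  rw [dif_pos h]

theorem rs_add {x y : K} (hx : x ∈ V) (hy : y ∈ V) : rs φ (x + y) = rs φ x + rs φ y := by
  rw [rs_of_mem hx, rs_of_mem hy, rs_of_mem (V.add_mem _ _ hx hy), ← map_add]
  rfl

theorem rs_mul {x y : K} (hx : x ∈ V) (hy : y ∈ V) : rs φ (x * y) = rs φ x * rs φ y := by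
  rw [rs_of_mem hx, rs_of_mem hy, rs_of_mem (V.mul_mem _ _ hx hy), ← map_mul]
  rfl

theorem rs_zero : rs φ (0 : K) = 0 := by
  rw [rs_of_mem V.zero_mem]
  exact map_zero φ

theorem rs_one : rs φ (1 : K) = 1 := by
  rw [rs_of_mem V.one_mem]
  exact map_one φ

theorem rs_neg {x : K} (hx : x ∈ V) : rs φ (-x) = -rs φ x := by
  rw [rs_of_mem hx, rs_of_mem (V.neg_mem _ hx), ← map_neg]
  rfl

theorem rs_sub {x y : K} (hx : x ∈ V) (hy : y ∈ V) : rs φ (x - y) = rs φ x - rs φ y := by
  rw [sub_eq_add_neg, rs_add hx (V.neg_mem _ hy), rs_neg hy, sub_eq_add_neg]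

theorem rs_pow {x : K} (hx : x ∈ V) (m : ℕ) : rs φ (x ^ m) = rs φ x ^ m := by
  rw [rs_of_mem hx, rs_of_mem (pow_mem hx m), ← map_pow]
  rfl

theorem sum_memV {ι : Type} {s : Finset ι} {f : ι → K} (h : ∀ i ∈ s, f i ∈ V) :
    ∑ i ∈ s, f i ∈ V := sum_mem h

theorem rs_sum {ι : Type} {s : Finset ι} {f : ι → K} (h : ∀ i ∈ s, f i ∈ V) :
    rs φ (∑ i ∈ s, f i) = ∑ i ∈ s, rs φ (f i) := by
  classical
  induction s using Finset.induction_on with
  | empty => simp [rs_zero]
  | insert a s ha ih =>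
    rw [Finset.sum_insert ha, Finset.sum_insert ha,
      rs_add (h a (Finset.mem_insert_self a s))
        (sum_memV fun i hi => h i (Finset.mem_insert_of_mem hi)),
      ih fun i hi => h i (Finset.mem_insert_of_mem hi)]

theorem IsPl.rs_eq_zero (hp : IsPl V φ) {x : K} (hx : x ∈ V) : rs φ x = 0 ↔ V.valuation x < 1 := by
  rw [rs_of_mem hx]
  exact hp.ker ⟨x, hx⟩

theorem IsPl.rs_const (hp : IsPl V φ) (c : ℂ) : rs φ (algebraMap ℂ K c) = algebraMap ℂ k c := by
  rw [rs_of_mem (hp.const c)]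
  exact hp.rconst c

theorem mem_of_lt {x : K} (h : V.valuation x < 1) : x ∈ V := (V.valuation_le_one_iff _).1 h.le

theorem IsPl.unit (hp : IsPl V φ) {x : K} (hx : x ∈ V) (h : rs φ x ≠ 0) : V.valuation x = 1 := by
  rw [Ne, hp.rs_eq_zero hx, not_lt] at h
  exact le_antisymm ((V.valuation_le_one_iff _).2 hx) h

theorem inv_memV {x : K} (h : V.valuation x = 1) : x⁻¹ ∈ V := by
  rw [← V.valuation_le_one_iff, map_inv₀, h, inv_one]

theorem rs_inv {x : K} (h : V.valuation x = 1) : rs φ x⁻¹ = (rs φ x)⁻¹ := by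
  have hx : x ∈ V := (V.valuation_le_one_iff _).1 h.le
  have h0 : x ≠ 0 := by
    intro h0
    rw [h0, map_zero] at h
    exact zero_ne_one h
  have h1 : rs φ x * rs φ x⁻¹ = 1 := by
    rw [← rs_mul hx (inv_memV h), mul_inv_cancel₀ h0, rs_one]
  exact eq_inv_of_mul_eq_one_right h1

theorem rs_div {x y : K} (hx : x ∈ V) (h : V.valuation y = 1) : rs φ (x / y) = rs φ x / rs φ y := by
  rw [div_eq_mul_inv, rs_mul hx (inv_memV h), rs_inv h, div_eq_mul_inv]

theorem div_memV {x y : K} (hx : x ∈ V) (h : V.valuation y = 1) : x / y ∈ V := by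
  rw [div_eq_mul_inv]
  exact V.mul_mem _ _ hx (inv_memV h)

variable {ι : Type} [Fintype ι]

theorem IsPl.rs_Pt (hp : IsPl V φ) {L : Submodule ℂ (ι → ℂ)} {x : ι → K} (hx : x ∈ Pt K L)
    (hV : ∀ i, x i ∈ V) : (fun i => rs φ (x i)) ∈ Pt k L := by
  intro l hl
  have h := congrArg (rs φ) (hx l hl)
  rw [rs_sum fun i _ => V.mul_mem _ _ (hp.const _) (hV i), rs_zero] at h
  rw [← h]
  refine Finset.sum_congr rfl fun i _ => ?_
  rw [rs_mul (hp.const _) (hV i), hp.rs_const]

theorem IsPl.aeval_mem (hp : IsPl V φ) {u : ι → K} (hu : ∀ i, u i ∈ V) (g : MvPolynomial ι ℂ) :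
    aeval u g ∈ V := by
  induction g using MvPolynomial.induction_on with
  | C c => rw [algHom_C]; exact hp.const c
  | add p q hp' hq => rw [map_add]; exact V.add_mem _ _ hp' hq
  | mul_X p j hp' => rw [map_mul, aeval_X]; exact V.mul_mem _ _ hp' (hu j)

theorem IsPl.rs_aeval (hp : IsPl V φ) {u : ι → K} (hu : ∀ i, u i ∈ V) (g : MvPolynomial ι ℂ) :
    rs φ (aeval u g) = aeval (fun i => rs φ (u i)) g := by
  induction g using MvPolynomial.induction_on with
  | C c => rw [algHom_C, algHom_C]; exact hp.rs_const c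
  | add p q hp' hq => rw [map_add, map_add, rs_add (hp.aeval_mem hu p) (hp.aeval_mem hu q), hp', hq]
  | mul_X p j hp' =>
    rw [map_mul, map_mul, aeval_X, aeval_X, rs_mul (hp.aeval_mem hu p) (hu j), hp']

/-- normalization: a nonzero vector is a multiple of a vector over `V` with a coordinate equal to `1` -/
theorem exists_norm (V : ValuationSubring K) {y : ι → K} (hy : y ≠ 0) :
    ∃ j, y j ≠ 0 ∧ ∀ i, y i / y j ∈ V := by
  have hne : Nonempty ι := by
    by_contra h
    rw [not_nonempty_iff] at h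
    exact hy (Subsingleton.elim _ _)
  obtain ⟨j, -, hj⟩ := Finset.exists_max_image Finset.univ (fun i => V.valuation (y i))
    Finset.univ_nonempty
  have hj0 : y j ≠ 0 := by
    intro h0
    apply hy
    funext i
    have := hj i (Finset.mem_univ i)
    rw [h0, map_zero] at this
    exact (map_eq_zero V.valuation).1 (le_zero_iff.1 this)
  refine ⟨j, hj0, fun i => ?_⟩
  rw [← V.valuation_le_one_iff, map_div₀]
  exact div_le_one_of_le₀ (hj i (Finset.mem_univ i)) zero_le

/-- from a prime ideal of a domain to a place -/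
theorem exists_pl {A : Type} [CommRing A] [Algebra ℂ A] (e : A →ₐ[ℂ] K)
    (he : Function.Injective e) (Q : Ideal A) [Q.IsPrime] :
    ∃ (V : ValuationSubring K) (k : Type) (_ : Field k) (_ : Algebra ℂ k) (φ : V →+* k),
      IsPl V φ ∧ (∀ a, e a ∈ V) ∧ ∀ a, rs φ (e a) = 0 ↔ a ∈ Q := by
  obtain ⟨V, h1, h2⟩ := exists_place (e : A →+* K) he Q
  have hc : ∀ c : ℂ, algebraMap ℂ K c ∈ V := by
    intro c
    have := h1 (algebraMap ℂ A c)
    rwa [AlgHom.coe_toRingHom, AlgHom.commutes] at this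
  let ψ : ℂ →+* V := (algebraMap ℂ K).codRestrict V.toSubring hc
  let φ : V →+* IsLocalRing.ResidueField V := IsLocalRing.residue V
  let : Algebra ℂ (IsLocalRing.ResidueField V) := (φ.comp ψ).toAlgebra
  have hpl : IsPl V φ := by
    refine ⟨hc, fun c => rfl, fun a => ?_⟩
    rw [← V.valuation_lt_one_iff]
    exact IsLocalRing.residue_eq_zero_iff a
  refine ⟨V, IsLocalRing.ResidueField V, inferInstance, inferInstance, φ, hpl, h1, fun a => ?_⟩
  exact (hpl.rs_eq_zero (h1 a)).trans (h2 a)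

end red

section nd

variable {n : ℕ} {L : Submodule ℂ (Fin (n + 1) → ℂ)} {K k : Type} [Field K] [Algebra ℂ K] [Field k]
  [Algebra ℂ k] {V : ValuationSubring K} {φ : V →+* k}

/-- the abstract conclusion of the lemmas `Q` -/
def QProp (L : Submodule ℂ (Fin (n + 1) → ℂ)) (x w : Fin (n + 1) → k) : Prop :=
  (∀ i : Fin n, x i.succ ≠ 0) ∧ ∀ y : Fin (n + 1) → k, y ∈ Pt k L →
    EqE L (fun i => y i.succ * w i.succ / x i.succ) → ∀ f : Fin n, y f.succ = 0 → y = 0

/-- nondegeneracy of a point which specializes to a special point -/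
theorem nd_of_red (hp : IsPl V φ) {x w : Fin (n + 1) → K}
    (hxV : ∀ i, x i ∈ V) (hwV : ∀ i, w i ∈ V)
    (hQ : QProp L (fun i => rs φ (x i)) (fun i => rs φ (w i)))
    {y : Fin (n + 1) → K} (hy : y ∈ Pt K L)
    (hyw : (fun i => y i * w i / x i) ∈ Pt K (perp L)) (f : Fin n) (hf : y f.succ = 0) : y = 0 := by
  by_contra hne
  obtain ⟨j, hj, hjV⟩ := exists_norm V hne
  let z : Fin (n + 1) → K := fun i => y i / y j
  have hz : z ∈ Pt K L := by
    have := (Pt K L).smul_mem (y j)⁻¹ hy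
    convert this using 1
    funext i
    simp only [z, Pi.smul_apply, smul_eq_mul]
    field_simp
  have hunit : ∀ i : Fin n, V.valuation (x i.succ) = 1 := fun i => hp.unit (hxV _) (hQ.1 i)
  have h1 : (fun i => rs φ (z i)) = 0 := by
    apply hQ.2 _ (hp.rs_Pt hz hjV)
    · intro v hv hv0
      have h2 := mem_Pt_perp.1 hyw v hv
      rw [Fin.sum_univ_succ, hv0, map_zero, zero_mul, zero_add] at h2
      have h3 : ∑ i : Fin n, algebraMap ℂ K (v i.succ) * (z i.succ * w i.succ / x i.succ) = 0 := by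
        have : ∑ i : Fin n, algebraMap ℂ K (v i.succ) * (z i.succ * w i.succ / x i.succ) =
            (∑ i : Fin n, algebraMap ℂ K (v i.succ) * (y i.succ * w i.succ / x i.succ)) / y j := by
          rw [Finset.sum_div]
          refine Finset.sum_congr rfl fun i _ => ?_
          simp only [z]
          ring
        rw [this, h2, zero_div]
      have hm : ∀ i : Fin n, z i.succ * w i.succ / x i.succ ∈ V := fun i =>
        div_memV (V.mul_mem _ _ (hjV _) (hwV _)) (hunit i)
      have h4 := congrArg (rs φ) h3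
      rw [rs_zero, rs_sum fun i _ => V.mul_mem _ _ (hp.const _) (hm i)] at h4
      rw [← h4]
      refine Finset.sum_congr rfl fun i _ => ?_
      rw [rs_mul (hp.const _) (hm i), hp.rs_const, rs_div (V.mul_mem _ _ (hjV _) (hwV _)) (hunit i),
        rs_mul (hjV _) (hwV _)]
    · show rs φ (z f.succ) = 0
      simp only [z, hf, zero_div]
      exact rs_zero
  have h2 := congrFun h1 j
  simp only [z, div_self hj, Pi.zero_apply] at h2
  rw [rs_one] at h2
  exact one_ne_zero h2

end nd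

end Pool.Agent.H72R
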