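import Pool.Agent.H72R.Cut

/-!
Special points over the divisors of the constant term.
-/

set_option autoImplicit false
set_option linter.unusedSectionVars false

open MvPolynomial

namespace Pool.Agent.H72R

section taylor

variable {K k : Type} [Field K] [Algebra ℂ K] [Field k] [Algebra ℂ k] {V : ValuationSubring K}
  {φ : V →+* k} {ι : Type} [Fintype ι]

theorem taylor (hp : IsPl V φ) {a b : ι → K} {t : K} (ha : ∀ i, a i ∈ V) (hb : ∀ i, b i ∈ V)
    (ht : t ∈ V) (g : MvPolynomial ι ℂ) :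
    ∃ r ∈ V, aeval (fun i => a i + t * b i) g =
      aeval a g + t * ∑ i, aeval a (pderiv i g) * b i + t ^ 2 * r := by
  classical
  induction g using MvPolynomial.induction_on with
  | C c =>
    refine ⟨0, V.zero_mem, ?_⟩
    simp [algHom_C]
  | add p q hp' hq =>
    obtain ⟨r, hr, h1⟩ := hp'
    obtain ⟨s, hs, h2⟩ := hq
    refine ⟨r + s, V.add_mem _ _ hr hs, ?_⟩
    simp only [map_add, h1, h2, add_mul, Finset.sum_add_distrib]
    ring
  | mul_X p j hp' =>
    obtain ⟨r, hr, h1⟩ := hp'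
    have hS : ∑ i, aeval a (pderiv i p) * b i ∈ V := by
      apply sum_memV
      intro i _
      exact V.mul_mem _ _ (hp.aeval_mem ha _) (hb i)
    refine ⟨r * a j + (∑ i, aeval a (pderiv i p) * b i) * b j + t * (r * b j), ?_, ?_⟩
    · exact V.add_mem _ _ (V.add_mem _ _ (V.mul_mem _ _ hr (ha j)) (V.mul_mem _ _ hS (hb j)))
        (V.mul_mem _ _ ht (V.mul_mem _ _ hr (hb j)))
    · have h2 : ∑ i, aeval a (pderiv i (p * X j)) * b i =
          (∑ i, aeval a (pderiv i p) * b i) * a j + aeval a p * b j := by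
        simp only [pderiv_mul, pderiv_X, map_add, map_mul, aeval_X, add_mul, Finset.sum_add_distrib]
        have h3 : ∑ i, aeval a p * aeval a ((Pi.single i (1 : MvPolynomial ι ℂ) :
            ι → MvPolynomial ι ℂ) j) * b i = aeval a p * b j := by
          rw [Finset.sum_eq_single j]
          · simp
          · intro i _ hij
            rw [Pi.single_eq_of_ne (Ne.symm hij)]
            simp
          · simp
        rw [h3, Finset.sum_mul]
        congr 1
        refine Finset.sum_congr rfl fun i _ => ?_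
        ring
      rw [h2, map_mul, map_mul, aeval_X, aeval_X, h1]
      ring

end taylor

section sep

variable {ι : Type} [Fintype ι] [DecidableEq ι]

/-- `L` has no nontrivial separator -/
def NoSep (L : Submodule ℂ (ι → ℂ)) : Prop :=
  ∀ S : Set ι, (∀ v ∈ L, rstL S v ∈ L) → S = ∅ ∨ S = Set.univ

theorem sep_aux {n : ℕ} {M : Submodule ℂ (Fin n → ℂ)} {p : MvPolynomial (Fin n) ℂ} {j f : Fin n}
    (hj : 0 < degreeOf j p) (hJ : ∀ g ∈ J M, p ∣ g) {S : Set (Fin n)} (hS : ∀ v ∈ M, rstL S v ∈ M)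
    (hfS : f ∈ S) (hjS : j ∉ S) {K : Type} [Field K] [Algebra ℂ K]
    (e : R (Fin n) →ₐ[ℂ] K) (he : Function.Injective e) : False := by
  classical
  let x : Fin n → K := fun i => if i ∈ S then e (gx M i) else 0
  let w : Fin n → K := fun i => e (gw M i)
  have hx0 : (fun i => e (gx M i)) ∈ Pt K M := Pt_map (gx_mem M) e
  have hx : x ∈ Pt K M := by
    intro l hl
    have h1 : rstL S l ∈ perp M := by
      intro v hv
      have h2 := hl (rstL S v) (hS v hv)
      rw [← h2]
      refine Finset.sum_congr rfl fun i _ => ?_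
      by_cases hi : i ∈ S
      · rw [rstL_of_mem hi, rstL_of_mem hi]
      · rw [rstL_of_notMem hi, rstL_of_notMem hi]
        simp
    have h2 := hx0 _ h1
    rw [← h2]
    refine Finset.sum_congr rfl fun i _ => ?_
    by_cases hi : i ∈ S
    · rw [rstL_of_mem hi]
      simp [x, hi]
    · rw [rstL_of_notMem hi]
      simp [x, hi]
  have hw : w ∈ Pt K (perp M) := Pt_map (gw_mem M) e
  let T : Set (Fin n) := {l | l ∈ S ∧ l ≠ f}
  have h1 := integral hx hw f (rt T fun i => e (gu M i)) (by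
    intro l hl
    by_cases hlS : l ∈ S
    · refine ⟨X l, ?_⟩
      show aeval _ (X l) = _
      have : l ∈ T := ⟨hlS, hl⟩
      rw [aeval_X]
      simp only [rt, this, if_true, x, hlS, w]
      unfold gu
      rw [map_mul, map_pow]
    · have : x l ^ 2 * w l = 0 := by simp [x, hlS]
      rw [this]
      exact Subalgebra.zero_mem _)
  have h2 : x f ^ 2 * w f = e (gu M f) := by
    simp only [x, hfS, if_true, w]
    unfold gu
    rw [map_mul, map_pow]
  rw [h2] at h1
  have hg : Gen p fun i => e (gu M i) := by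
    intro g hg
    apply hJ
    rw [mem_J]
    apply he
    rw [map_zero, ← hg, ← AlgHom.comp_apply, comp_aeval]
  exact noInt (T := T) (u := fun i => e (gu M i)) hj (fun h => hjS (h ▸ hfS)) (fun h => hjS h.1)
    (fun h => h.2 rfl) hg h1

theorem noSep_of_J {n : ℕ} {M : Submodule ℂ (Fin n → ℂ)} {p : MvPolynomial (Fin n) ℂ}
    (hp : Irreducible p) (hJ : ∀ g ∈ J M, p ∣ g) : NoSep M := by
  classical
  intro S hS
  by_contra hcon
  push Not at hcon
  obtain ⟨h1, h2⟩ := hcon
  obtain ⟨i, hi⟩ := Set.nonempty_iff_ne_empty.2 (Set.nonempty_iff_ne_empty.1 h1)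
  obtain ⟨j', hj'⟩ := (Set.ne_univ_iff_exists_notMem S).1 h2
  obtain ⟨j, hj⟩ := exists_degreeOf_pos hp
  by_cases hjS : j ∈ S
  · refine sep_aux (S := Sᶜ) (f := j') hj hJ ?_ hj' (fun h => h hjS)
      (K := FractionRing (R (Fin n)))
      (IsScalarTower.toAlgHom ℂ (R (Fin n)) (FractionRing (R (Fin n))))
      (IsFractionRing.injective (R (Fin n)) (FractionRing (R (Fin n))))
    intro v hv
    have h3 : rstL Sᶜ v = v - rstL S v := by
      funext l
      by_cases hl : l ∈ S
      · rw [rstL_of_notMem (by simpa using hl), Pi.sub_apply, rstL_of_mem hl, sub_self]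
      · rw [rstL_of_mem (by simpa using hl), Pi.sub_apply, rstL_of_notMem hl, sub_zero]
    rw [h3]
    exact M.sub_mem hv (hS v hv)
  · exact sep_aux (S := S) (f := i) hj hJ hS hi hjS
      (K := FractionRing (R (Fin n)))
      (IsScalarTower.toAlgHom ℂ (R (Fin n)) (FractionRing (R (Fin n))))
      (IsFractionRing.injective (R (Fin n)) (FractionRing (R (Fin n))))

theorem J_eq {M : Submodule ℂ (ι → ℂ)} {p A : MvPolynomial ι ℂ}
    (hp : Irreducible p) (hJ : ∀ g ∈ J M, p ∣ g) (hA : A ∈ J M) (hA0 : A ≠ 0) :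
    J M = Ideal.span {p} := by
  have hne : J M ≠ ⊥ := by
    intro h
    rw [h, Ideal.mem_bot] at hA
    exact hA0 hA
  obtain ⟨q, hq, hq2⟩ := Ideal.IsPrime.exists_mem_prime_of_ne_bot (J_prime (L := M)) hne
  have h1 : Associated p q := hp.associated_of_dvd hq2.irreducible (hJ q hq)
  apply le_antisymm
  · intro g hg
    rw [Ideal.mem_span_singleton]
    exact hJ g hg
  · rw [Ideal.span_singleton_le_iff_mem]
    obtain ⟨r, hr⟩ := h1.symm.dvd
    rw [hr]
    exact Ideal.mul_mem_right _ _ hq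

theorem Hyp.congr {L : Submodule ℂ (ι → ℂ)} {p q : MvPolynomial ι ℂ} {N : ℕ} (h : Hyp L p N)
    (hq : Irreducible q) (hJ : J L = Ideal.span {q}) : Hyp L q N := by
  have hass : Associated p q := by
    rw [← Ideal.span_singleton_eq_span_singleton, ← h.gen, hJ]
  obtain ⟨c, hc⟩ := hass
  obtain ⟨c', hc'⟩ := (MvPolynomial.isUnit_iff_eq_C_of_isReduced.1 c.isUnit)
  rw [hc'.2, mul_comm] at hc
  refine ⟨hq, ?_, hJ, ?_⟩
  · rw [← hc]
    exact h.hom.C_mul c'
  · intro i j
    rw [← hc, pderiv_C_mul, pderiv_C_mul, map_mul, map_mul]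
    linear_combination (aeval (gu L) (C c')) * h.bid i j

end sep

section special

variable {n : ℕ} {L : Submodule ℂ (Fin (n + 1) → ℂ)} {K k : Type} [Field K]
  [Algebra ℂ K] [Field k] [Algebra ℂ k] {V : ValuationSubring K} {φ : V →+* k}

/-- normalized points over `V` -/
structure SP (L : Submodule ℂ (Fin (n + 1) → ℂ)) (V : ValuationSubring K)
    (u x w : Fin (n + 1) → K) (f : Fin n) : Prop where
  hx : x ∈ Pt K L
  hw : w ∈ Pt K (perp L)
  e : ∀ i, x i ^ 2 * w i = u i
  xV : ∀ i, x i ∈ V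
  wV : ∀ i, w i ∈ V
  xs : ∀ i : Fin n, V.valuation (x i.succ) = 1
  xf : x f.succ = 1

theorem exists_SP (hp : IsPl V φ) (hL : NLC L) {x w u : Fin (n + 1) → K} (hx : x ∈ Pt K L)
    (hw : w ∈ Pt K (perp L)) (hx0 : ∀ i, x i ≠ 0) (hu : ∀ i, x i ^ 2 * w i = u i)
    (huV : ∀ i, u i ∈ V) (hlev : ∀ i j : Fin n, V.valuation (x i.succ) = V.valuation (x j.succ))
    (f : Fin n) : ∃ x' w' : Fin (n + 1) → K, SP L V u x' w' f := by
  let x' : Fin (n + 1) → K := (x f.succ)⁻¹ • x
  let w' : Fin (n + 1) → K := (x f.succ ^ 2) • w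
  have hx' : x' ∈ Pt K L := (Pt K L).smul_mem _ hx
  have hw' : w' ∈ Pt K (perp L) := (Pt K (perp L)).smul_mem _ hw
  have hxs : ∀ i : Fin n, V.valuation (x' i.succ) = 1 := by
    intro i
    simp only [x', Pi.smul_apply, smul_eq_mul, map_mul, map_inv₀]
    rw [hlev i f]
    exact inv_mul_cancel₀ ((V.valuation.ne_zero_iff).2 (hx0 _))
  have he : ∀ i, x' i ^ 2 * w' i = u i := by
    intro i
    rw [← hu i]
    have := hx0 f.succ
    simp only [x', w', Pi.smul_apply, smul_eq_mul]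
    field_simp
  have hws : ∀ i : Fin n, w' i.succ ∈ V := by
    intro i
    have h1 : w' i.succ = u i.succ / x' i.succ ^ 2 := by
      rw [← he i.succ]
      have : x' i.succ ≠ 0 := by
        intro h0
        have := hxs i
        rw [h0, map_zero] at this
        exact zero_ne_one this
      field_simp
    rw [h1]
    exact div_memV (huV _) (by rw [map_pow, hxs, one_pow])
  have hxsV : ∀ i : Fin n, x' i.succ ∈ V := fun i => (V.valuation_le_one_iff _).1 (hxs i).le
  obtain ⟨l, hl, hl0⟩ := hL.l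
  obtain ⟨v, hv, hv0⟩ := hL.v
  refine ⟨x', w', hx', hw', he, ?_, ?_, hxs, ?_⟩
  · intro i
    refine Fin.cases ?_ hxsV i
    rw [coord0_eq hl hl0 hx']
    exact neg_mem (sum_memV fun i _ => V.mul_mem _ _ (hp.const _) (hxsV i))
  · intro i
    refine Fin.cases ?_ hws i
    rw [coord0_eq (L := perp L) (l := v) (by rwa [perp_perp]) hv0 hw']
    exact neg_mem (sum_memV fun i _ => V.mul_mem _ _ (hp.const _) (hws i))
  · simp only [x', Pi.smul_apply, smul_eq_mul]
    exact inv_mul_cancel₀ (hx0 _)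

variable {u x w : Fin (n + 1) → K} {f : Fin n}

theorem SP.redx (h : SP L V u x w f) (hp : IsPl V φ) : (fun i => rs φ (x i)) ∈ Pt k L :=
  hp.rs_Pt h.hx h.xV

theorem SP.redw (h : SP L V u x w f) (hp : IsPl V φ) : (fun i => rs φ (w i)) ∈ Pt k (perp L) :=
  hp.rs_Pt h.hw h.wV

theorem SP.re (h : SP L V u x w f) (i : Fin (n + 1)) :
    rs φ (x i) ^ 2 * rs φ (w i) = rs φ (u i) := by
  rw [← h.e i, rs_mul (pow_mem (h.xV i) 2) (h.wV i), rs_pow (h.xV i)]

theorem SP.rxs (h : SP L V u x w f) (hp : IsPl V φ) (i : Fin n) : rs φ (x i.succ) ≠ 0 := by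
  intro h0
  rw [hp.rs_eq_zero (h.xV _), h.xs i] at h0
  exact lt_irrefl _ h0

theorem SP.rxf (h : SP L V u x w f) : rs φ (x f.succ) = 1 := by
  rw [h.xf, rs_one]

theorem SP.uV (h : SP L V u x w f) (i : Fin (n + 1)) : u i ∈ V := by
  rw [← h.e i]
  exact V.mul_mem _ _ (pow_mem (h.xV i) 2) (h.wV i)

theorem SP.rw0 (h : SP L V u x w f) (hu0 : rs φ (u 0) = 0) (hx0 : rs φ (x 0) ≠ 0) :
    rs φ (w 0) = 0 := by
  have h1 := h.re (φ := φ) 0
  rw [hu0] at h1
  exact (mul_eq_zero.1 h1).resolve_left (pow_ne_zero 2 hx0)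

theorem SP.gen' (h : SP L V u x w f) {p : MvPolynomial (Fin n) ℂ}
    (hg : Gen p fun i : Fin n => rs φ (u i.succ)) :
    Gen p fun i : Fin n => rs φ (x i.succ) ^ 2 * rs φ (w i.succ) := by
  have : (fun i : Fin n => rs φ (x i.succ) ^ 2 * rs φ (w i.succ)) =
      fun i : Fin n => rs φ (u i.succ) := by
    funext i
    exact h.re i.succ
  rw [this]
  exact hg

theorem SP.del_dvd (h : SP L V u x w f) (hp : IsPl V φ) (hu0 : rs φ (u 0) = 0)
    (hx0 : rs φ (x 0) ≠ 0) {p : MvPolynomial (Fin n) ℂ}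
    (hg : Gen p fun i : Fin n => rs φ (u i.succ)) : ∀ g ∈ J (del L), p ∣ g := by
  intro g hgJ
  apply h.gen' hg
  have h1 := Pt_con' (h.redw hp) (h.rw0 hu0 hx0)
  rw [← perp_del] at h1
  exact J_eval (Pt_del (h.redx hp)) h1 hgJ

theorem SP.con_dvd (h : SP L V u x w f) (hp : IsPl V φ)
    (hx0 : rs φ (x 0) = 0) {p : MvPolynomial (Fin n) ℂ}
    (hg : Gen p fun i : Fin n => rs φ (u i.succ)) : ∀ g ∈ J (con L), p ∣ g := by
  intro g hgJ
  apply h.gen' hg
  have h1 := Pt_del (h.redw hp)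
  rw [← perp_con] at h1
  exact J_eval (Pt_con' (h.redx hp) hx0) h1 hgJ

theorem SP.noLoop_con (h : SP L V u x w f) (hp : IsPl V φ) (hx0 : rs φ (x 0) = 0) :
    NoLoop (con L) := by
  rw [noLoop_iff]
  intro i
  by_contra hcon
  push Not at hcon
  have h1 : (Pi.single i 1 : Fin n → ℂ) ∈ perp (con L) := by
    intro v hv
    rw [Finset.sum_eq_single i]
    · by_contra h0
      simp only [Pi.single_eq_same, mul_one] at h0
      exact hcon ((v i)⁻¹ • v) ((con L).smul_mem _ hv) (by simp [h0])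
    · intro j _ hj
      simp [hj]
    · simp
  have h2 := Pt_con' (h.redx hp) hx0 _ h1
  rw [Finset.sum_eq_single i] at h2
  · simp only [Pi.single_eq_same, map_one, one_mul] at h2
    exact h.rxs hp i h2
  · intro j _ hj
    simp [hj]
  · simp

theorem SP.tdel (h : SP L V u x w f) (hp : IsPl V φ) (hu0 : rs φ (u 0) = 0)
    (hx0 : rs φ (x 0) ≠ 0) {p : MvPolynomial (Fin n) ℂ} {N : ℕ} (hH : Hyp (del L) p N)
    (hg : Gen p fun i : Fin n => rs φ (u i.succ)) :
    TDel L p N (fun i => rs φ (x i)) (fun i => rs φ (w i)) where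
  hyp := hH
  hx := h.redx hp
  hw := h.redw hp
  x0 := by
    intro i
    refine Fin.cases hx0 (fun j => h.rxs hp j) i
  w0 := h.rw0 hu0 hx0
  gen := h.gen' hg

theorem SP.tcon (h : SP L V u x w f) (hp : IsPl V φ)
    (hx0 : rs φ (x 0) = 0) {p : MvPolynomial (Fin n) ℂ} {N : ℕ} (hH : Hyp (con L) p N)
    (hg : Gen p fun i : Fin n => rs φ (u i.succ)) :
    TCon L p N (fun i => rs φ (x i)) (fun i => rs φ (w i)) where
  hyp := hH
  hx := h.redx hp
  hw := h.redw hp
  xs := h.rxs hp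
  x0 := hx0
  gen := h.gen' hg

end special

end Pool.Agent.H72R
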