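import Pool.Agent.H72R.Bi

/-!
The two types of special points: `w_0 = 0` (deletion) and `x_0 = 0` (contraction).
-/

set_option autoImplicit false
set_option linter.unusedSectionVars false

open MvPolynomial

namespace Pool.Agent.H72R

section

variable {n : ℕ} {L : Submodule ℂ (Fin (n + 1) → ℂ)} {p : MvPolynomial (Fin n) ℂ} {N : ℕ}
  {k : Type} [Field k] [Algebra ℂ k]

/-- special points with `w_0 = 0` -/
structure TDel (L : Submodule ℂ (Fin (n + 1) → ℂ)) (p : MvPolynomial (Fin n) ℂ) (N : ℕ)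
    (x w : Fin (n + 1) → k) : Prop where
  hyp : Hyp (del L) p N
  hx : x ∈ Pt k L
  hw : w ∈ Pt k (perp L)
  x0 : ∀ i, x i ≠ 0
  w0 : w 0 = 0
  gen : Gen p fun i : Fin n => x i.succ ^ 2 * w i.succ

/-- special points with `x_0 = 0` -/
structure TCon (L : Submodule ℂ (Fin (n + 1) → ℂ)) (p : MvPolynomial (Fin n) ℂ) (N : ℕ)
    (x w : Fin (n + 1) → k) : Prop where
  hyp : Hyp (con L) p N
  hx : x ∈ Pt k L
  hw : w ∈ Pt k (perp L)
  xs : ∀ i : Fin n, x i.succ ≠ 0
  x0 : x 0 = 0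
  gen : Gen p fun i : Fin n => x i.succ ^ 2 * w i.succ

/-- the linear equations (E) -/
def EqE (L : Submodule ℂ (Fin (n + 1) → ℂ)) (z : Fin n → k) : Prop :=
  ∀ v ∈ L, v 0 = 0 → ∑ i : Fin n, algebraMap ℂ k (v i.succ) * z i = 0

theorem EqE.mem {z : Fin n → k} (h : EqE L z) : z ∈ Pt k (perp (con L)) := by
  rw [mem_Pt_perp]
  intro v hv
  rw [mem_con] at hv
  have := h _ hv (Fin.cons_zero _ _)
  simpa [Fin.cons_succ] using this

/-- the coordinate `0` is neither a loop nor a coloop -/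
structure NLC (L : Submodule ℂ (Fin (n + 1) → ℂ)) : Prop where
  v : ∃ v ∈ L, v 0 = 1
  l : ∃ l ∈ perp L, l 0 = 1

theorem TDel.xtail {x w : Fin (n + 1) → k} (h : TDel L p N x w) :
    (fun i : Fin n => x i.succ) ∈ Pt k (del L) := Pt_del h.hx

theorem TDel.wtail {x w : Fin (n + 1) → k} (h : TDel L p N x w) :
    (fun i : Fin n => w i.succ) ∈ Pt k (perp (del L)) := by
  rw [perp_del]
  exact Pt_con' h.hw h.w0

theorem TCon.xtail {x w : Fin (n + 1) → k} (h : TCon L p N x w) :
    (fun i : Fin n => x i.succ) ∈ Pt k (con L) := Pt_con' h.hx h.x0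

theorem TCon.wtail {x w : Fin (n + 1) → k} (h : TCon L p N x w) :
    (fun i : Fin n => w i.succ) ∈ Pt k (perp (con L)) := by
  rw [perp_con]
  exact Pt_del h.hw

theorem TDel.Q {x w y : Fin (n + 1) → k} (h : TDel L p N x w) (hL : NLC L) (hy : y ∈ Pt k L)
    (hE : EqE L fun i => y i.succ * w i.succ / x i.succ) (f : Fin n) (hf : y f.succ = 0) :
    y = 0 := by
  have hz := hE.mem
  have hpair : ∑ i : Fin n, y i.succ * w i.succ = 0 := by
    have := pair_zero hy h.hw
    rwa [Fin.sum_univ_succ, h.w0, mul_zero, zero_add] at this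
  have hz2 : (fun i : Fin n => y i.succ * w i.succ / x i.succ) ∈ Pt k (perp (del L)) := by
    rw [mem_Pt_perp]
    intro v' hv'
    obtain ⟨v, hv, hvv⟩ := mem_del.1 hv'
    have hu : (fun i => algebraMap ℂ k (v i)) - (algebraMap ℂ k (v 0) / x 0) • x ∈ Pt k L :=
      (Pt k L).sub_mem (Pt_const hv) ((Pt k L).smul_mem _ h.hx)
    have hu0 : ((fun i => algebraMap ℂ k (v i)) - (algebraMap ℂ k (v 0) / x 0) • x) 0 = 0 := by
      have := h.x0 0
      simp only [Pi.sub_apply, Pi.smul_apply, smul_eq_mul]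
      field_simp
      ring
    have h1 := pair_zero (Pt_con' hu hu0) hz
    simp only [Pi.sub_apply, Pi.smul_apply, smul_eq_mul, sub_mul, Finset.sum_sub_distrib] at h1
    have h2 : ∑ i : Fin n, algebraMap ℂ k (v 0) / x 0 * x i.succ *
        (y i.succ * w i.succ / x i.succ) = algebraMap ℂ k (v 0) / x 0 *
          ∑ i : Fin n, y i.succ * w i.succ := by
      rw [Finset.mul_sum]
      refine Finset.sum_congr rfl fun i _ => ?_
      have := h.x0 i.succ
      have := h.x0 0
      field_simp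
    rw [h2, hpair, mul_zero, sub_zero] at h1
    rw [← h1]
    exact Finset.sum_congr rfl fun i _ => by rw [hvv i]
  have h3 : ∀ i : Fin n, y i.succ = 0 := by
    intro i
    have h4 := h.hyp.nondeg h.xtail h.wtail h.gen (fun i => h.x0 i.succ) (Pt_del hy) hz2 i f
    rw [hf, zero_mul] at h4
    exact (mul_eq_zero.1 h4).resolve_right (h.x0 f.succ)
  obtain ⟨l, hl, hl0⟩ := hL.l
  funext i
  refine Fin.cases ?_ (fun j => ?_) i
  · rw [coord0_eq hl hl0 hy]
    simp [h3]
  · exact h3 j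

theorem TCon.w0_ne {x w : Fin (n + 1) → k} (h : TCon L p N x w) (hL : NLC L)
    (hC : ∀ i, gx (con L) i ≠ 0) : w 0 ≠ 0 := by
  intro hw0
  obtain ⟨v, hv, hv0⟩ := hL.v
  obtain ⟨l, hl, hl0⟩ := hL.l
  have h1 := coord0_eq (L := perp L) (l := v) (by rwa [perp_perp]) hv0 h.hw
  rw [hw0] at h1
  have h2 : ∑ i : Fin n, algebraMap ℂ k (tl v i) * w i.succ = 0 := by
    have : ∑ i : Fin n, algebraMap ℂ k (v i.succ) * w i.succ = 0 := by linear_combination h1
    exact this
  have h3 := h.hyp.w_lin hC h.xtail h.wtail h.gen h2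
  rw [mem_con] at h3
  have h4 := hl _ (L.sub_mem hv h3)
  rw [Fin.sum_univ_succ] at h4
  simp [tl_apply, hv0, hl0] at h4

theorem TCon.Q {x w y : Fin (n + 1) → k} (h : TCon L p N x w) (hL : NLC L)
    (hC : ∀ i, gx (con L) i ≠ 0) (hy : y ∈ Pt k L)
    (hE : EqE L fun i => y i.succ * w i.succ / x i.succ) (f : Fin n) (hf : y f.succ = 0) :
    y = 0 := by
  have hz := hE.mem
  have h1 := pair_zero h.xtail hz
  have h2 : ∑ i : Fin n, y i.succ * w i.succ = 0 := by
    rw [← h1]
    refine Finset.sum_congr rfl fun i _ => ?_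
    have := h.xs i
    field_simp
  have h3 := pair_zero hy h.hw
  rw [Fin.sum_univ_succ, h2, add_zero] at h3
  have h4 : y 0 = 0 := (mul_eq_zero.1 h3).resolve_right (h.w0_ne hL hC)
  have h5 : ∀ i : Fin n, y i.succ = 0 := by
    intro i
    have h6 := h.hyp.nondeg h.xtail h.wtail h.gen h.xs (Pt_con' hy h4) hz i f
    rw [hf, zero_mul] at h6
    exact (mul_eq_zero.1 h6).resolve_right (h.xs f)
  funext i
  refine Fin.cases h4 (fun j => h5 j) i

end

end Pool.Agent.H72R
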