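import Pool.Agent.H72R.Minor

/-!
Integrality of `x_f² w_f` over the other `x_i² w_i`; existence of places.
-/

set_option autoImplicit false
set_option linter.unusedSectionVars false

open MvPolynomial

namespace Pool.Agent.H72R

section bound

variable {ι : Type} [Fintype ι] {K : Type} [Field K] [Algebra ℂ K] {L : Submodule ℂ (ι → ℂ)}

theorem val_const_le (V : ValuationSubring K) (hV : ∀ c : ℂ, algebraMap ℂ K c ∈ V) (c : ℂ) :
    V.valuation (algebraMap ℂ K c) ≤ 1 := (V.valuation_le_one_iff _).2 (hV c)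

theorem bound {x w : ι → K} (hx : x ∈ Pt K L) (hw : w ∈ Pt K (perp L)) (V : ValuationSubring K)
    (hV : ∀ c : ℂ, algebraMap ℂ K c ∈ V) (f : ι) (h : ∀ i, i ≠ f → x i ^ 2 * w i ∈ V) :
    x f ^ 2 * w f ∈ V := by
  classical
  by_cases hxf : x f = 0
  · rw [hxf]; simp [V.zero_mem]
  have hvf : V.valuation (x f) ≠ 0 := (V.valuation.ne_zero_iff).2 hxf
  obtain ⟨u, hu, huS, huf⟩ | ⟨l, hl, hlf, hlS⟩ :=
    exists_sep L {i | V.valuation (x i) < V.valuation (x f)} f
      (fun h => lt_irrefl _ (Set.mem_ofPred_eq ▸ h))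
  · have h0 := mem_Pt_perp.1 hw u hu
    rw [← Finset.add_sum_erase _ _ (Finset.mem_univ f), huf, map_one, one_mul] at h0
    have h1 : w f = -∑ i ∈ Finset.univ.erase f, algebraMap ℂ K (u i) * w i := by
      linear_combination h0
    have h2 : V.valuation (w f) ≤ (V.valuation (x f) ^ 2)⁻¹ := by
      rw [h1, Valuation.map_neg]
      apply Valuation.map_sum_le
      intro i hi
      have hif : i ≠ f := (Finset.mem_erase.1 hi).1
      by_cases hiS : V.valuation (x i) < V.valuation (x f)
      · rw [huS i hiS, map_zero, zero_mul, map_zero]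
        exact zero_le
      · push Not at hiS
        have hvi : V.valuation (x i) ≠ 0 := by
          intro h0
          rw [h0] at hiS
          exact hvf (le_zero_iff.1 hiS)
        have h3 : V.valuation (w i) ≤ (V.valuation (x i) ^ 2)⁻¹ := by
          have h4 := (V.valuation_le_one_iff _).2 (h i hif)
          rw [map_mul, map_pow] at h4
          rw [← one_mul ((V.valuation (x i) ^ 2)⁻¹), ← div_eq_mul_inv]
          rw [le_div_iff₀ (pos_iff_ne_zero.2 (pow_ne_zero 2 hvi))]
          rwa [mul_comm]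
        rw [map_mul]
        calc V.valuation (algebraMap ℂ K (u i)) * V.valuation (w i)
            ≤ 1 * (V.valuation (x i) ^ 2)⁻¹ :=
              mul_le_mul' (val_const_le V hV _) h3
          _ = (V.valuation (x i) ^ 2)⁻¹ := one_mul _
          _ ≤ (V.valuation (x f) ^ 2)⁻¹ := by
              apply inv_anti₀ (pos_iff_ne_zero.2 (pow_ne_zero 2 hvf))
              exact pow_le_pow_left₀ zero_le hiS 2
    rw [← V.valuation_le_one_iff, map_mul, map_pow]
    calc V.valuation (x f) ^ 2 * V.valuation (w f)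
        ≤ V.valuation (x f) ^ 2 * (V.valuation (x f) ^ 2)⁻¹ := mul_le_mul_right h2 _
      _ = 1 := mul_inv_cancel₀ (pow_ne_zero 2 hvf)
  · exfalso
    have h0 := hx l hl
    rw [← Finset.add_sum_erase _ _ (Finset.mem_univ f), hlf, map_one, one_mul] at h0
    have h1 : x f = -∑ i ∈ Finset.univ.erase f, algebraMap ℂ K (l i) * x i := by
      linear_combination h0
    have h2 : V.valuation (x f) < V.valuation (x f) := by
      conv_lhs => rw [h1, Valuation.map_neg]
      apply Valuation.map_sum_lt _ hvf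
      intro i hi
      have hif : i ≠ f := (Finset.mem_erase.1 hi).1
      by_cases hiS : V.valuation (x i) < V.valuation (x f)
      · rw [map_mul]
        calc V.valuation (algebraMap ℂ K (l i)) * V.valuation (x i)
            ≤ 1 * V.valuation (x i) := mul_le_mul_left (val_const_le V hV _) _
          _ < V.valuation (x f) := by rwa [one_mul]
      · rw [hlS i hiS hif, map_zero, zero_mul, map_zero]
        exact pos_iff_ne_zero.2 hvf
    exact lt_irrefl _ h2

theorem integral {x w : ι → K} (hx : x ∈ Pt K L) (hw : w ∈ Pt K (perp L)) (f : ι) {σ : Type}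
    (y : σ → K) (hy : ∀ i, i ≠ f → x i ^ 2 * w i ∈ (aeval y : MvPolynomial σ ℂ →ₐ[ℂ] K).range) :
    ((aeval y : MvPolynomial σ ℂ →ₐ[ℂ] K) : MvPolynomial σ ℂ →+* K).IsIntegralElem
      (x f ^ 2 * w f) := by
  let A : Subring K := ((aeval y : MvPolynomial σ ℂ →ₐ[ℂ] K) : MvPolynomial σ ℂ →+* K).range
  have h1 : x f ^ 2 * w f ∈ (integralClosure (Subring.closure (A : Set K)) K).toSubring := by
    rw [← iInf_valuationSubring_superset]
    rw [Subring.mem_iInf]
    rintro ⟨V, hV⟩
    apply bound hx hw V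
    · intro c
      apply hV
      exact ⟨C c, by simp⟩
    · intro i hi
      apply hV
      obtain ⟨q, hq⟩ := hy i hi
      exact ⟨q, hq⟩
  have h2 : IsIntegral (Subring.closure (A : Set K)) (x f ^ 2 * w f) := h1
  rw [Subring.closure_eq] at h2
  obtain ⟨p, hp1, hp2⟩ := h2
  -- lift the coefficients
  have hsurj : Function.Surjective
      ((aeval y : MvPolynomial σ ℂ →ₐ[ℂ] K) : MvPolynomial σ ℂ →+* K).rangeRestrict :=
    RingHom.rangeRestrict_surjective _
  have hlift : p ∈ Polynomial.lifts
      ((aeval y : MvPolynomial σ ℂ →ₐ[ℂ] K) : MvPolynomial σ ℂ →+* K).rangeRestrict := by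
    rw [Polynomial.lifts_iff_coeff_lifts]
    intro k
    exact hsurj _
  obtain ⟨q, hq1, hq2, hq3⟩ := Polynomial.lifts_and_natDegree_eq_and_monic hlift hp1
  refine ⟨q, hq3, ?_⟩
  rw [← hq1, Polynomial.eval₂_map] at hp2
  exact hp2

end bound

section place

/-- existence of places: a prime ideal of a domain is the centre of a valuation ring -/
theorem exists_place {R K : Type} [CommRing R] [Field K] (e : R →+* K) (he : Function.Injective e)
    (Q : Ideal R) [hQ : Q.IsPrime] :
    ∃ V : ValuationSubring K, (∀ r, e r ∈ V) ∧ ∀ r, V.valuation (e r) < 1 ↔ r ∈ Q := by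
  let A : Subring K := e.range
  let eq : R ≃+* A := RingEquiv.ofBijective e.rangeRestrict
    ⟨fun a b h => he (congrArg Subtype.val h), RingHom.rangeRestrict_surjective _⟩
  let P : Ideal A := Q.comap (eq.symm : A →+* R)
  have hP : P.IsPrime := Ideal.IsPrime.comap _
  obtain ⟨V, hV⟩ := (LocalSubring.ofPrime A P).exists_le_valuationSubring
  have hAV : ∀ a ∈ A, a ∈ V := fun a ha => hV.1 (LocalSubring.le_ofPrime A P ha)
  have heV : ∀ r, e r ∈ V := fun r => hAV _ ⟨r, rfl⟩
  refine ⟨V, heV, fun r => ?_⟩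
  have hr : (eq r : K) = e r := rfl
  have hmemP : (eq r) ∈ P ↔ r ∈ Q := by
    show (eq.symm : A →+* R) (eq r) ∈ Q ↔ r ∈ Q
    simp
  rw [← hmemP]
  have hval : V.valuation (e r) < 1 ↔ ¬ IsUnit (⟨e r, heV r⟩ : V) := by
    rw [V.valuation_lt_one_iff ⟨e r, heV r⟩ |>.symm]
    exact Iff.rfl
  rw [hval]
  have hunit : IsUnit (⟨e r, heV r⟩ : V) ↔
      IsUnit (⟨e r, LocalSubring.le_ofPrime A P ⟨r, rfl⟩⟩ : (LocalSubring.ofPrime A P).toSubring) := by
    have := hV.2
    constructor
    · intro h
      exact this.1 _ h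
    · intro h
      exact h.map (Subring.inclusion hV.1)
  rw [hunit]
  have h3 := IsLocalization.AtPrime.isUnit_to_map_iff (LocalSubring.ofPrime A P).toSubring P (eq r)
  have h4 : (algebraMap A (LocalSubring.ofPrime A P).toSubring) (eq r) =
      (⟨e r, LocalSubring.le_ofPrime A P ⟨r, rfl⟩⟩ : (LocalSubring.ofPrime A P).toSubring) := rfl
  rw [← h4, h3]
  exact not_not

end place

end Pool.Agent.H72R
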